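import Pool.Agent.V5helper15.RM.Fdd

/-!
# The invariance principle for nearly independent letters
-/

set_option autoImplicit false

namespace Pool.Agent.V5helper15.RM

open Finset Filter Topology MeasureTheory ProbabilityTheory
open Pool.Agent.V5helper57.Win (Fun ix ix_spec stepf gr brown_step)
open Pool.Agent.X280.BP (four_ineq exists_split)
open scoped NNReal ENNReal

variable {b : ℕ} {f : Fin b → ℝ} {F : ℝ}

/-- **The maximal inequality.** -/
theorem chain {Ω : Type*} [Fintype Ω] {p : Ω → ℝ} (hp : Prob p) (X : ℕ → Ω → ℝ) (A : ℝ) (hA : 0 ≤ A)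
    (b0 : ℕ) (h4 : ∀ a b, a ≤ b → b ≤ b0 → E p (fun c => (∑ i ∈ Ico a b, X i c) ^ 4) ≤
      A * ((b - a : ℕ) : ℝ) ^ 2) :
    ∀ n a b, a ≤ b → b ≤ b0 → b - a ≤ n → ∃ M : Ω → ℝ,
      E p M ≤ 2916 * A * ((b - a : ℕ) : ℝ) ^ 2 ∧
      ∀ c t, a ≤ t → t ≤ b → (∑ i ∈ Ico a t, X i c) ^ 4 ≤ M c := by
  have _ := hp
  intro n
  induction n with
  | zero =>
    intro a b hab _ hn
    have he : a = b := by omega
    subst he
    refine ⟨fun _ => 0, ?_, ?_⟩
    · have : E p (fun _ => (0 : ℝ)) = 0 := by simp [E]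
      rw [this]
      positivity
    · intro c t h1 h2
      have : t = a := by omega
      subst this
      simp
  | succ n ih =>
    intro a b hab hb hn
    rcases Nat.eq_or_lt_of_le hab with he | hlt
    · subst he
      obtain ⟨M, h1, h2⟩ := ih a a le_rfl hb (by omega)
      exact ⟨M, h1, h2⟩
    · have hcard : ∀ u v : ℕ, ∑ i ∈ Ico u v, (1 : ℝ) = ((v - u : ℕ) : ℝ) := by
        intro u v; simp
      obtain ⟨h, h1, h2, h3, h5⟩ := exists_split (fun _ => (1 : ℝ)) (fun _ => by positivity) a b hlt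
      rw [hcard, hcard] at h3 h5
      obtain ⟨ML, hL1, hL2⟩ := ih a h h1 (by omega) (by omega)
      obtain ⟨MR, hR1, hR2⟩ := ih (h + 1) b (by omega) hb (by omega)
      have hL0 : ∀ c, 0 ≤ ML c := fun c => by
        have := hL2 c a le_rfl h1
        simpa using this
      have hR0 : ∀ c, 0 ≤ MR c := fun c => by
        have := hR2 c (h + 1) le_rfl (by omega)
        simpa using this
      set W := ((b - a : ℕ) : ℝ) with hW
      have hW0 : 0 ≤ W := Nat.cast_nonneg _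
      refine ⟨fun c => 3 / 2 * (ML c + MR c) + 729 * (∑ i ∈ Ico a (h + 1), X i c) ^ 4, ?_, ?_⟩
      · have e : E p (fun c => 3 / 2 * (ML c + MR c) + 729 * (∑ i ∈ Ico a (h + 1), X i c) ^ 4) =
            3 / 2 * (E p ML + E p MR) +
              729 * E p (fun c => (∑ i ∈ Ico a (h + 1), X i c) ^ 4) := by
          rw [E_add, E_mul, E_mul, E_add]
        rw [e]
        have k1 := h4 a (h + 1) (by omega) (by omega)
        have k2 : (((h + 1 - a : ℕ)) : ℝ) ^ 2 ≤ W ^ 2 := by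
          refine pow_le_pow_left₀ (Nat.cast_nonneg _) ?_ 2
          rw [hW]
          exact_mod_cast (by omega : h + 1 - a ≤ b - a)
        have k3 : ((h - a : ℕ) : ℝ) ^ 2 ≤ W ^ 2 / 4 := by
          have : ((h - a : ℕ) : ℝ) ^ 2 ≤ (W / 2) ^ 2 :=
            pow_le_pow_left₀ (Nat.cast_nonneg _) (by linarith) 2
          linarith [this, show (W / 2) ^ 2 = W ^ 2 / 4 by ring]
        have k4 : ((b - (h + 1) : ℕ) : ℝ) ^ 2 ≤ W ^ 2 / 4 := by
          have : ((b - (h + 1) : ℕ) : ℝ) ^ 2 ≤ (W / 2) ^ 2 :=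
            pow_le_pow_left₀ (Nat.cast_nonneg _) (by linarith) 2
          linarith [this, show (W / 2) ^ 2 = W ^ 2 / 4 by ring]
        have k5 := mul_le_mul_of_nonneg_left k2 hA
        have k6 := mul_le_mul_of_nonneg_left k3 (show 0 ≤ 2916 * A by positivity)
        have k7 := mul_le_mul_of_nonneg_left k4 (show 0 ≤ 2916 * A by positivity)
        nlinarith
      · intro c t ht1 ht2
        have hS0 : 0 ≤ (∑ i ∈ Ico a (h + 1), X i c) ^ 4 := by positivity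
        rcases Nat.lt_or_ge h t with hl | hl
        · have e : ∑ i ∈ Ico a t, X i c = ∑ i ∈ Ico a (h + 1), X i c + ∑ i ∈ Ico (h + 1) t, X i c :=
            (Finset.sum_Ico_consecutive (fun i => X i c) (by omega) (by omega)).symm
          rw [e]
          refine (four_ineq _ _).trans ?_
          have := hR2 c t (by omega) ht2
          have := hL0 c
          linarith
        · have := hL2 c t ht1 hl
          have := hR0 c
          have := hL0 c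
          linarith

/-- the values at the letters, extended by zero -/
noncomputable def Xl {N : ℕ} (f : Fin b → ℝ) (x : Fin N → Fin b) (i : ℕ) : ℝ := if h : i < N then f (x ⟨i, h⟩) else 0

theorem SW_eq {N : ℕ} (x : Fin N → Fin b) {u v : ℕ} (hv : v ≤ N) : SW f u v x = ∑ i ∈ Ico u v, Xl f x i := by
  unfold SW TT
  have h1 : ∀ i : Fin N, (if u ≤ (i : ℕ) ∧ (i : ℕ) < v then (1 : ℝ) else 0) * f (x i) =
      (fun j : ℕ => if u ≤ j ∧ j < v then Xl f x j else 0) i := by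
    intro i
    dsimp only
    unfold Xl
    rw [dif_pos i.2]
    split_ifs <;> simp
  rw [sum_congr rfl fun i _ => h1 i, Fin.sum_univ_eq_sum_range (fun j : ℕ => if u ≤ j ∧ j < v then Xl f x j else 0) N,
    ← sum_filter]
  congr 1
  ext i; simp only [mem_filter, mem_range, mem_Ico]; omega

variable {Φ : (ℝ → ℝ) → ℝ} {Mb Kf : ℝ}

/-- **Tightness.** -/
theorem Cen.tight (h : Cen f F) (hv : 0 < va f) (hΦ : Fun Φ Mb Kf) (n : ℕ) {δ : ℝ} (hδ : 0 < δ) (S : Smp b)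
    (hS : S.Ok (n + 4)) :
    |E S.p (fun c => Φ (pth f (S.D c))) -
      E S.p (fun c => Φ (stepf n (fun k => pth f (S.D c) (((k : ℕ) + 1 : ℝ) / ((n + 1 : ℕ) : ℝ)))))| ≤
      Kf * δ + 2 * Mb * (2916 * ((144 + (b : ℝ) ^ 4) * F ^ 4) * 64 / va f ^ 2) / (((n + 1 : ℕ) : ℝ) * δ ^ 4) := by
  classical
  have hMb0 := hΦ.Mb0
  have hKf0 := hΦ.Kf0
  have hF := h.F0
  obtain ⟨A, hA⟩ : ∃ A : ℝ, A = (144 + (b : ℝ) ^ 4) * F ^ 4 := ⟨_, rfl⟩
  have hA0 : 0 ≤ A := by rw [hA]; positivity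
  have hN1 := hS.pos
  have hNR : (0 : ℝ) < S.N := by exact_mod_cast hN1
  have hNn : n + 4 ≤ S.N := hS.big
  obtain ⟨M0, hM0⟩ : ∃ M0 : ℝ, M0 = ((n + 1 : ℕ) : ℝ) := ⟨_, rfl⟩
  have hM00 : 0 < M0 := by rw [hM0]; positivity
  have hM0N : M0 ≤ S.N := by rw [hM0]; exact_mod_cast (by omega : n + 1 ≤ S.N)
  have hσ : 0 < √(va f) := Real.sqrt_pos.2 hv
  have hσ2 : √(va f) ^ 2 = va f := Real.sq_sqrt hv.le
  have hsq : 0 < √(S.N : ℝ) := Real.sqrt_pos.2 hNR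
  have hsq1 : √(S.N : ℝ) ^ 2 = S.N := Real.sq_sqrt hNR.le
  obtain ⟨g, hg⟩ : ∃ g : ℕ → ℝ, g = fun k : ℕ => (k : ℝ) / M0 := ⟨_, rfl⟩
  have hg0 : ∀ k, 0 ≤ g k := fun k => by rw [hg]; positivity
  have hgm : ∀ k, g k ≤ g (k + 1) := fun k => by
    rw [hg]
    have : (k : ℝ) ≤ ((k + 1 : ℕ) : ℝ) := by push_cast; linarith
    dsimp only
    gcongr
  have hg1 : ∀ k : Fin (n + 1), g (k + 1) ≤ 1 := fun k => by
    rw [hg]
    dsimp only
    rw [div_le_one hM00, hM0]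
    exact_mod_cast k.2
  obtain ⟨m, hm⟩ : ∃ m : ℝ → ℕ, m = fun t : ℝ => ⌊t * (S.N : ℝ)⌋₊ := ⟨_, rfl⟩
  have hmm : ∀ s t, s ≤ t → m s ≤ m t := fun s t hst => by
    rw [hm]
    exact Nat.floor_mono (mul_le_mul_of_nonneg_right hst hNR.le)
  have hmN : ∀ t, t ≤ 1 → m t ≤ S.N := fun t ht => by
    rw [hm]
    apply Nat.floor_le_of_le
    nlinarith
  have hpth : ∀ (c : S.Ω) (t : ℝ), t ≤ 1 → pth f (S.D c) t = (∑ i ∈ Ico 0 (m t), Xl f (S.D c) i) / (√(va f) * √(S.N : ℝ)) := by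
    intro c t ht
    unfold pth
    have := hmN t ht
    rw [hm] at this ⊢
    rw [SW_eq _ this]
  have hfour : ∀ a b', a ≤ b' → b' ≤ S.N → E S.p (fun c => (∑ i ∈ Ico a b', Xl f (S.D c) i) ^ 4) ≤ A * ((b' - a : ℕ) : ℝ) ^ 2 := by
    intro a b' hab hb'
    have h1 := h.four (p := S.p) (D := S.D) (K := n + 4) (by omega) hS.near hab hb'
    rw [← hA] at h1
    simpa only [SW_eq _ hb'] using h1
  have hblock : ∀ k : Fin (n + 1), ∃ Mk : S.Ω → ℝ,
      E S.p Mk ≤ 2916 * A * (2 * S.N / M0) ^ 2 ∧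
      ∀ c t, m (g k) ≤ t → t ≤ m (g (k + 1)) → (∑ i ∈ Ico (m (g k)) t, Xl f (S.D c) i) ^ 4 ≤ Mk c := by
    intro k
    have hab := hmm _ _ (hgm k)
    obtain ⟨Mk, h1, h2⟩ := chain hS.prob (fun i c => Xl f (S.D c) i) A hA0 S.N hfour (m (g (k + 1)) - m (g k)) (m (g k))
      (m (g (k + 1))) hab (hmN _ (hg1 k)) le_rfl
    refine ⟨Mk, h1.trans ?_, h2⟩
    have h3 : ((m (g (k + 1)) - m (g k) : ℕ) : ℝ) ≤ 2 * S.N / M0 := by
      rw [Nat.cast_sub hab]
      have h4 : (m (g (k + 1)) : ℝ) ≤ g (k + 1) * S.N := by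
        rw [hm]; exact Nat.floor_le (mul_nonneg (hg0 _) hNR.le)
      have h5 : g k * S.N < m (g k) + 1 := by
        rw [hm]; exact Nat.lt_floor_add_one _
      have h6 : g (k + 1) * S.N = g k * S.N + S.N / M0 := by
        rw [hg]; dsimp only; push_cast; field_simp
      have h7 : 1 ≤ S.N / M0 := by rw [le_div_iff₀ hM00]; linarith
      have h8 : 2 * (S.N : ℝ) / M0 = S.N / M0 + S.N / M0 := by ring
      rw [h8]
      linarith
    gcongr
  choose Mk hM1 hM2 using hblock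
  have hMk0 : ∀ k c, 0 ≤ Mk k c := fun k c => by
    refine le_trans ?_ (hM2 k c (m (g k)) le_rfl (hmm _ _ (hgm k)))
    positivity
  obtain ⟨R, hR⟩ : ∃ R : ℝ, R = δ / 2 * (√(va f) * √(S.N : ℝ)) := ⟨_, rfl⟩
  have hR0 : 0 < R := by rw [hR]; positivity
  have hosc : ∀ c, (∀ k, Mk k c ≤ R ^ 4) → ∀ t, 0 ≤ t → t ≤ 1 →
      |pth f (S.D c) t - stepf n (fun k => pth f (S.D c) (((k : ℕ) + 1 : ℝ) / ((n + 1 : ℕ) : ℝ))) t| ≤ δ := by
    intro c hc t ht0 ht1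
    obtain ⟨h1, h2⟩ := ix_spec n ht0 ht1
    obtain ⟨k, hk⟩ : ∃ k, k = ix n t := ⟨_, rfl⟩
    rw [← hk, ← hM0] at h1 h2
    have h1' : g k ≤ t := by rw [hg]; exact h1
    have h2' : t ≤ g (k + 1) := by rw [hg]; push_cast; exact h2
    have e0 : stepf n (fun k => pth f (S.D c) (((k : ℕ) + 1 : ℝ) / ((n + 1 : ℕ) : ℝ))) t = pth f (S.D c) (g (k + 1)) := by
      unfold stepf
      rw [← hk, hg, hM0]
      push_cast
      rfl
    rw [e0, hpth c t ht1, hpth c _ (hg1 k)]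
    have ha1 := hmm _ _ h1'
    have ha2 := hmm _ _ h2'
    have h5 : ∀ s, m (g k) ≤ s → s ≤ m (g (k + 1)) → |∑ i ∈ Ico (m (g k)) s, Xl f (S.D c) i| ≤ R := by
      intro s hs1 hs2
      have h6 := (hM2 k c s hs1 hs2).trans (hc k)
      have h7 : |∑ i ∈ Ico (m (g k)) s, Xl f (S.D c) i| ^ 4 ≤ R ^ 4 := by
        rw [pow_abs, abs_of_nonneg (by positivity)]
        exact h6
      exact le_of_pow_le_pow_left₀ (by norm_num) hR0.le h7
    have h8 := h5 _ ha1 ha2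
    have h9 := h5 _ (ha1.trans ha2) le_rfl
    have e3 := Finset.sum_Ico_consecutive (Xl f (S.D c)) (Nat.zero_le _) ha1
    have e2 := Finset.sum_Ico_consecutive (Xl f (S.D c)) (Nat.zero_le _) (ha1.trans ha2)
    rw [← e3, ← e2, ← sub_div, abs_div, abs_of_pos (show 0 < √(va f) * √(S.N : ℝ) by positivity), div_le_iff₀ (by positivity)]
    have h10 : ∑ i ∈ Ico 0 (m (g k)), Xl f (S.D c) i + ∑ i ∈ Ico (m (g k)) (m t), Xl f (S.D c) i -
        (∑ i ∈ Ico 0 (m (g k)), Xl f (S.D c) i + ∑ i ∈ Ico (m (g k)) (m (g (k + 1))), Xl f (S.D c) i) =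
        ∑ i ∈ Ico (m (g k)) (m t), Xl f (S.D c) i - ∑ i ∈ Ico (m (g k)) (m (g (k + 1))), Xl f (S.D c) i := by ring
    rw [h10]
    refine (abs_sub _ _).trans ?_
    have h11 : δ * (√(va f) * √(S.N : ℝ)) = R + R := by rw [hR]; ring
    rw [h11]
    exact add_le_add h8 h9
  rw [← E_sub]
  refine (hS.prob.abs _).trans ?_
  have hmaj : ∀ c, |Φ (pth f (S.D c)) - Φ (stepf n (fun k => pth f (S.D c) (((k : ℕ) + 1 : ℝ) / ((n + 1 : ℕ) : ℝ))))| ≤
      Kf * δ + 2 * Mb / R ^ 4 * ∑ k : Fin (n + 1), Mk k c := by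
    intro c
    have h0 : 0 ≤ 2 * Mb / R ^ 4 * ∑ k : Fin (n + 1), Mk k c := by
      have : 0 ≤ ∑ k : Fin (n + 1), Mk k c := sum_nonneg fun k _ => hMk0 k c
      positivity
    have h4 : 0 ≤ Kf * δ := by positivity
    by_cases hc : ∀ k, Mk k c ≤ R ^ 4
    · have h1 := hΦ.lip (pth f (S.D c)) (stepf n (fun k => pth f (S.D c) (((k : ℕ) + 1 : ℝ) / ((n + 1 : ℕ) : ℝ)))) δ hδ.le
        (fun t ht0 ht1 => hosc c hc t ht0 ht1)
      linarith
    · push Not at hc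
      obtain ⟨k, hk⟩ := hc
      have h1 := hΦ.diff (pth f (S.D c)) (stepf n (fun k => pth f (S.D c) (((k : ℕ) + 1 : ℝ) / ((n + 1 : ℕ) : ℝ))))
      have h2 : 2 * Mb ≤ 2 * Mb / R ^ 4 * ∑ k : Fin (n + 1), Mk k c := by
        have h3 : R ^ 4 ≤ ∑ k : Fin (n + 1), Mk k c :=
          hk.le.trans (Finset.single_le_sum (f := fun k => Mk k c) (fun i _ => hMk0 i c) (Finset.mem_univ k))
        rw [div_mul_eq_mul_div, le_div_iff₀ (by positivity)]
        exact mul_le_mul_of_nonneg_left h3 (by positivity)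
      linarith
  refine (hS.prob.mono hmaj).trans ?_
  rw [E_add, hS.prob.const, E_mul, E_sum]
  have h12 : ∑ k : Fin (n + 1), E S.p (Mk k) ≤ M0 * (2916 * A * (2 * S.N / M0) ^ 2) := by
    refine (sum_le_sum fun k _ => hM1 k).trans (le_of_eq ?_)
    rw [sum_const, card_univ, Fintype.card_fin, nsmul_eq_mul, hM0]
  have h13 : 2 * Mb / R ^ 4 * ∑ k : Fin (n + 1), E S.p (Mk k) ≤ 2 * Mb / R ^ 4 * (M0 * (2916 * A * (2 * S.N / M0) ^ 2)) :=
    mul_le_mul_of_nonneg_left h12 (by positivity)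
  have h14 : 2 * Mb / R ^ 4 * (M0 * (2916 * A * (2 * S.N / M0) ^ 2)) = 2 * Mb * (2916 * A * 64 / va f ^ 2) / (M0 * δ ^ 4) := by
    have e4 : R ^ 4 = δ ^ 4 / 16 * (va f ^ 2 * (S.N : ℝ) ^ 2) := by
      have : R ^ 4 = (δ / 2) ^ 4 * ((√(va f) ^ 2) ^ 2 * (√(S.N : ℝ) ^ 2) ^ 2) := by rw [hR]; ring
      rw [this, hσ2, hsq1]
      ring
    rw [e4]
    field_simp
    ring
  rw [← hA, ← hM0]
  linarith

variable {Ω : Type*} [MeasurableSpace Ω] {P : Measure Ω} {W : ℝ≥0 → Ω → ℝ}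

/-- **The invariance principle.** -/
theorem Cen.donsker (h : Cen f F) (hv : 0 < va f) (hW : IsBrownianReal W P) (hΦ : Fun Φ Mb Kf) {ε : ℝ} (hε : 0 < ε) :
    ∃ K : ℕ, ∀ S : Smp b, S.Ok K →
      |E S.p (fun c => Φ (pth f (S.D c))) - ∫ ω, Φ (fun t : ℝ => W t.toNNReal ω) ∂P| ≤ ε := by
  have hK := hΦ.Kf0
  have hMb := hΦ.Mb0
  obtain ⟨δ, hδd⟩ : ∃ δ : ℝ, δ = ε / (4 * (Kf + 1)) := ⟨_, rfl⟩
  have hδ : 0 < δ := by rw [hδd]; positivity
  have hKδ : Kf * δ ≤ ε / 4 := by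
    have : (Kf + 1) * δ = ε / 4 := by rw [hδd]; field_simp
    nlinarith
  have hlim1 : Tendsto (fun n : ℕ => 2 * Mb * (2916 * ((144 + (b : ℝ) ^ 4) * F ^ 4) * 64 / va f ^ 2) /
      (((n + 1 : ℕ) : ℝ) * δ ^ 4)) atTop (𝓝 0) := by
    have h1 : Tendsto (fun n : ℕ => ((n + 1 : ℕ) : ℝ) * δ ^ 4) atTop atTop :=
      (tendsto_natCast_atTop_atTop.comp (tendsto_add_atTop_nat 1)).atTop_mul_const (by positivity)
    exact tendsto_const_nhds.div_atTop h1
  have hlim2 := brown_step hW hΦ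
  rw [Metric.tendsto_atTop] at hlim2
  obtain ⟨N2, hN2⟩ := hlim2 (ε / 4) (by positivity)
  obtain ⟨n, hn1, hn2⟩ := ((hlim1.eventually (ge_mem_nhds (show (0 : ℝ) < ε / 4 by positivity))).and
    (eventually_ge_atTop N2)).exists
  have h3 := hN2 n hn2
  rw [Real.dist_eq] at h3
  obtain ⟨K1, hK1⟩ := h.fdd hv hW.toIsPreBrownianReal (n := n + 1) (Nat.succ_pos n) (fun v => Φ (stepf n v))
    (hΦ.step_cont n) (fun v => hΦ.bd _) (ε := ε / 4) (by positivity)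
  refine ⟨max K1 (n + 4), fun S hS => ?_⟩
  have h5 := h.tight hv hΦ n hδ S (hS.anti (le_max_right _ _))
  have h6 := hK1 S (hS.anti (le_max_left _ _))
  rw [abs_le] at h5 h6 ⊢
  rw [abs_lt] at h3
  constructor <;> linarith [h3.1, h3.2, h5.1, h5.2, h6.1, h6.2]

end Pool.Agent.V5helper15.RM
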