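import Pool.Agent.V5helper15.RM.Gen
import Pool.Agent.V5helper15.RM.Donsker

/-!
# Windows and near independence of the digits of random multiples
-/

set_option autoImplicit false

namespace Pool.Agent.V5helper15.RM

open Finset Filter Topology
open Pool.Agent.H469R2.NK (e norm_e e_add e_zero conj_e)

/-- probability that a string has given letters at given places -/
theorem un_places {b N : ℕ} (hb : 0 < b) (T : Finset ℕ) (hT : T ⊆ range N) (d : ℕ → ℕ) (hd : ∀ i, d i < b) :
    E (un b N) (fun x => if ∀ i : Fin N, (i : ℕ) ∈ T → (x i : ℕ) = d i then 1 else 0) = 1 / (b : ℝ) ^ T.card := by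
  classical
  have hb0 : (b : ℝ) ≠ 0 := by exact_mod_cast hb.ne'
  have h1 : ∀ x : Fin N → Fin b, (if ∀ i : Fin N, (i : ℕ) ∈ T → (x i : ℕ) = d i then (1 : ℝ) else 0) =
      ∏ i, (fun (i : Fin N) (c : Fin b) => if (i : ℕ) ∈ T → (c : ℕ) = d i then (1 : ℝ) else 0) i (x i) := by
    intro x
    by_cases h : ∀ i : Fin N, (i : ℕ) ∈ T → (x i : ℕ) = d i
    · rw [if_pos h]
      exact (prod_eq_one fun i _ => if_pos (h i)).symm
    · rw [if_neg h]
      rw [not_forall] at h
      obtain ⟨i, hi⟩ := h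
      exact (prod_eq_zero (mem_univ i) (if_neg hi)).symm
  rw [show (fun x : Fin N → Fin b => if ∀ i : Fin N, (i : ℕ) ∈ T → (x i : ℕ) = d i then (1 : ℝ) else 0) = _ from funext h1,
    un_prodR N (fun (i : Fin N) (c : Fin b) => if (i : ℕ) ∈ T → (c : ℕ) = d i then (1 : ℝ) else 0)]
  have h2 : ∀ i : Fin N, (∑ c : Fin b, (if (i : ℕ) ∈ T → (c : ℕ) = d i then (1 : ℝ) else 0)) / b =
      (fun j : ℕ => if j ∈ T then 1 / (b : ℝ) else 1) i := by
    intro i
    dsimp only
    by_cases hi : (i : ℕ) ∈ T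
    · rw [if_pos hi]
      congr 1
      have h3 : ∀ c : Fin b, (if (i : ℕ) ∈ T → (c : ℕ) = d i then (1 : ℝ) else 0) = if c = ⟨d i, hd i⟩ then 1 else 0 := by
        intro c
        refine if_congr ?_ rfl rfl
        rw [Fin.ext_iff]
        simp [hi]
      simp only [h3]
      simp
    · rw [if_neg hi]
      simp only [hi, false_imp_iff, if_true]
      simp [hb0]
  rw [prod_congr rfl fun i _ => h2 i, Fin.prod_univ_eq_prod_range (fun j : ℕ => if j ∈ T then 1 / (b : ℝ) else 1) N]
  rw [prod_ite, prod_const_one, mul_one, prod_const]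
  have h4 : (range N).filter (fun j => j ∈ T) = T := by
    ext j; simp only [mem_filter]; exact ⟨fun h => h.2, fun h => ⟨hT h, h⟩⟩
  rw [h4, div_pow, one_pow]

/-- the first letters -/
theorem un_marginal {b N L k : ℕ} (hb : 0 < b) (i : Fin k → Fin N) (d : Fin k → Fin b) (hi : ∀ j, (i j : ℕ) < N + L) :
    E (un b (N + L)) (fun x => if ∀ j, x ⟨i j, hi j⟩ = d j then 1 else 0) =
      E (un b N) (fun x => if ∀ j, x (i j) = d j then 1 else 0) := by
  classical
  have hb0 : (b : ℝ) ≠ 0 := by exact_mod_cast hb.ne'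
  have key : ∀ (M : ℕ) (hM : ∀ j, (i j : ℕ) < M), E (un b M) (fun x => if ∀ j, x ⟨i j, hM j⟩ = d j then 1 else 0) =
      ∏ m ∈ range M, (∑ c : Fin b, (if ∀ j, (i j : ℕ) = m → c = d j then (1 : ℝ) else 0)) / b := by
    intro M hM
    have h1 : ∀ x : Fin M → Fin b, (if ∀ j, x ⟨i j, hM j⟩ = d j then (1 : ℝ) else 0) =
        ∏ m, (fun (m : Fin M) (c : Fin b) => if ∀ j, (i j : ℕ) = (m : ℕ) → c = d j then (1 : ℝ) else 0) m (x m) := by
      intro x
      by_cases h : ∀ j, x ⟨i j, hM j⟩ = d j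
      · rw [if_pos h]
        refine (prod_eq_one fun m _ => if_pos ?_).symm
        intro j hj
        rw [← h j]
        congr 1
        exact Fin.ext hj.symm
      · rw [if_neg h]
        rw [not_forall] at h
        obtain ⟨j, hj⟩ := h
        exact (prod_eq_zero (mem_univ (⟨i j, hM j⟩ : Fin M)) (if_neg fun h' => hj (h' j rfl))).symm
    rw [show (fun x : Fin M → Fin b => if ∀ j, x ⟨i j, hM j⟩ = d j then (1 : ℝ) else 0) = _ from funext h1,
      un_prodR M (fun (m : Fin M) (c : Fin b) => if ∀ j, (i j : ℕ) = (m : ℕ) → c = d j then (1 : ℝ) else 0)]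
    rw [Fin.prod_univ_eq_prod_range (fun m => (∑ c : Fin b, (if ∀ j, (i j : ℕ) = m → c = d j then (1 : ℝ) else 0)) / b) M]
  rw [key (N + L) hi, show E (un b N) (fun x => if ∀ j, x (i j) = d j then 1 else 0) = _ from key N (fun j => (i j).2)]
  have h2 : range (N + L) = range N ∪ Ico N (N + L) := by
    ext m; simp only [mem_range, mem_union, mem_Ico]; omega
  rw [h2, prod_union (by
    rw [disjoint_left]; intro m hm hm'; rw [mem_range] at hm; rw [mem_Ico] at hm'; omega)]
  have h3 : ∏ m ∈ Ico N (N + L), (∑ c : Fin b, (if ∀ j, (i j : ℕ) = m → c = d j then (1 : ℝ) else 0)) / b = 1 := by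
    refine prod_eq_one fun m hm => ?_
    rw [mem_Ico] at hm
    have h4 : ∀ c : Fin b, (if ∀ j, (i j : ℕ) = m → c = d j then (1 : ℝ) else 0) = 1 := by
      intro c
      refine if_pos fun j hj => ?_
      have := (i j).2
      omega
    simp only [h4]
    simp [hb0]
  rw [h3, mul_one]

theorem exists_big (b : ℕ) (hb : 2 ≤ b) (A N : ℕ) : ∃ L : ℕ, A < b ^ (N + L) := by
  obtain ⟨L, hL⟩ := pow_unbounded_of_one_lt A (show 1 < b by omega)
  exact ⟨L, hL.trans_le (Nat.pow_le_pow_right (by omega) (by omega))⟩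

/-- the union of the intervals `[u j, v j)` -/
def TU {k : ℕ} (u v : Fin k → ℕ) : Finset ℕ := univ.biUnion fun j => Ico (u j) (v j)

theorem mem_TU {k : ℕ} {u v : Fin k → ℕ} {i : ℕ} : i ∈ TU u v ↔ ∃ j, u j ≤ i ∧ i < v j := by
  unfold TU
  rw [mem_biUnion]
  simp only [mem_univ, true_and, mem_Ico]

/-- **Windows**: unions of few intervals of places. -/
theorem windows_app (b : ℕ) (hb : 2 ≤ b) (x : ℝ) (hx : IsAlgebraic ℚ x) (hirr : Irrational x) (k : ℕ) (ε : ℝ) (hε : 0 < ε) :
    ∃ κ : ℝ, 0 < κ ∧ ∀ c : ℝ, 0 < c → ∃ τ : ℝ, 0 < τ ∧ ∃ N0 : ℕ, ∀ N : ℕ, N0 ≤ N →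
      ∀ {Ω : Type} [Fintype Ω] (p : Ω → ℝ) (a : Ω → ℤ) (y : ℝ), Prob p →
      Spread p a (Real.exp (κ * N)) (Real.exp (-(ε * N))) (Real.exp (-(c * N))) →
      ∀ u v : Fin k → ℕ, (∀ j, v j ≤ N) → ((TU u v).card : ℝ) ≤ τ * N →
      ∀ d : ℕ → ℕ, (∀ i, d i < b) →
      |E p (fun ω => if ∀ i ∈ TU u v, dg b (y + a ω * x) i = d i then 1 else 0) - 1 / (b : ℝ) ^ (TU u v).card| ≤
        Real.exp (-(τ * N)) / (b : ℝ) ^ (TU u v).card := by
  classical
  obtain ⟨κ, hκ, h⟩ := windows_main b hb x hx hirr k ε hε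
  refine ⟨κ, hκ, fun c hc => ?_⟩
  obtain ⟨τ, hτ, N0, h⟩ := h c hc
  have hbR : (2 : ℝ) ≤ b := by exact_mod_cast hb
  have hlog : 0 < Real.log b := Real.log_pos (by linarith)
  refine ⟨τ / (1 + Real.log b), by positivity, N0, fun N hN Ω _ p a y hp hS u v hv hcard d hd => ?_⟩
  set T := TU u v with hT
  have hTN : T ⊆ range N := by
    intro i hi
    rw [hT, mem_TU] at hi
    obtain ⟨j, hj⟩ := hi
    rw [mem_range]
    have := hv j
    omega
  obtain ⟨L, hL⟩ := exists_big b hb (k * ⌊Real.exp (κ * N)⌋₊ * b ^ N) N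
  have h1 := h N hN p a y hp hS (fun j => min (u j) N) (fun j => v j - u j) (fun j => min_le_right _ _)
    (fun j i => d (u j + i)) (fun j i => hd _) hL (fun j => by
      have := hv j
      rcases le_total (u j) N with h2 | h2
      · rw [min_eq_left h2]; omega
      · rw [min_eq_right h2]; omega)
  have hequiv : ∀ P : ℕ → Prop, (∀ j : Fin k, ∀ i < v j - u j, P (min (u j) N + i)) ↔ ∀ i ∈ T, P i := by
    intro P
    constructor
    · intro h2 i hi
      rw [hT, mem_TU] at hi
      obtain ⟨j, hj⟩ := hi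
      have := h2 j (i - u j) (by omega)
      have h3 := hv j
      rw [min_eq_left (by omega)] at this
      rwa [Nat.add_sub_cancel' hj.1] at this
    · intro h2 j i hi
      have h3 := hv j
      rw [min_eq_left (by omega)]
      apply h2
      rw [hT, mem_TU]
      exact ⟨j, by omega, by omega⟩
  have e1 : ∀ ω, (if ∀ j : Fin k, ∀ i < v j - u j, dg b (y + a ω * x) (min (u j) N + i) = ((d (u j + i) : ℕ) : ℤ) then (1 : ℝ) else 0) =
      if ∀ i ∈ T, dg b (y + a ω * x) i = d i then 1 else 0 := by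
    intro ω
    refine if_congr ?_ rfl rfl
    rw [← hequiv (fun i => dg b (y + a ω * x) i = d i)]
    refine forall_congr' fun j => forall_congr' fun i => forall_congr' fun hi => ?_
    have h3 := hv j
    rw [min_eq_left (by omega)]
  have e2 : ∀ x : Fin (N + L) → Fin b, (if ∀ j : Fin k, ∀ i (hi : i < v j - u j), (x ⟨min (u j) N + i, by
      have := hv j
      rcases le_total (u j) N with h2 | h2
      · rw [min_eq_left h2]; omega
      · rw [min_eq_right h2]; omega⟩ : ℕ) = d (u j + i) then (1 : ℝ) else 0) =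
      if ∀ i : Fin (N + L), (i : ℕ) ∈ T → (x i : ℕ) = d i then 1 else 0 := by
    intro x
    refine if_congr ?_ rfl rfl
    constructor
    · intro h2 i hi
      rw [hT, mem_TU] at hi
      obtain ⟨j, hj⟩ := hi
      have h3 := hv j
      have h4 := h2 j (i - u j) (by omega)
      have h5 : (⟨min (u j) N + ((i : ℕ) - u j), by
        have := hv j
        rcases le_total (u j) N with h2 | h2
        · rw [min_eq_left h2]; omega
        · rw [min_eq_right h2]; omega⟩ : Fin (N + L)) = i := by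
        apply Fin.ext
        simp only
        rw [min_eq_left (by omega)]
        omega
      rw [h5, Nat.add_sub_cancel' hj.1] at h4
      exact h4
    · intro h2 j i hi
      have h3 := hv j
      have h4 := h2 ⟨min (u j) N + i, by
        have := hv j
        rcases le_total (u j) N with h2 | h2
        · rw [min_eq_left h2]; omega
        · rw [min_eq_right h2]; omega⟩ (by
        rw [hT, mem_TU]
        refine ⟨j, ?_⟩
        simp only
        rw [min_eq_left (by omega)]
        omega)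
      rw [h4]
      simp only
      rw [min_eq_left (by omega)]
  simp only [e1] at h1
  rw [show (fun x : Fin (N + L) → Fin b => (if ∀ j : Fin k, ∀ i (hi : i < v j - u j), (x ⟨min (u j) N + i, by
      have := hv j
      rcases le_total (u j) N with h2 | h2
      · rw [min_eq_left h2]; omega
      · rw [min_eq_right h2]; omega⟩ : ℕ) = d (u j + i) then (1 : ℝ) else 0)) = _ from funext e2,
    un_places (by omega) T (hTN.trans (range_subset_range.2 (by omega))) d hd] at h1
  refine h1.trans ?_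
  rw [le_div_iff₀ (by positivity)]
  have h6 : (b : ℝ) ^ T.card ≤ Real.exp (Real.log b * (τ / (1 + Real.log b) * N)) := by
    rw [← Real.exp_log (show (0 : ℝ) < b by linarith), ← Real.exp_nat_mul, Real.exp_log (show (0 : ℝ) < b by linarith)]
    apply Real.exp_le_exp.2
    rw [mul_comm]
    exact mul_le_mul_of_nonneg_left hcard hlog.le
  refine (mul_le_mul_of_nonneg_left h6 (Real.exp_pos _).le).trans (le_of_eq ?_)
  rw [← Real.exp_add]
  congr 1
  field_simp
  ring

/-- the digits as letters -/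
noncomputable def dgF (b : ℕ) (hb : 0 < b) (z : ℝ) (i : ℕ) : Fin b :=
  ⟨(dg b z i).toNat, by
    have h1 : 0 ≤ dg b z i := Int.emod_nonneg _ (by exact_mod_cast hb.ne')
    have h2 : dg b z i < b := Int.emod_lt_of_pos _ (by exact_mod_cast hb)
    omega⟩

theorem dgF_eq (b : ℕ) (hb : 0 < b) (z : ℝ) (i : ℕ) (c : Fin b) : dgF b hb z i = c ↔ dg b z i = (c : ℕ) := by
  have h1 : 0 ≤ dg b z i := Int.emod_nonneg _ (by exact_mod_cast hb.ne')
  rw [Fin.ext_iff]
  unfold dgF
  simp only
  omega

/-- **Near independence** of the digits of random multiples. -/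
theorem near_app (b : ℕ) (hb : 2 ≤ b) (x : ℝ) (hx : IsAlgebraic ℚ x) (hirr : Irrational x) (K : ℕ) (ε : ℝ) (hε : 0 < ε) :
    ∃ κ : ℝ, 0 < κ ∧ ∀ c : ℝ, 0 < c → ∃ N0 : ℕ, ∀ N : ℕ, N0 ≤ N →
      ∀ {Ω : Type} [Fintype Ω] (p : Ω → ℝ) (a : Ω → ℤ) (y : ℝ), Prob p →
      Spread p a (Real.exp (κ * N)) (Real.exp (-(ε * N))) (Real.exp (-(c * N))) →
      Near p (fun ω (i : Fin N) => dgF b (by omega) (y + a ω * x) i) K (1 / (N : ℝ) ^ K) := by
  classical
  -- one number of places at a time
  have main : ∀ k : ℕ, ∃ κ : ℝ, 0 < κ ∧ ∀ c : ℝ, 0 < c → ∃ N0 : ℕ, ∀ N : ℕ, N0 ≤ N →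
      ∀ {Ω : Type} [Fintype Ω] (p : Ω → ℝ) (a : Ω → ℤ) (y : ℝ), Prob p →
      Spread p a (Real.exp (κ * N)) (Real.exp (-(ε * N))) (Real.exp (-(c * N))) →
      ∀ (i : Fin k → Fin N) (d : Fin k → Fin b),
      |E p (fun ω => if ∀ j, dgF b (by omega) (y + a ω * x) (i j) = d j then 1 else 0) -
        E (un b N) (fun x => if ∀ j, x (i j) = d j then 1 else 0)| ≤ 1 / (N : ℝ) ^ K := by
    intro k
    obtain ⟨κ, hκ, h⟩ := windows_main b hb x hx hirr k ε hε
    refine ⟨κ, hκ, fun c hc => ?_⟩
    obtain ⟨τ, hτ, N0, h⟩ := h c hc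
    have hev : ∀ᶠ N : ℕ in atTop, Real.exp (-(τ * N)) ≤ 1 / (N : ℝ) ^ K := by
      have h1 : Tendsto (fun u : ℝ => Real.exp u / u ^ K) atTop atTop := Real.tendsto_exp_div_pow_atTop K
      have h2 : Tendsto (fun N : ℕ => τ * (N : ℝ)) atTop atTop := tendsto_natCast_atTop_atTop.const_mul_atTop hτ
      filter_upwards [(h1.comp h2).eventually_ge_atTop ((1 / τ) ^ K), eventually_gt_atTop 0] with N hN hN0
      have hN0' : (0 : ℝ) < N := by exact_mod_cast hN0
      simp only [Function.comp] at hN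
      rw [le_div_iff₀ (by positivity), ← mul_pow] at hN
      have h3 : 1 / τ * (τ * N) = N := by field_simp
      rw [h3] at hN
      rw [Real.exp_neg, ← one_div]
      exact one_div_le_one_div_of_le (by positivity) hN
    obtain ⟨N1, hN1⟩ := eventually_atTop.1 hev
    refine ⟨max N0 N1, fun N hN Ω _ p a y hp hS i d => ?_⟩
    obtain ⟨L, hL⟩ := exists_big b hb (k * ⌊Real.exp (κ * N)⌋₊ * b ^ N) (N + 1)
    rw [show N + 1 + L = N + (1 + L) by ring] at hL
    have h1 := h N ((le_max_left _ _).trans hN) p a y hp hS (fun j => (i j : ℕ)) (fun _ => 1) (fun j => (i j).2.le)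
      (fun j _ => (d j : ℕ)) (fun j _ => (d j).2) hL (fun j => by
        have := (i j).2
        omega)
    refine le_trans (le_of_eq ?_) (h1.trans (hN1 N ((le_max_right _ _).trans hN)))
    rw [← un_marginal (L := 1 + L) (by omega) i d (fun j => by have := (i j).2; omega)]
    congr 2
    · congr 1
      funext ω
      refine if_congr ?_ rfl rfl
      refine forall_congr' fun j => ?_
      rw [dgF_eq]
      constructor
      · intro h2 m hm
        have : m = 0 := by omega
        rw [this, add_zero]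
        exact h2
      · intro h2
        have := h2 0 (by omega)
        rwa [add_zero] at this
    · congr 1
      funext z
      refine if_congr ?_ rfl rfl
      refine forall_congr' fun j => ?_
      constructor
      · intro h2 m hm
        have : m = 0 := by omega
        subst this
        simp only [add_zero]
        rw [h2]
      · intro h2
        have := h2 0 (by omega)
        simp only [add_zero] at this
        exact Fin.ext this
  choose κ hκ hmain using main
  -- a common κ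
  obtain ⟨κ0, hκ0, hκ0'⟩ : ∃ κ0 : ℝ, 0 < κ0 ∧ ∀ k ≤ K, κ0 ≤ κ k := by
    obtain ⟨k0, -, hk0⟩ := exists_min_image (range (K + 1)) κ ⟨0, by simp⟩
    exact ⟨κ k0, hκ k0, fun k hk => hk0 k (by rw [mem_range]; omega)⟩
  refine ⟨κ0, hκ0, fun c hc => ?_⟩
  choose N0 hN0 using fun k => hmain k c hc
  refine ⟨∑ k ∈ range (K + 1), N0 k, fun N hN Ω _ p a y hp hS k hk i d => ?_⟩
  have h1 : N0 k ≤ N := (single_le_sum (f := N0) (fun k _ => Nat.zero_le _) (by rw [mem_range]; omega : k ∈ range (K + 1))).trans hN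
  refine hN0 k N h1 p a y hp ?_ i d
  intro θ hθ
  refine hS θ fun q hq1 hq2 P => hθ q hq1 (hq2.trans ?_) P
  apply Real.exp_le_exp.2
  exact mul_le_mul_of_nonneg_right (hκ0' k hk) (Nat.cast_nonneg N)

end Pool.Agent.V5helper15.RM
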