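import Pool.Agent.V5helper15.RM.Psi
import Pool.Agent.V5helper15.RM.App

/-!
# Words and their parts
-/

set_option autoImplicit false

namespace Pool.Agent.V5helper15.RM

open Finset

/-- the letters of a word as natural numbers, extended by zero -/
def ex {b n : ℕ} (u : Fin n → Fin b) (i : ℕ) : ℕ := if h : i < n then (u ⟨i, h⟩ : ℕ) else 0

theorem ex_of_lt {b n : ℕ} (u : Fin n → Fin b) {i : ℕ} (h : i < n) : ex u i = u ⟨i, h⟩ := dif_pos h

theorem ex_coe {b n : ℕ} (u : Fin n → Fin b) (i : Fin n) : ex u i = u i := ex_of_lt u i.2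

theorem ex_lt {b n : ℕ} (hb : 0 < b) (u : Fin n → Fin b) (i : ℕ) : ex u i < b := by
  unfold ex
  split_ifs with h
  · exact (u ⟨i, h⟩).2
  · exact hb

/-- the part of length `n` which begins at the place `j` -/
def wn (n : ℕ) (w : ℕ → ℕ) (j : ℕ) : Fin n → ℕ := fun m => w (j + m)

theorem E_un {b n : ℕ} (H : (Fin n → Fin b) → ℝ) : E (un b n) H = (∑ v, H v) / (b : ℝ) ^ n := by
  unfold E un
  rw [sum_div]
  exact sum_congr rfl fun v _ => by ring

theorem window_sum {b L n j : ℕ} (hj : j + n ≤ L) (H : (Fin n → ℕ) → ℝ) (u : Fin L → Fin b) :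
    H (wn n (ex u) j) = ∑ v : Fin n → Fin b, H (fun m => (v m : ℕ)) *
      (if ∀ i : Fin L, (i : ℕ) ∈ Ico j (j + n) → (u i : ℕ) = ex v (i - j) then 1 else 0) := by
  classical
  have hlt : ∀ m : Fin n, j + (m : ℕ) < L := fun m => by have := m.2; omega
  rw [Finset.sum_eq_single (fun m : Fin n => u ⟨j + m, hlt m⟩)]
  · rw [if_pos, mul_one]
    · congr 1
      funext m
      exact ex_of_lt u (hlt m)
    · intro i hi
      rw [mem_Ico] at hi
      have h1 : (i : ℕ) - j < n := by omega
      rw [ex_of_lt _ h1]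
      congr 2
      apply Fin.ext
      simp only
      omega
  · intro v _ hv
    rw [if_neg, mul_zero]
    intro h
    apply hv
    funext m
    have h1 := h ⟨j + m, hlt m⟩ (by rw [mem_Ico]; have := m.2; simp only; omega)
    simp only [Nat.add_sub_cancel_left] at h1
    rw [ex_coe] at h1
    exact Fin.ext h1.symm
  · intro h
    exact absurd (mem_univ _) h

theorem E_window {b L n j : ℕ} (hb : 0 < b) (hj : j + n ≤ L) (H : (Fin n → ℕ) → ℝ) :
    E (un b L) (fun u => H (wn n (ex u) j)) = E (un b n) (fun v => H (fun m => (v m : ℕ))) := by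
  classical
  simp only [window_sum hj H]
  rw [E_sum, E_un, sum_div]
  refine sum_congr rfl fun v _ => ?_
  rw [E_mul, un_places hb (Ico j (j + n)) (fun i hi => by rw [mem_Ico] at hi; rw [mem_range]; omega)
    (fun i => ex v (i - j)) (fun i => ex_lt hb _ _), Nat.card_Ico, Nat.add_sub_cancel_left]
  ring

theorem E_window2 {b L n n' j j' : ℕ} (hb : 0 < b) (hj : j + n ≤ j') (hj' : j' + n' ≤ L) (H : (Fin n → ℕ) → ℝ)
    (H' : (Fin n' → ℕ) → ℝ) :
    E (un b L) (fun u => H (wn n (ex u) j) * H' (wn n' (ex u) j')) =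
      E (un b n) (fun v => H (fun m => (v m : ℕ))) * E (un b n') (fun v => H' (fun m => (v m : ℕ))) := by
  classical
  have h1 : ∀ u : Fin L → Fin b, H (wn n (ex u) j) * H' (wn n' (ex u) j') =
      ∑ v : Fin n → Fin b, ∑ v' : Fin n' → Fin b, (H (fun m => (v m : ℕ)) * H' (fun m => (v' m : ℕ))) *
        (if ∀ i : Fin L, (i : ℕ) ∈ Ico j (j + n) ∪ Ico j' (j' + n') →
          (u i : ℕ) = if (i : ℕ) < j' then ex v (i - j) else ex v' (i - j') then 1 else 0) := by
    intro u
    rw [window_sum (show j + n ≤ L by omega) H u, window_sum hj' H' u, sum_mul_sum]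
    refine sum_congr rfl fun v _ => sum_congr rfl fun v' _ => ?_
    rw [mul_mul_mul_comm]
    congr 1
    by_cases h2 : ∀ i : Fin L, (i : ℕ) ∈ Ico j (j + n) → (u i : ℕ) = ex v (i - j)
    · by_cases h3 : ∀ i : Fin L, (i : ℕ) ∈ Ico j' (j' + n') → (u i : ℕ) = ex v' (i - j')
      · rw [if_pos h2, if_pos h3, if_pos, mul_one]
        intro i hi
        rw [mem_union] at hi
        rcases hi with hi | hi
        · have h4 := hi
          rw [mem_Ico] at h4
          rw [if_pos (by omega)]
          exact h2 i hi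
        · have h4 := hi
          rw [mem_Ico] at h4
          rw [if_neg (by omega)]
          exact h3 i hi
      · rw [if_neg h3, mul_zero, if_neg]
        intro h4
        apply h3
        intro i hi
        have h5 := h4 i (mem_union_right _ hi)
        rw [mem_Ico] at hi
        rw [if_neg (by omega)] at h5
        exact h5
    · rw [if_neg h2, zero_mul, if_neg]
      intro h4
      apply h2
      intro i hi
      have h5 := h4 i (mem_union_left _ hi)
      rw [mem_Ico] at hi
      rw [if_pos (by omega)] at h5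
      exact h5
  simp only [h1]
  rw [E_sum, E_un, E_un, div_mul_div_comm, sum_mul_sum, sum_div]
  refine sum_congr rfl fun v _ => ?_
  rw [E_sum, sum_div]
  refine sum_congr rfl fun v' _ => ?_
  rw [E_mul, un_places hb (Ico j (j + n) ∪ Ico j' (j' + n'))
    (fun i hi => by rw [mem_union, mem_Ico, mem_Ico] at hi; rw [mem_range]; omega)
    (fun i => if i < j' then ex v (i - j) else ex v' (i - j')) (fun i => by split_ifs <;> exact ex_lt hb _ _),
    card_union_of_disjoint, Nat.card_Ico, Nat.card_Ico, Nat.add_sub_cancel_left, Nat.add_sub_cancel_left, pow_add]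
  · ring
  · rw [disjoint_left]
    intro i hi hi'
    rw [mem_Ico] at hi hi'
    omega

/-- the letter number `i` of the word of length `L` with the number `c` -/
def wd (b L c i : ℕ) : ℕ := c / b ^ (L - 1 - i) % b

theorem wd_equiv (b L : ℕ) : ∃ e : Fin (b ^ L) ≃ (Fin L → Fin b), ∀ c (i : ℕ), i < L → ex (e c) i = wd b L c i := by
  refine ⟨finFunctionFinEquiv.symm.trans (Equiv.arrowCongr Fin.revPerm (Equiv.refl _)), fun c i hi => ?_⟩
  rw [ex_of_lt _ hi]
  unfold wd
  have h1 : L - 1 - i = L - (i + 1) := by omega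
  simp [Equiv.arrowCongr, Fin.revPerm, Function.comp, finFunctionFinEquiv, Fin.val_rev, h1]

theorem sum_wd (b L : ℕ) (H : (ℕ → ℕ) → ℝ) (hH : ∀ w w' : ℕ → ℕ, (∀ i < L, w i = w' i) → H w = H w') :
    ∑ c : Fin (b ^ L), H (wd b L c) = ∑ u : Fin L → Fin b, H (ex u) := by
  obtain ⟨e, he⟩ := wd_equiv b L
  rw [← Equiv.sum_comp e]
  exact sum_congr rfl fun c _ => hH _ _ fun i hi => (he c i hi).symm

end Pool.Agent.V5helper15.RM
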