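import Pool.Agent.V5helper15.RM.Poly
import Pool.Agent.V5helper26.PM.Minor

/-!
# Values of polynomials at the primes
-/

set_option autoImplicit false

namespace Pool.Agent.V5helper15.RM

open Finset Filter Topology Polynomial
open Pool.Agent.H469R2.NK (e norm_e e_add e_zero conj_e)
open Pool.Agent.H807R2.Dav (ee)
open Pool.Agent.V5helper26.PM (SL minorV)
open Pool.Agent.R486.PD (Near)

theorem dee_eq_e (t : ℝ) : ee t = e t := by
  unfold Pool.Agent.H807R2.Dav.ee Pool.Agent.H469R2.NK.e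
  congr 1
  push_cast
  ring

theorem norm_ee (t : ℝ) : ‖ee t‖ = 1 := by rw [dee_eq_e, norm_e]

/-- the sum over the primes `p ≤ t` with the weights `log p` -/
noncomputable def TP (f : ℝ[X]) (t : ℕ) : ℂ := ∑ n ∈ Icc 1 t, (if n.Prime then (Real.log n : ℂ) * ee (f.eval (n : ℝ)) else 0)

theorem TP_triv (f : ℝ[X]) (t : ℕ) : ‖TP f t‖ ≤ 6 * t := by
  unfold TP
  have h1 : ‖∑ n ∈ Icc 1 t, (if n.Prime then (Real.log n : ℂ) * ee (f.eval (n : ℝ)) else 0)‖ ≤ Chebyshev.psi t := by
    refine (norm_sum_le _ _).trans ?_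
    unfold Chebyshev.psi
    rw [Nat.floor_natCast]
    have h2 : Ioc 0 t = Icc 1 t := by ext n; rw [mem_Ioc, mem_Icc]; omega
    rw [h2]
    refine sum_le_sum fun n _ => ?_
    split_ifs with h
    · rw [norm_mul, norm_ee, mul_one, Complex.norm_real, Real.norm_eq_abs, abs_of_nonneg (Real.log_natCast_nonneg n),
        ArithmeticFunction.vonMangoldt_apply_prime h]
    · rw [norm_zero]
      exact ArithmeticFunction.vonMangoldt_nonneg
  refine h1.trans ((Chebyshev.psi_le_const_mul_self (Nat.cast_nonneg t)).trans ?_)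
  have h2 : Real.log 4 ≤ 2 := by
    have h3 : Real.log 4 = 2 * Real.log 2 := by
      rw [show (4 : ℝ) = 2 ^ 2 by norm_num, Real.log_pow]; push_cast; ring
    have := Real.log_two_lt_d9
    linarith
  have h3 : (0 : ℝ) ≤ t := Nat.cast_nonneg t
  nlinarith

theorem TP_near (f : ℝ[X]) (t : ℕ) (ht : 1 ≤ t) : ‖SL f t - TP f t‖ ≤ 2 * √(t : ℝ) * Real.log t := by
  have h1 : ‖SL f t - TP f t‖ ≤ Chebyshev.psi t - Chebyshev.theta t := by
    unfold SL TP
    rw [← sum_sub_distrib]
    refine (norm_sum_le _ _).trans (le_of_eq ?_)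
    have h2 : Ioc 0 t = Icc 1 t := by ext n; rw [mem_Ioc, mem_Icc]; omega
    rw [Chebyshev.psi_sub_theta_eq_sum_not_prime, Nat.floor_natCast, sum_filter, h2]
    refine sum_congr rfl fun n _ => ?_
    by_cases hn : n.Prime
    · rw [if_pos hn, if_neg (not_not.2 hn), ArithmeticFunction.vonMangoldt_apply_prime hn, sub_self, norm_zero]
    · rw [if_neg hn, if_pos hn, sub_zero, norm_mul, norm_ee, mul_one, Complex.norm_real, Real.norm_eq_abs,
        abs_of_nonneg ArithmeticFunction.vonMangoldt_nonneg]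
  exact h1.trans (Chebyshev.psi_sub_theta_le (by exact_mod_cast ht))

/-- partial summation -/
theorem abel (a : ℕ → ℂ) (w : ℕ → ℝ) (B : ℝ) (hw0 : ∀ n, 0 ≤ w n) (hw : Antitone w)
    (hB : ∀ n, ‖∑ i ∈ range n, a i‖ ≤ B) (n : ℕ) : ‖∑ i ∈ range n, (w i : ℂ) * a i‖ ≤ B * w 0 := by
  have hB0 : 0 ≤ B := (norm_nonneg _).trans (hB 0)
  rcases Nat.eq_zero_or_pos n with rfl | hn
  · simp only [range_zero, sum_empty, norm_zero]
    exact mul_nonneg hB0 (hw0 0)
  · have h1 := Finset.sum_range_by_parts (fun i => (w i : ℂ)) a n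
    simp only [smul_eq_mul] at h1
    rw [h1]
    refine (norm_sub_le _ _).trans ?_
    have h2 : ‖(w (n - 1) : ℂ) * ∑ i ∈ range n, a i‖ ≤ w (n - 1) * B := by
      rw [norm_mul, Complex.norm_real, Real.norm_eq_abs, abs_of_nonneg (hw0 _)]
      exact mul_le_mul_of_nonneg_left (hB n) (hw0 _)
    have h3 : ‖∑ i ∈ range (n - 1), ((w (i + 1) : ℂ) - w i) * ∑ j ∈ range (i + 1), a j‖ ≤ (w 0 - w (n - 1)) * B := by
      refine (norm_sum_le _ _).trans ?_
      have h4 : ∀ i ∈ range (n - 1), ‖((w (i + 1) : ℂ) - w i) * ∑ j ∈ range (i + 1), a j‖ ≤ (w i - w (i + 1)) * B := by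
        intro i _
        have h5 := hw (Nat.le_succ i)
        rw [norm_mul, ← Complex.ofReal_sub, Complex.norm_real, Real.norm_eq_abs, abs_sub_comm,
          abs_of_nonneg (sub_nonneg.2 h5)]
        exact mul_le_mul_of_nonneg_left (hB _) (sub_nonneg.2 h5)
      refine (sum_le_sum h4).trans (le_of_eq ?_)
      rw [← sum_mul, sum_range_sub']
    calc _ ≤ w (n - 1) * B + (w 0 - w (n - 1)) * B := add_le_add h2 h3
      _ = B * w 0 := by ring

theorem TP_abel (f : ℝ[X]) (M : ℕ) (B : ℝ) (hB : ∀ t ≤ M, ‖TP f t‖ ≤ B) :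
    ‖∑ p ∈ (Icc 1 M).filter Nat.Prime, ee (f.eval (p : ℝ))‖ ≤ 2 * B := by
  have hB0 : 0 ≤ B := (norm_nonneg _).trans (hB 0 (Nat.zero_le _))
  have hlog2 : 1 / 2 < Real.log 2 := by have := Real.log_two_gt_d9; linarith
  set g : ℕ → ℂ := fun n => if n.Prime then (Real.log n : ℂ) * ee (f.eval (n : ℝ)) else 0 with hg
  have hTP : ∀ t, TP f t = ∑ i ∈ range t, g (i + 1) := by
    intro t
    unfold TP
    rw [range_eq_Ico, sum_Ico_add' g 0 t 1]
    refine sum_congr ?_ fun _ _ => rfl
    ext n; rw [mem_Icc, mem_Ico]; omega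
  set a : ℕ → ℂ := fun i => if i < M then g (i + 1) else 0 with ha
  set w : ℕ → ℝ := fun i => if i = 0 then 1 / Real.log 2 else 1 / Real.log ((i + 1 : ℕ) : ℝ) with hw
  have hlogpos : ∀ i : ℕ, 1 ≤ i → Real.log 2 ≤ Real.log ((i + 1 : ℕ) : ℝ) := by
    intro i hi
    apply Real.log_le_log (by norm_num)
    exact_mod_cast (by omega : 2 ≤ i + 1)
  have hw0 : ∀ n, 0 ≤ w n := by
    intro n
    simp only [hw]
    split_ifs with h
    · positivity
    · have := hlogpos n (by omega)
      have : 0 < Real.log ((n + 1 : ℕ) : ℝ) := by linarith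
      positivity
  have hwa : Antitone w := by
    apply antitone_nat_of_succ_le
    intro n
    simp only [hw]
    rw [if_neg (by omega : n + 1 ≠ 0)]
    split_ifs with h
    · subst h
      norm_num
    · have h1 := hlogpos n (by omega)
      apply one_div_le_one_div_of_le (by linarith)
      apply Real.log_le_log (by positivity)
      exact_mod_cast (by omega : n + 1 ≤ n + 1 + 1)
  have hpart : ∀ n, ‖∑ i ∈ range n, a i‖ ≤ B := by
    intro n
    have h1 : ∑ i ∈ range n, a i = TP f (min n M) := by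
      rw [hTP]
      simp only [ha]
      rw [← sum_filter]
      refine sum_congr ?_ fun _ _ => rfl
      ext i; rw [mem_filter, mem_range, mem_range]; omega
    rw [h1]
    exact hB _ (min_le_right _ _)
  have h1 := abel a w B hw0 hwa hpart M
  have h2 : ∑ i ∈ range M, (w i : ℂ) * a i = ∑ p ∈ (Icc 1 M).filter Nat.Prime, ee (f.eval (p : ℝ)) := by
    rw [sum_filter]
    have h3 : ∑ n ∈ Icc 1 M, (if n.Prime then ee (f.eval (n : ℝ)) else 0) =
        ∑ i ∈ range M, (if (i + 1).Prime then ee (f.eval ((i + 1 : ℕ) : ℝ)) else 0) := by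
      rw [range_eq_Ico, sum_Ico_add' (fun n : ℕ => if n.Prime then ee (f.eval (n : ℝ)) else 0) 0 M 1]
      refine sum_congr ?_ fun _ _ => rfl
      ext n; rw [mem_Icc, mem_Ico]; omega
    rw [h3]
    refine sum_congr rfl fun i hi => ?_
    rw [mem_range] at hi
    simp only [ha, hg, hw, if_pos hi]
    split_ifs with h4 h5 h5
    · subst h4; norm_num at h5
    · simp
    · have h6 := hlogpos i (by omega)
      have h7 : (Real.log ((i + 1 : ℕ) : ℝ) : ℂ) ≠ 0 := by
        exact_mod_cast (by linarith : (0 : ℝ) < Real.log ((i + 1 : ℕ) : ℝ)).ne'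
      rw [← mul_assoc]
      push_cast at h7 ⊢
      rw [one_div, inv_mul_cancel₀ h7, one_mul]
    · simp
  rw [h2] at h1
  refine h1.trans ?_
  have h3 : w 0 ≤ 2 := by
    simp only [hw, if_true]
    rw [div_le_iff₀ (by linarith)]
    linarith
  nlinarith

lemma evlog (c : ℝ) (k : ℕ) : ∀ᶠ X : ℕ in atTop, c * (Real.log X) ^ k ≤ X := by
  have h1 : (fun u : ℝ => c * (Real.log u) ^ k) =o[atTop] (fun u : ℝ => u) :=
    (Real.isLittleO_pow_log_id_atTop (n := k)).const_mul_left c
  have h2 := (h1.comp_tendsto tendsto_natCast_atTop_atTop).bound (c := 1) one_pos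
  filter_upwards [h2] with X hX
  simp only [Function.comp, Real.norm_eq_abs, one_mul] at hX
  rw [abs_of_nonneg (a := (X : ℝ)) (Nat.cast_nonneg _)] at hX
  exact (le_abs_self _).trans hX

lemma pi_lower : ∀ᶠ X : ℕ in atTop, (X : ℝ) / 2 ≤ (Nat.primeCounting X : ℝ) * Real.log X := by
  have h1 := evlog 6 1
  filter_upwards [evlog 12 1, eventually_ge_atTop 20] with X hX hX20
  have hX20R : (20 : ℝ) ≤ X := by exact_mod_cast hX20
  rw [pow_one] at hX
  have hlog : 0 < Real.log X := Real.log_pos (by linarith)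
  have h2 := Chebyshev.pi_ge X
  rw [div_le_iff₀ hlog] at h2
  refine le_trans ?_ h2
  have h3 : Real.log ((X : ℝ) + 1) ≤ Real.log X + 1 := by
    have : Real.log ((X : ℝ) + 1) ≤ Real.log (X * 2) := Real.log_le_log (by linarith) (by linarith)
    rw [Real.log_mul (by linarith) (by norm_num)] at this
    have := Real.log_two_lt_d9
    linarith
  have h4 := Real.log_two_gt_d9
  nlinarith

theorem card_primes (M : ℕ) : ((Icc 1 M).filter Nat.Prime).card = Nat.primeCounting M := by
  rw [Nat.primeCounting, Nat.primeCounting', Nat.count_eq_card_filter_range]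
  congr 1
  ext n
  rw [mem_filter, mem_filter, mem_Icc, mem_range]
  constructor
  · rintro ⟨h1, h2⟩; exact ⟨by omega, h2⟩
  · rintro ⟨h1, h2⟩; exact ⟨⟨h2.one_lt.le, by omega⟩, h2⟩

/-- **Values of a polynomial at the primes.** -/
theorem prime_spread (P : ℤ[X]) (hP : 1 ≤ P.natDegree) (ε₀ : ℝ) (hε₀ : 0 < ε₀) (κ : ℝ) (hκ : 0 < κ) :
    ∃ c : ℝ, 0 < c ∧ ∃ N0 : ℕ, ∀ N : ℕ, N0 ≤ N → ∀ M : ℕ, Real.exp (ε₀ * N) ≤ M → Real.log M ≤ Real.exp (c * N) →
      ((Icc 1 M).filter Nat.Prime).Nonempty ∧ Spread (us ((Icc 1 M).filter Nat.Prime)) (fun p => P.eval ((p : ℕ) : ℤ))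
        (Real.exp (κ * N)) (Real.exp (-(ε₀ / 2 * N))) (Real.exp (-(c * N))) := by
  classical
  set d := P.natDegree with hd
  obtain ⟨Cc, W₀, hV⟩ := minorV d hP
  set l : ℤ := P.leadingCoeff with hl
  have hl0 : l ≠ 0 := by
    rw [hl, Ne, leadingCoeff_eq_zero]
    rintro rfl
    simp at hd
    omega
  obtain ⟨X0, hX0⟩ := eventually_atTop.1 pi_lower
  set c : ℝ := min κ ε₀ / (20 * (Cc + 1)) with hc
  have hmin : 0 < min κ ε₀ := lt_min hκ hε₀
  have hc0 : 0 < c := by positivity
  have hC0 : (0 : ℝ) ≤ Cc := Nat.cast_nonneg Cc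
  have hcm : 5 * c * (Cc + 1) = min κ ε₀ / 4 := by rw [hc]; field_simp; norm_num
  have hmκ := min_le_left κ ε₀
  have hmε := min_le_right κ ε₀
  have hcC : 0 ≤ c * Cc := by positivity
  have hev : ∀ᶠ N : ℕ in atTop, (W₀ : ℝ) ≤ Real.exp (5 * c * N) ∧ |(l : ℝ)| ≤ Real.exp (κ / 2 * N) ∧
      2 ≤ Real.exp (ε₀ / 5 * N) ∧ 24 ≤ Real.exp (3 * c * N) ∧ (X0 : ℝ) ≤ Real.exp (ε₀ * N) := by
    have t1 : ∀ r : ℝ, 0 < r → Tendsto (fun N : ℕ => Real.exp (r * N)) atTop atTop := fun r hr =>
      Real.tendsto_exp_atTop.comp (tendsto_natCast_atTop_atTop.const_mul_atTop hr)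
    filter_upwards [(t1 (5 * c) (by positivity)).eventually_ge_atTop (W₀ : ℝ), (t1 (κ / 2) (by positivity)).eventually_ge_atTop |(l : ℝ)|,
      (t1 (ε₀ / 5) (by positivity)).eventually_ge_atTop 2, (t1 (3 * c) (by positivity)).eventually_ge_atTop 24,
      (t1 ε₀ hε₀).eventually_ge_atTop (X0 : ℝ)] with N h1 h2 h3 h4 h5
    exact ⟨h1, h2, h3, h4, h5⟩
  obtain ⟨N0, hN0⟩ := eventually_atTop.1 hev
  refine ⟨c, hc0, N0, fun N hN M hM hlogM => ?_⟩
  obtain ⟨hN1, hN2, hN3, hN4, hN5⟩ := hN0 N hN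
  have hNN : (0 : ℝ) ≤ N := Nat.cast_nonneg N
  have hM0 : (0 : ℝ) < M := lt_of_lt_of_le (Real.exp_pos _) hM
  have hM1 : 1 ≤ M := by exact_mod_cast hM0
  have hpi := hX0 M (by exact_mod_cast hN5.trans hM)
  have hcard : ((((Icc 1 M).filter Nat.Prime).card : ℕ) : ℝ) = Nat.primeCounting M := by rw [card_primes]
  have hpi2 : (M : ℝ) / 2 ≤ (Nat.primeCounting M : ℝ) * Real.exp (c * N) :=
    hpi.trans (mul_le_mul_of_nonneg_left hlogM (Nat.cast_nonneg _))
  have hpi0 : (0 : ℝ) < Nat.primeCounting M := by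
    by_contra h
    have h1 : (Nat.primeCounting M : ℝ) = 0 := le_antisymm (not_lt.1 h) (Nat.cast_nonneg _)
    rw [h1, zero_mul] at hpi2
    linarith
  have hne : ((Icc 1 M).filter Nat.Prime).Nonempty := by
    rw [← card_pos, card_primes]
    exact_mod_cast hpi0
  refine ⟨hne, ?_⟩
  intro θ hθ
  set f : ℝ[X] := C θ * P.map (Int.castRingHom ℝ) with hf
  have hfe : ∀ n : ℕ, f.eval (n : ℝ) = θ * ((P.eval (n : ℤ) : ℤ) : ℝ) := by
    intro n
    rw [hf, eval_mul, eval_C]
    congr 1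
    simp
  have hfd : f.natDegree ≤ d := by
    rw [hf]
    refine natDegree_C_mul_le _ _ |>.trans ?_
    exact natDegree_map_le
  have hfc : f.coeff d = θ * l := by
    rw [hf, coeff_C_mul, coeff_map]
    rfl
  set L : ℝ := Real.exp (5 * c * N) with hL
  have hL0 : 0 < L := Real.exp_pos _
  have hLC : L ^ Cc = Real.exp (Cc * (5 * c * N)) := by rw [hL, ← Real.exp_nat_mul]
  have hB : ∀ t ≤ M, ‖TP f t‖ ≤ 6 * (M * Real.exp (-(5 * c * N))) := by
    intro t htM
    rcases le_or_gt (t : ℝ) (M * Real.exp (-(5 * c * N))) with h | h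
    · exact (TP_triv f t).trans (by linarith)
    · have ht0 : (0 : ℝ) < t := lt_trans (by positivity) h
      have ht1 : 1 ≤ t := by exact_mod_cast ht0
      have htMR : (t : ℝ) ≤ M := by exact_mod_cast htM
      have h1 : Real.log t ≤ Real.exp (c * N) := (Real.log_le_log ht0 htMR).trans hlogM
      have h2 : Real.log t ≤ L := h1.trans (Real.exp_le_exp.2 (by nlinarith))
      have h3 : Real.exp ((ε₀ - 5 * c) * N) ≤ t := by
        refine le_trans ?_ h.le
        calc Real.exp ((ε₀ - 5 * c) * N) = Real.exp (ε₀ * N) * Real.exp (-(5 * c * N)) := by rw [← Real.exp_add]; congr 1; ring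
          _ ≤ _ := by gcongr
      have h4 : L ^ Cc ≤ t := by
        rw [hLC]
        refine le_trans (Real.exp_le_exp.2 ?_) h3
        nlinarith
      have h5 : ‖SL f t‖ < t / L := by
        by_contra hcon
        push Not at hcon
        obtain ⟨q, hq1, hq2, a, ha⟩ := hV f hfd t L hN1 h2 h4 hcon
        rw [hfc] at ha
        have hq3 : ((q * l.natAbs : ℕ) : ℝ) ≤ Real.exp (κ * N) := by
          have e1 : ((l.natAbs : ℕ) : ℝ) = |(l : ℝ)| := by rw [Nat.cast_natAbs, Int.cast_abs]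
          push_cast
          rw [e1]
          calc (q : ℝ) * |(l : ℝ)| ≤ L ^ Cc * Real.exp (κ / 2 * N) := by gcongr
            _ ≤ Real.exp (κ * N) := by
              rw [hLC, ← Real.exp_add]
              apply Real.exp_le_exp.2
              nlinarith
        have hq4 : 1 ≤ q * l.natAbs := Nat.mul_pos (by omega) (Int.natAbs_pos.2 hl0)
        have h5 := hθ _ hq4 hq3 (a * l.sign)
        have h6 : ((q * l.natAbs : ℕ) : ℝ) * θ - ((a * l.sign : ℤ) : ℝ) = l.sign * (q * (θ * l) - a) := by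
          have e2 : ((l.natAbs : ℕ) : ℝ) = (l.sign : ℝ) * l := by
            have h := congrArg (fun z : ℤ => (z : ℝ)) (Int.sign_mul_self_eq_natAbs l)
            simp only [Int.cast_mul, Int.cast_natCast] at h
            exact h.symm
          push_cast at e2 ⊢
          rw [e2]
          ring
        rw [h6, abs_mul] at h5
        have h7 : |(l.sign : ℝ)| = 1 := by
          rcases lt_trichotomy l 0 with h | h | h
          · rw [Int.sign_eq_neg_one_of_neg h]; norm_num
          · exact absurd h hl0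
          · rw [Int.sign_eq_one_of_pos h]; norm_num
        rw [h7, one_mul] at h5
        have h8 : L ^ Cc / (t : ℝ) ^ d ≤ Real.exp (-(ε₀ / 2 * N)) := by
          have h9 : Real.exp ((ε₀ - 5 * c) * N) ≤ (t : ℝ) ^ d := by
            refine h3.trans ?_
            have : (1 : ℝ) ≤ t := by exact_mod_cast ht1
            calc (t : ℝ) = (t : ℝ) ^ 1 := (pow_one _).symm
              _ ≤ (t : ℝ) ^ d := pow_le_pow_right₀ this hP
          rw [div_le_iff₀ (by positivity)]
          calc L ^ Cc = Real.exp (Cc * (5 * c * N)) := hLC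
            _ ≤ Real.exp (-(ε₀ / 2 * N)) * Real.exp ((ε₀ - 5 * c) * N) := by
              rw [← Real.exp_add]
              apply Real.exp_le_exp.2
              nlinarith
            _ ≤ _ := by gcongr
        exact absurd (ha.trans h8) (not_le.2 h5)
      have h6 := TP_near f t ht1
      have h7 : ‖TP f t‖ ≤ ‖SL f t‖ + 2 * √(t : ℝ) * Real.log t := by
        have : TP f t = SL f t - (SL f t - TP f t) := by ring
        calc ‖TP f t‖ = ‖SL f t - (SL f t - TP f t)‖ := by rw [← this]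
          _ ≤ ‖SL f t‖ + ‖SL f t - TP f t‖ := norm_sub_le _ _
          _ ≤ _ := by gcongr
      have h8 : (t : ℝ) / L ≤ M * Real.exp (-(5 * c * N)) := by
        rw [Real.exp_neg, ← hL, ← div_eq_mul_inv]
        gcongr
      have h9 : 2 * √(t : ℝ) * Real.log t ≤ M * Real.exp (-(5 * c * N)) := by
        have g1 : √(t : ℝ) ≤ √(M : ℝ) := Real.sqrt_le_sqrt htMR
        have g2 : Real.exp (ε₀ / 2 * N) ≤ √(M : ℝ) := by
          rw [Real.le_sqrt' (Real.exp_pos _)]
          refine le_trans (le_of_eq ?_) hM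
          rw [sq, ← Real.exp_add]
          congr 1
          ring
        have g3 : 2 * Real.exp (c * N) ≤ √(M : ℝ) * Real.exp (-(5 * c * N)) := by
          calc 2 * Real.exp (c * N) ≤ Real.exp (ε₀ / 5 * N) * Real.exp (c * N) := by gcongr
            _ ≤ Real.exp (ε₀ / 2 * N) * Real.exp (-(5 * c * N)) := by
              rw [← Real.exp_add, ← Real.exp_add]
              apply Real.exp_le_exp.2
              nlinarith
            _ ≤ _ := by gcongr
        have g4 : √(M : ℝ) * √(M : ℝ) = M := Real.mul_self_sqrt hM0.le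
        calc 2 * √(t : ℝ) * Real.log t ≤ 2 * √(M : ℝ) * Real.exp (c * N) := by
              gcongr
          _ = √(M : ℝ) * (2 * Real.exp (c * N)) := by ring
          _ ≤ √(M : ℝ) * (√(M : ℝ) * Real.exp (-(5 * c * N))) := by gcongr
          _ = M * Real.exp (-(5 * c * N)) := by rw [← mul_assoc, g4]
      have h10 : 0 ≤ M * Real.exp (-(5 * c * N)) := by positivity
      linarith
  have h1 := TP_abel f M _ hB
  have h2 : Ec (us ((Icc 1 M).filter Nat.Prime)) (fun ω => e (((P.eval ((ω : ℕ) : ℤ) : ℤ) : ℝ) * θ)) =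
      1 / (Nat.primeCounting M : ℂ) * ∑ p ∈ (Icc 1 M).filter Nat.Prime, ee (f.eval (p : ℝ)) := by
    rw [Ec_us ((Icc 1 M).filter Nat.Prime) (fun n => e (((P.eval (n : ℤ) : ℤ) : ℝ) * θ)), card_primes]
    congr 1
    refine sum_congr rfl fun n _ => ?_
    rw [dee_eq_e, hfe, mul_comm]
  rw [h2, norm_mul, norm_div, norm_one, Complex.norm_natCast, one_div_mul_eq_div, div_le_iff₀ hpi0]
  refine h1.trans ?_
  calc 2 * (6 * (M * Real.exp (-(5 * c * N)))) = (M / 2) * (24 * Real.exp (-(5 * c * N))) := by ring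
    _ ≤ ((Nat.primeCounting M : ℝ) * Real.exp (c * N)) * (Real.exp (3 * c * N) * Real.exp (-(5 * c * N))) := by gcongr
    _ = Real.exp (-(c * N)) * Nat.primeCounting M := by
      have key : Real.exp (c * N) * (Real.exp (3 * c * N) * Real.exp (-(5 * c * N))) = Real.exp (-(c * N)) := by
        rw [← Real.exp_add, ← Real.exp_add]
        congr 1
        ring
      rw [mul_assoc, key, mul_comm]

end Pool.Agent.V5helper15.RM
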