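import Pool.Agent.V5helper15.RM.Dec
import Pool.Agent.V5helper15.RM.Primes

/-!
# The invariance principle for functions of consecutive digits
-/

set_option autoImplicit false

namespace Pool.Agent.V5helper15.RM

open Finset Filter Topology MeasureTheory ProbabilityTheory
open Pool.Agent.V5helper57.Win (Fun)
open scoped NNReal

theorem Spread.mono {Ω : Type*} [Fintype Ω] {p : Ω → ℝ} {a : Ω → ℤ} {Q Q' η η' δ δ' : ℝ} (h : Spread p a Q η δ)
    (hQ : Q ≤ Q') (hη : η ≤ η') (hδ : δ ≤ δ') : Spread p a Q' η' δ' := fun θ hθ =>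
  (h θ fun q h1 h2 P => hη.trans_lt (hθ q h1 (h2.trans hQ) P)).trans hδ

/-- families of multipliers with small exponential sums -/
def Good (ε : ℝ) (𝓜 : ℕ → Finset ℕ → (ℕ → ℤ) → Prop) : Prop :=
  ∀ κ : ℝ, 0 < κ → ∃ c : ℝ, 0 < c ∧ ∃ N0 : ℕ, ∀ N : ℕ, N0 ≤ N → ∀ A g, 𝓜 N A g →
    A.Nonempty ∧ Spread (us A) (fun m : A => g m) (Real.exp (κ * N)) (Real.exp (-(ε * N))) (Real.exp (-(c * N)))

/-- the digits of the random multiple as a random string -/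
noncomputable def smp (B N : ℕ) (hB : 0 < B) (A : Finset ℕ) (g : ℕ → ℤ) (y x : ℝ) : Smp B where
  N := N
  Ω := A
  ft := inferInstance
  p := us A
  D := fun m i => dgF B hB (y + g m * x) i

variable {b : ℕ} {x ε : ℝ} {𝓜 : ℕ → Finset ℕ → (ℕ → ℤ) → Prop}

theorem smp_ok (hb : 2 ≤ b) (hx : IsAlgebraic ℚ x) (hirr : Irrational x) (hε : 0 < ε) (hG : Good ε 𝓜) {L : ℕ} (hL : 1 ≤ L)
    (hbL : 0 < b ^ L) (K : ℕ) : ∃ N0 : ℕ, ∀ N : ℕ, N0 ≤ N → ∀ A g, 𝓜 N A g → ∀ y : ℝ, (smp (b ^ L) (N / L) hbL A g y x).Ok K := by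
  have hLR : (0 : ℝ) < L := by exact_mod_cast hL
  have hbL2 : 2 ≤ b ^ L := hb.trans (Nat.le_self_pow (by omega) b)
  obtain ⟨κ, hκ, h⟩ := near_app (b ^ L) hbL2 x hx hirr K (L * ε) (by positivity)
  obtain ⟨c, hc, N2, h2⟩ := hG (κ / (2 * L)) (by positivity)
  obtain ⟨N1, h1⟩ := h (c * L) (by positivity)
  refine ⟨max N2 (L * max N1 (max K 1)), fun N hN A g hA y => ?_⟩
  have a1 : N2 ≤ N := (le_max_left _ _).trans hN
  have a2 : max N1 (max K 1) ≤ N / L := by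
    rw [Nat.le_div_iff_mul_le (by omega), mul_comm]
    exact (le_max_right _ _).trans hN
  have a3 : N1 ≤ N / L := (le_max_left _ _).trans a2
  have a4 : K ≤ N / L := (le_max_left _ _).trans ((le_max_right _ _).trans a2)
  have a5 : 1 ≤ N / L := (le_max_right _ _).trans ((le_max_right _ _).trans a2)
  have hNL : (N : ℝ) ≤ 2 * L * ((N / L : ℕ) : ℝ) := by
    have h3 := Nat.div_add_mod N L
    have h4 := Nat.mod_lt N (show 0 < L by omega)
    have h5 : L ≤ L * (N / L) := Nat.le_mul_of_pos_right L (by omega)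
    have h6 : N ≤ 2 * L * (N / L) := by nlinarith
    exact_mod_cast h6
  have hNL' : (L : ℝ) * ((N / L : ℕ) : ℝ) ≤ N := by
    have h3 := Nat.mul_div_le N L
    exact_mod_cast h3
  obtain ⟨hne, hS⟩ := h2 N a1 A g hA
  refine ⟨us_prob hne, a4, a5, ?_⟩
  refine h1 (N / L) a3 (us A) (fun m : A => g m) y (us_prob hne) (hS.mono ?_ ?_ ?_)
  · apply Real.exp_le_exp.2
    rw [div_mul_eq_mul_div, div_le_iff₀ (by positivity)]
    calc κ * N ≤ κ * (2 * L * ((N / L : ℕ) : ℝ)) := by gcongr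
      _ = _ := by ring
  · apply Real.exp_le_exp.2
    nlinarith
  · apply Real.exp_le_exp.2
    nlinarith

theorem rho_bound {N L : ℕ} (hL : 1 ≤ L) (hN : L ≤ N) :
    √((N / L : ℕ) : ℝ) / √(N : ℝ) ≤ 1 / √(L : ℝ) ∧
      1 / √(L : ℝ) - √((N / L : ℕ) : ℝ) / √(N : ℝ) ≤ √(L : ℝ) / N := by
  have hLR : (0 : ℝ) < L := by exact_mod_cast hL
  have hNR : (0 : ℝ) < N := by
    have : 0 < N := by omega
    exact_mod_cast this
  have hNL : (N : ℝ) ≤ L * ((N / L : ℕ) : ℝ) + L := by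
    have h3 := Nat.div_add_mod N L
    have h4 := Nat.mod_lt N (show 0 < L by omega)
    have h6 : N ≤ L * (N / L) + L := by omega
    exact_mod_cast h6
  have hNL' : (L : ℝ) * ((N / L : ℕ) : ℝ) ≤ N := by
    have h3 := Nat.mul_div_le N L
    exact_mod_cast h3
  have hN'0 : (0 : ℝ) ≤ ((N / L : ℕ) : ℝ) := Nat.cast_nonneg _
  have h1 : √((N / L : ℕ) : ℝ) / √(N : ℝ) ≤ 1 / √(L : ℝ) := by
    rw [div_le_div_iff₀ (Real.sqrt_pos.2 hNR) (Real.sqrt_pos.2 hLR), one_mul, ← Real.sqrt_mul hN'0]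
    exact Real.sqrt_le_sqrt (by linarith)
  refine ⟨h1, ?_⟩
  set ρ := √((N / L : ℕ) : ℝ) / √(N : ℝ) with hρ
  have hρ0 : 0 ≤ ρ := by positivity
  have hρ2 : ρ ^ 2 = ((N / L : ℕ) : ℝ) / N := by
    rw [hρ, div_pow, Real.sq_sqrt hN'0, Real.sq_sqrt hNR.le]
  have hs : √(L : ℝ) ^ 2 = L := Real.sq_sqrt hLR.le
  have hsp : 0 < √(L : ℝ) := Real.sqrt_pos.2 hLR
  set a := 1 / √(L : ℝ) with ha
  have ha0 : 0 < a := by positivity
  have ha2 : a ^ 2 = 1 / L := by rw [ha, div_pow, hs, one_pow]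
  have has : a * √(L : ℝ) = 1 := by rw [ha]; field_simp
  have h2 : a ^ 2 - ρ ^ 2 ≤ 1 / N := by
    rw [ha2, hρ2, sub_le_iff_le_add, ← add_div, div_le_div_iff₀ hLR hNR]
    nlinarith
  have h3 : (a - ρ) * a ≤ 1 / N := by
    have h4 : 0 ≤ (a - ρ) * ρ := mul_nonneg (by linarith) hρ0
    nlinarith
  calc a - ρ = (a - ρ) * a * √(L : ℝ) := by rw [mul_assoc, has, mul_one]
    _ ≤ 1 / N * √(L : ℝ) := by gcongr
    _ = √(L : ℝ) / N := by ring

variable {ℓ : ℕ} {F : (Fin ℓ → ℕ) → ℝ} {Φ : (ℝ → ℝ) → ℝ} {Mb Kf : ℝ}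
variable {Ω : Type*} [MeasurableSpace Ω] {P : Measure Ω} {W : ℝ≥0 → Ω → ℝ}

theorem block_donsker (hb : 2 ≤ b) (hx : IsAlgebraic ℚ x) (hirr : Irrational x) (hε : 0 < ε) (hG : Good ε 𝓜) (hℓ : 1 ≤ ℓ)
    (F : (Fin ℓ → ℕ) → ℝ) (hW : IsBrownianReal W P) (hΦ : Fun Φ Mb Kf) {η : ℝ} (hη : 0 < η) :
    ∃ N0 : ℕ, ∀ N : ℕ, N0 ≤ N → ∀ A g, 𝓜 N A g → ∀ y : ℝ,
      |(∑ m ∈ A, Φ (wk b F N (y + g m * x))) / A.card - ∫ ω, Φ (fun t : ℝ => √(vr b F) * W t.toNNReal ω) ∂P| ≤ η := by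
  have hb0 : 0 < b := by omega
  have hbR : (0 : ℝ) < b := by exact_mod_cast hb0
  obtain ⟨C, hC0, hC⟩ := exists_bound b F
  have hK0 := hΦ.Kf0
  have hM0 := hΦ.Mb0
  obtain ⟨R, hR⟩ : ∃ R : ℝ, R = Kf + 2 * Mb + 1 := ⟨_, rfl⟩
  have hR1 : 0 < R := by rw [hR]; positivity
  obtain ⟨μ, hμ⟩ : ∃ μ : ℝ, μ = η / (8 * R) := ⟨_, rfl⟩
  have hμ0 : 0 < μ := by rw [hμ]; positivity
  have hRμ : R * μ = η / 8 := by rw [hμ]; field_simp
  obtain ⟨s1, hs1, hPW1⟩ := PW_small hW hμ0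
  -- the choice of L
  have hL1 : ∀ᶠ L : ℕ in atTop, |√(va (gl b L F (L + 1 - ℓ)) / L) - √(vr b F)| ≤ s1 := by
    have h1 := (Real.continuous_sqrt.tendsto (vr b F)).comp (va_lim (F := F) hb0)
    rw [Metric.tendsto_atTop] at h1
    obtain ⟨n, hn⟩ := h1 s1 hs1
    filter_upwards [eventually_ge_atTop n] with L hL
    have := hn L hL
    rw [Real.dist_eq] at this
    exact this.le
  have hL2 : ∀ᶠ L : ℕ in atTop, (ℓ : ℝ) * C / s1 ≤ √(L : ℝ) := by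
    have h1 : Tendsto (fun L : ℕ => √(L : ℝ)) atTop atTop := Real.tendsto_sqrt_atTop.comp tendsto_natCast_atTop_atTop
    exact h1.eventually_ge_atTop _
  obtain ⟨L, ⟨⟨hL1, hL2⟩, hL3⟩⟩ := ((hL1.and hL2).and (eventually_ge_atTop (2 * ℓ))).exists
  have hLpos : 1 ≤ L := by omega
  have hLR : (0 : ℝ) < L := by exact_mod_cast hLpos
  have hsL : 0 < √(L : ℝ) := Real.sqrt_pos.2 hLR
  have hbL : 0 < b ^ L := Nat.pow_pos hb0
  set G := gl b L F (L + 1 - ℓ) with hGd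
  set G' := gl b L F (ℓ - 1) with hGd'
  have hcen : Cen G ((((L + 1 - ℓ : ℕ) : ℝ) + 1) * C) := gl_cen hb0 (by omega) hC0 hC
  have hcen' : Cen G' ((((ℓ - 1 : ℕ) : ℝ) + 1) * C) := gl_cen hb0 (by omega) hC0 hC
  have hva : √(va G / L) = 1 / √(L : ℝ) * √(va G) := by
    rw [Real.sqrt_div' _ hLR.le]; ring
  have hva' : |1 / √(L : ℝ) * √(va G')| ≤ s1 := by
    have h1 := hcen'.va_le
    have h2 : (((ℓ - 1 : ℕ) : ℝ) + 1) = ℓ := by rw [Nat.cast_sub hℓ]; push_cast; ring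
    rw [h2] at h1
    have h3 : √(va G') ≤ ℓ * C := by
      rw [← Real.sqrt_sq (by positivity : (0 : ℝ) ≤ ℓ * C)]
      exact Real.sqrt_le_sqrt h1
    rw [abs_of_nonneg (by positivity), one_div, inv_mul_le_iff₀ hsL]
    rw [div_le_iff₀ hs1] at hL2
    linarith
  rw [hva] at hL1
  obtain ⟨K1, hK1⟩ := hcen.donsker_raw hW hΦ (1 / √(L : ℝ)) (ε := η / 8) (by positivity)
  obtain ⟨K2, hK2⟩ := hcen'.donsker_raw hW Psi_fun (1 / √(L : ℝ)) hμ0
  obtain ⟨s3, hs3, hs3'⟩ : ∃ s3 : ℝ, 0 < s3 ∧ |s3 * √(va G)| ≤ s1 := by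
    refine ⟨s1 / (√(va G) + 1), by positivity, ?_⟩
    have h1 : 0 ≤ √(va G) := Real.sqrt_nonneg _
    rw [abs_of_nonneg (by positivity), div_mul_eq_mul_div, div_le_iff₀ (by positivity)]
    nlinarith
  obtain ⟨K3, hK3⟩ := hcen.donsker_raw hW Psi_fun s3 hμ0
  obtain ⟨N1, hN1⟩ := smp_ok hb hx hirr hε hG hLpos hbL (max K1 (max K2 K3))
  have hx' : IsAlgebraic ℚ ((b : ℝ) ^ (L + 1 - ℓ) * x) := by
    have h1 : IsAlgebraic ℚ ((b : ℝ) ^ (L + 1 - ℓ)) := (isAlgebraic_natCast b).pow _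
    exact h1.mul hx
  have hirr' : Irrational ((b : ℝ) ^ (L + 1 - ℓ) * x) := by
    have h1 := hirr.natCast_mul (m := b ^ (L + 1 - ℓ)) (Nat.pow_pos hb0).ne'
    push_cast at h1
    exact h1
  obtain ⟨N2, hN2⟩ := smp_ok hb hx' hirr' hε hG hLpos hbL (max K1 (max K2 K3))
  have hev : ∀ᶠ N : ℕ in atTop, √(L : ℝ) / N ≤ s3 ∧ 2 * L * C / √(N : ℝ) ≤ μ := by
    have h1 : Tendsto (fun N : ℕ => √(L : ℝ) / N) atTop (𝓝 0) :=
      tendsto_const_nhds.div_atTop tendsto_natCast_atTop_atTop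
    have h2 : Tendsto (fun N : ℕ => 2 * L * C / √(N : ℝ)) atTop (𝓝 0) :=
      tendsto_const_nhds.div_atTop (Real.tendsto_sqrt_atTop.comp tendsto_natCast_atTop_atTop)
    filter_upwards [h1.eventually (ge_mem_nhds hs3), h2.eventually (ge_mem_nhds hμ0)] with N h3 h4
    exact ⟨h3, h4⟩
  obtain ⟨N3, hN3⟩ := eventually_atTop.1 hev
  refine ⟨max (max N1 N2) (max N3 L), fun N hN A g hA y => ?_⟩
  have b1 : N1 ≤ N := (le_max_left _ _).trans ((le_max_left _ _).trans hN)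
  have b2 : N2 ≤ N := (le_max_right _ _).trans ((le_max_left _ _).trans hN)
  have b3 : N3 ≤ N := (le_max_left _ _).trans ((le_max_right _ _).trans hN)
  have b4 : L ≤ N := (le_max_right _ _).trans ((le_max_right _ _).trans hN)
  obtain ⟨c1, c2⟩ := hN3 N b3
  have ok1 := hN1 N b1 A g hA y
  have ok2 := hN2 N b2 A g hA ((b : ℝ) ^ (L + 1 - ℓ) * y)
  have hprob : Prob (us A) := ok1.prob
  have d1 := hK1 _ (ok1.anti (le_max_left _ _))
  have d2 := hK2 _ (ok2.anti ((le_max_left _ _).trans (le_max_right _ _)))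
  have d3 := hK3 _ (ok1.anti ((le_max_right _ _).trans (le_max_right _ _)))
  obtain ⟨r1, r2⟩ := rho_bound hLpos b4
  -- the walks of the random multiple
  set Z : A → ℝ := fun m => y + g m * x with hZ
  set X1 : A → ℝ → ℝ := fun m t => pw G (fun I : Fin (N / L) => dgF (b ^ L) hbL (Z m) I) t with hX1
  set X2 : A → ℝ → ℝ := fun m t => pw G' (fun I : Fin (N / L) => dgF (b ^ L) hbL ((b : ℝ) ^ (L + 1 - ℓ) * Z m) I) t with hX2
  have e1 : |E (us A) (fun m => Φ (fun t => 1 / √(L : ℝ) * X1 m t)) -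
      ∫ ω, Φ (fun t : ℝ => 1 / √(L : ℝ) * √(va G) * W t.toNNReal ω) ∂P| ≤ η / 8 := d1
  have e2 : |E (us A) (fun m => Psi (fun t => 1 / √(L : ℝ) * X2 m t)) -
      ∫ ω, Psi (fun t : ℝ => 1 / √(L : ℝ) * √(va G') * W t.toNNReal ω) ∂P| ≤ μ := by
    have h1 : ∀ m : A, (b : ℝ) ^ (L + 1 - ℓ) * y + g m * ((b : ℝ) ^ (L + 1 - ℓ) * x) = (b : ℝ) ^ (L + 1 - ℓ) * Z m := by
      intro m
      simp only [hZ]
      ring
    have h2 := d2
    simp only [smp] at h2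
    simp only [h1] at h2
    exact h2
  have e3 : |E (us A) (fun m => Psi (fun t => s3 * X1 m t)) -
      ∫ ω, Psi (fun t : ℝ => s3 * √(va G) * W t.toNNReal ω) ∂P| ≤ μ := d3
  have p2 : ∫ ω, Psi (fun t : ℝ => 1 / √(L : ℝ) * √(va G') * W t.toNNReal ω) ∂P ≤ μ := hPW1 _ hva'
  have p3 : ∫ ω, Psi (fun t : ℝ => s3 * √(va G) * W t.toNNReal ω) ∂P ≤ μ := hPW1 _ hs3'
  -- comparison
  have key : ∀ m : A, |Φ (wk b F N (Z m)) - Φ (fun t => 1 / √(L : ℝ) * X1 m t)| ≤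
      R * (Psi (fun t => s3 * X1 m t) + Psi (fun t => 1 / √(L : ℝ) * X2 m t) + μ) := by
    intro m
    refine (Fun.le_Psi hΦ _ _).trans ?_
    have hψ : Psi (fun t => wk b F N (Z m) t - 1 / √(L : ℝ) * X1 m t) ≤
        Psi (fun t => s3 * X1 m t) + Psi (fun t => 1 / √(L : ℝ) * X2 m t) + μ := by
      set ρ := √((N / L : ℕ) : ℝ) / √(N : ℝ) with hρ
      have hρ0 : 0 ≤ ρ := by positivity
      have f1 : Psi (fun t => wk b F N (Z m) t - 1 / √(L : ℝ) * X1 m t) ≤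
          Psi (fun t => (ρ - 1 / √(L : ℝ)) * X1 m t + ρ * X2 m t) +
            Psi (fun t => wk b F N (Z m) t - ρ * (X1 m t + X2 m t)) := by
        refine le_trans (le_of_eq ?_) (Psi_add _ _)
        refine Psi_congr fun t _ _ => ?_
        ring
      have f2 := Psi_add (fun t => (ρ - 1 / √(L : ℝ)) * X1 m t) (fun t => ρ * X2 m t)
      have f3 : Psi (fun t => (ρ - 1 / √(L : ℝ)) * X1 m t) ≤ Psi (fun t => s3 * X1 m t) := by
        refine Psi_mono fun t _ _ => ?_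
        rw [abs_mul, abs_mul]
        refine mul_le_mul_of_nonneg_right ?_ (abs_nonneg _)
        rw [abs_of_pos hs3, abs_le]
        constructor <;> linarith
      have f4 : Psi (fun t => ρ * X2 m t) ≤ Psi (fun t => 1 / √(L : ℝ) * X2 m t) := by
        refine Psi_mono fun t _ _ => ?_
        rw [abs_mul, abs_mul]
        refine mul_le_mul_of_nonneg_right ?_ (abs_nonneg _)
        rw [abs_of_nonneg hρ0, abs_of_pos (by positivity)]
        exact r1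
      have f5 : Psi (fun t => wk b F N (Z m) t - ρ * (X1 m t + X2 m t)) ≤ μ := by
        refine (Psi_le' fun t h0 h1 => ?_).trans c2
        exact wk_dec hb0 hℓ hL3 hC0 hC b4 (Z m) h0 h1
      linarith
    have h0 := Psi_nonneg (fun t => wk b F N (Z m) t - 1 / √(L : ℝ) * X1 m t)
    calc (Kf + 2 * Mb) * Psi (fun t => wk b F N (Z m) t - 1 / √(L : ℝ) * X1 m t)
        ≤ R * Psi (fun t => wk b F N (Z m) t - 1 / √(L : ℝ) * X1 m t) := by
          apply mul_le_mul_of_nonneg_right _ h0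
          rw [hR]; linarith
      _ ≤ _ := by gcongr
  have t1 : |E (us A) (fun m => Φ (wk b F N (Z m))) - E (us A) (fun m => Φ (fun t => 1 / √(L : ℝ) * X1 m t))| ≤
      R * (5 * μ) := by
    rw [← E_sub]
    refine (hprob.abs _).trans ((hprob.mono key).trans ?_)
    rw [E_mul, E_add, E_add, hprob.const]
    rw [abs_le] at e2 e3
    gcongr
    linarith [e2.2, e3.2]
  have t3 := PW_diff hW hΦ (1 / √(L : ℝ) * √(va G)) (√(vr b F))
  have t4 : (Kf + 2 * Mb) * PW P W (1 / √(L : ℝ) * √(va G) - √(vr b F)) ≤ R * μ := by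
    have h1 := hPW1 _ hL1
    have h2 : 0 ≤ PW P W (1 / √(L : ℝ) * √(va G) - √(vr b F)) := PW_nonneg _
    calc _ ≤ R * PW P W (1 / √(L : ℝ) * √(va G) - √(vr b F)) := by
          apply mul_le_mul_of_nonneg_right _ h2
          rw [hR]; linarith
      _ ≤ _ := by gcongr
  have hfin : (∑ m ∈ A, Φ (wk b F N (y + g m * x))) / A.card = E (us A) (fun m => Φ (wk b F N (Z m))) :=
    (E_us A (fun m => Φ (wk b F N (y + g m * x)))).symm
  rw [hfin]
  rw [abs_le] at t1 e1 t3 ⊢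
  constructor <;> nlinarith [t1.1, t1.2, e1.1, e1.2, t3.1, t3.2]

end Pool.Agent.V5helper15.RM
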