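import Pool.Agent.V5helper15.RM.Mom

/-!
# Transfer of the characteristic functions and of the fourth moments
-/

set_option autoImplicit false

namespace Pool.Agent.V5helper15.RM

open Finset Filter Topology

variable {b N : ℕ} {f : Fin b → ℝ} {F : ℝ}

theorem rem {Ω : Type*} [Fintype Ω] {q : Ω → ℝ} (hq : Prob q) (m : ℕ) (T : Ω → ℝ) :
    ‖Ec q (fun ω => Complex.exp (Complex.I * (T ω : ℝ))) - Ec q (fun ω => tay (2 * m) (T ω))‖ ≤
      E q (fun ω => T ω ^ (2 * m)) / (2 * m).factorial := by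
  rw [← Ec_sub]
  refine (hq.norm _).trans ?_
  have h1 : ∀ ω, ‖Complex.exp (Complex.I * (T ω : ℝ)) - tay (2 * m) (T ω)‖ ≤
      1 / (2 * m).factorial * T ω ^ (2 * m) := by
    intro ω
    refine (tay_bound _ _).trans (le_of_eq ?_)
    rw [pow_mul, sq_abs, ← pow_mul]
    ring
  refine (hq.mono h1).trans (le_of_eq ?_)
  rw [E_mul]
  ring

theorem Ec_tay {Ω : Type*} [Fintype Ω] (q : Ω → ℝ) (n : ℕ) (T : Ω → ℝ) :
    Ec q (fun ω => tay n (T ω)) =
      ∑ k ∈ range n, Complex.I ^ k / (k.factorial : ℂ) * ((E q (fun ω => T ω ^ k) : ℝ) : ℂ) := by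
  unfold tay
  rw [Ec_sum]
  refine sum_congr rfl fun k _ => ?_
  rw [← Ec_ofReal, ← Ec_mul]
  congr 1
  funext ω
  push_cast
  rw [mul_pow]
  ring

/-- the difference of the characteristic functions by Taylor's formula -/
theorem Near.char {Ω : Type*} [Fintype Ω] {p : Ω → ℝ} (hp : Prob p) (hb : 0 < b) {D : Ω → Fin N → Fin b}
    {η : ℝ} (hη : 0 ≤ η) (m : ℕ) (h : Near p D (2 * m) η) (s : Fin N → ℝ) :
    ‖Ec p (fun ω => Complex.exp (Complex.I * (TT f s (D ω) : ℝ))) -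
      Ec (un b N) (fun x => Complex.exp (Complex.I * (TT f s x : ℝ)))‖ ≤
      (2 * m + 1) * (1 + (∑ i, |s i|) * ∑ d, |f d|) ^ (2 * m) * η +
      2 * E (un b N) (fun x => TT f s x ^ (2 * m)) / (2 * m).factorial := by
  classical
  set A := (∑ i, |s i|) * ∑ d, |f d| with hA
  have hA0 : 0 ≤ A := by positivity
  have hfac : (0 : ℝ) < (2 * m).factorial := by positivity
  have hu := un_prob hb N
  -- remainders
  have r1 := rem hp m (fun ω => TT f s (D ω))
  have r2 := rem hu m (fun x => TT f s x)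
  -- Taylor polynomials
  have r3 : ‖Ec p (fun ω => tay (2 * m) (TT f s (D ω))) - Ec (un b N) (fun x => tay (2 * m) (TT f s x))‖ ≤
      (2 * m) * ((1 + A) ^ (2 * m) * η) := by
    rw [Ec_tay, Ec_tay, ← sum_sub_distrib]
    refine (norm_sum_le _ _).trans ?_
    have h2 : ∀ k ∈ range (2 * m), ‖Complex.I ^ k / (k.factorial : ℂ) * ((E p (fun ω => TT f s (D ω) ^ k) : ℝ) : ℂ) -
        Complex.I ^ k / (k.factorial : ℂ) * ((E (un b N) (fun x => TT f s x ^ k) : ℝ) : ℂ)‖ ≤ (1 + A) ^ (2 * m) * η := by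
      intro k hk
      rw [mem_range] at hk
      rw [← mul_sub, norm_mul, ← Complex.ofReal_sub, Complex.norm_real, Real.norm_eq_abs]
      have h3 : ‖Complex.I ^ k / (k.factorial : ℂ)‖ ≤ 1 := by
        rw [norm_div, norm_pow, Complex.norm_I, one_pow, Complex.norm_natCast, div_le_one (by positivity)]
        exact_mod_cast Nat.factorial_pos k
      have h4 := h.moment f s hk.le
      rw [← hA] at h4
      have h5 : A ^ k * η ≤ (1 + A) ^ (2 * m) * η := by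
        refine mul_le_mul_of_nonneg_right ?_ hη
        exact (pow_le_pow_left₀ hA0 (by linarith) k).trans (pow_le_pow_right₀ (by linarith) hk.le)
      have h6 := abs_nonneg (E p (fun ω => TT f s (D ω) ^ k) - E (un b N) (fun x => TT f s x ^ k))
      nlinarith
    refine (sum_le_sum h2).trans (le_of_eq ?_)
    rw [sum_const, card_range, nsmul_eq_mul]
    push_cast
    ring
  have r4 : E p (fun ω => TT f s (D ω) ^ (2 * m)) ≤ E (un b N) (fun x => TT f s x ^ (2 * m)) + (1 + A) ^ (2 * m) * η := by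
    have h4 := h.moment f s le_rfl
    rw [← hA] at h4
    have h5 : A ^ (2 * m) * η ≤ (1 + A) ^ (2 * m) * η :=
      mul_le_mul_of_nonneg_right (pow_le_pow_left₀ hA0 (by linarith) _) hη
    linarith [(abs_le.1 h4).2]
  have r5 : E p (fun ω => TT f s (D ω) ^ (2 * m)) / (2 * m).factorial ≤
      E (un b N) (fun x => TT f s x ^ (2 * m)) / (2 * m).factorial + (1 + A) ^ (2 * m) * η := by
    have h6 : (1 : ℝ) ≤ (2 * m).factorial := by exact_mod_cast Nat.factorial_pos _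
    have h7 : 0 ≤ (1 + A) ^ (2 * m) * η := by positivity
    calc _ ≤ (E (un b N) (fun x => TT f s x ^ (2 * m)) + (1 + A) ^ (2 * m) * η) / (2 * m).factorial := by gcongr
      _ = E (un b N) (fun x => TT f s x ^ (2 * m)) / (2 * m).factorial + (1 + A) ^ (2 * m) * η / (2 * m).factorial := add_div _ _ _
      _ ≤ _ := by
        have := div_le_self h7 h6
        linarith
  have r2' := r2
  rw [norm_sub_rev] at r2'
  have tri : ‖Ec p (fun ω => Complex.exp (Complex.I * (TT f s (D ω) : ℝ))) -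
      Ec (un b N) (fun x => Complex.exp (Complex.I * (TT f s x : ℝ)))‖ ≤
      ‖Ec p (fun ω => Complex.exp (Complex.I * (TT f s (D ω) : ℝ))) - Ec p (fun ω => tay (2 * m) (TT f s (D ω)))‖ +
      ‖Ec p (fun ω => tay (2 * m) (TT f s (D ω))) - Ec (un b N) (fun x => tay (2 * m) (TT f s x))‖ +
      ‖Ec (un b N) (fun x => tay (2 * m) (TT f s x)) - Ec (un b N) (fun x => Complex.exp (Complex.I * (TT f s x : ℝ)))‖ := by
    refine (norm_sub_le_norm_sub_add_norm_sub _ (Ec (un b N) (fun x => tay (2 * m) (TT f s x))) _).trans ?_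
    gcongr
    exact norm_sub_le_norm_sub_add_norm_sub _ _ _
  refine tri.trans ?_
  have : 2 * E (un b N) (fun x => TT f s x ^ (2 * m)) / (2 * m).factorial =
      E (un b N) (fun x => TT f s x ^ (2 * m)) / (2 * m).factorial + E (un b N) (fun x => TT f s x ^ (2 * m)) / (2 * m).factorial := by ring
  rw [this]
  linarith

/-- **The limit of the characteristic functions.** -/
theorem Cen.char_main (h : Cen f F) {S : ℝ} (hS : 0 < S) {δ : ℝ} (hδ : 0 < δ) :
    ∃ K N0 : ℕ, ∀ N : ℕ, N0 ≤ N → ∀ {Ω : Type} [Fintype Ω] (p : Ω → ℝ) (_ : Prob p) (D : Ω → Fin N → Fin b),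
      Near p D K (1 / (N : ℝ) ^ K) → ∀ s : Fin N → ℝ, (∀ i, |s i| ≤ S / √(N : ℝ)) →
      ‖Ec p (fun ω => Complex.exp (Complex.I * (TT f s (D ω) : ℝ))) -
        Complex.exp (((-(va f * (∑ i, s i ^ 2) / 2) : ℝ) : ℂ))‖ ≤ δ := by
  have hF := h.F0
  -- choice of m
  obtain ⟨m, hm⟩ : ∃ m : ℕ, 4 * Real.exp (4 * F ^ 2 * S ^ 2) / 4 ^ m ≤ δ / 3 := by
    have h1 : Tendsto (fun m : ℕ => 4 * Real.exp (4 * F ^ 2 * S ^ 2) * (1 / 4 : ℝ) ^ m) atTop (𝓝 (4 * Real.exp (4 * F ^ 2 * S ^ 2) * 0)) :=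
      (tendsto_pow_atTop_nhds_zero_of_lt_one (by norm_num) (by norm_num)).const_mul _
    rw [mul_zero] at h1
    obtain ⟨m, hm⟩ := (h1.eventually (gt_mem_nhds (show 0 < δ / 3 by positivity))).exists
    refine ⟨m, ?_⟩
    have : 4 * Real.exp (4 * F ^ 2 * S ^ 2) / 4 ^ m = 4 * Real.exp (4 * F ^ 2 * S ^ 2) * (1 / 4 : ℝ) ^ m := by
      rw [one_div, inv_pow]; rfl
    rw [this]
    exact hm.le
  set G := ∑ d, |f d| with hG
  have hG0 : 0 ≤ G := by positivity
  -- choice of N0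
  have hev : ∀ᶠ N : ℕ in atTop, 1 ≤ N ∧ 2 * (S * F) ≤ √(N : ℝ) ∧
      (2 * m + 1) * (1 + S * G) ^ (2 * m) / N ≤ δ / 3 ∧ F ^ 3 * S ^ 3 / √(N : ℝ) ≤ δ / 3 := by
    have t1 : Tendsto (fun N : ℕ => √(N : ℝ)) atTop atTop :=
      Real.tendsto_sqrt_atTop.comp tendsto_natCast_atTop_atTop
    have t2 : Tendsto (fun N : ℕ => (2 * m + 1) * (1 + S * G) ^ (2 * m) / (N : ℝ)) atTop (𝓝 0) :=
      tendsto_const_nhds.div_atTop tendsto_natCast_atTop_atTop
    have t3 : Tendsto (fun N : ℕ => F ^ 3 * S ^ 3 / √(N : ℝ)) atTop (𝓝 0) :=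
      tendsto_const_nhds.div_atTop t1
    have h3 : 0 < δ / 3 := by positivity
    filter_upwards [eventually_ge_atTop 1, t1.eventually_ge_atTop (2 * (S * F)),
      t2.eventually (gt_mem_nhds h3), t3.eventually (gt_mem_nhds h3)] with N h1 h2 h4 h5
    exact ⟨h1, h2, h4.le, h5.le⟩
  obtain ⟨N0, hN0⟩ := eventually_atTop.1 hev
  refine ⟨2 * m + 1, N0, fun N hN Ω _ p hp D hD s hs => ?_⟩
  obtain ⟨hN1, hN2, hN3, hN4⟩ := hN0 N hN
  have hNR : (1 : ℝ) ≤ N := by exact_mod_cast hN1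
  have hNp : (0 : ℝ) < N := by linarith
  have hsq : 0 < √(N : ℝ) := Real.sqrt_pos.2 hNp
  have hsq1 : √(N : ℝ) ^ 2 = N := Real.sq_sqrt hNp.le
  have hD' : Near p D (2 * m) (1 / (N : ℝ) ^ (2 * m + 1)) := fun k hk => hD k (by omega)
  have k1 := hD'.char hp h.b0 (by positivity) m (f := f) s
  have hl : ∀ i, 2 * |s i| * F ≤ 1 := by
    intro i
    have h1 := hs i
    have h2 : |s i| * (2 * F) ≤ S / √(N : ℝ) * (2 * F) := mul_le_mul_of_nonneg_right h1 (by positivity)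
    have h3 : S / √(N : ℝ) * (2 * F) ≤ 1 := by
      rw [div_mul_eq_mul_div, div_le_one hsq]
      linarith
    linarith
  have hs2 : ∑ i, s i ^ 2 ≤ S ^ 2 := by
    calc ∑ i, s i ^ 2 ≤ ∑ _i : Fin N, (S / √(N : ℝ)) ^ 2 := sum_le_sum fun i _ => by
          rw [← sq_abs]; exact pow_le_pow_left₀ (abs_nonneg _) (hs i) 2
      _ = S ^ 2 := by
          rw [sum_const, card_univ, Fintype.card_fin, nsmul_eq_mul, div_pow, hsq1]
          field_simp
  have hs3 : ∑ i, |s i| ^ 3 ≤ S ^ 3 / √(N : ℝ) := by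
    calc ∑ i, |s i| ^ 3 ≤ ∑ _i : Fin N, (S / √(N : ℝ)) ^ 3 := sum_le_sum fun i _ =>
          pow_le_pow_left₀ (abs_nonneg _) (hs i) 3
      _ = S ^ 3 / √(N : ℝ) := by
          rw [sum_const, card_univ, Fintype.card_fin, nsmul_eq_mul, div_pow]
          have : √(N : ℝ) ^ 3 = N * √(N : ℝ) := by rw [pow_succ, hsq1]
          rw [this]
          field_simp
  have hs1 : ∑ i, |s i| ≤ S * √(N : ℝ) := by
    calc ∑ i, |s i| ≤ ∑ _i : Fin N, S / √(N : ℝ) := sum_le_sum fun i _ => hs i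
      _ = S * √(N : ℝ) := by
          rw [sum_const, card_univ, Fintype.card_fin, nsmul_eq_mul]
          nth_rewrite 1 [← hsq1]
          field_simp
  -- first term
  have k2 : (2 * (m : ℝ) + 1) * (1 + (∑ i, |s i|) * ∑ d, |f d|) ^ (2 * m) * (1 / (N : ℝ) ^ (2 * m + 1)) ≤ δ / 3 := by
    refine le_trans ?_ hN3
    have h1 : 1 + (∑ i, |s i|) * ∑ d, |f d| ≤ √(N : ℝ) * (1 + S * G) := by
      have h2 : (∑ i, |s i|) * G ≤ S * √(N : ℝ) * G := mul_le_mul_of_nonneg_right hs1 hG0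
      have h3 : 1 ≤ √(N : ℝ) := by
        rw [show (1 : ℝ) = √1 by simp]; exact Real.sqrt_le_sqrt hNR
      rw [← hG]
      nlinarith
    have h0 : 0 ≤ 1 + (∑ i, |s i|) * ∑ d, |f d| := by positivity
    have h2 : (1 + (∑ i, |s i|) * ∑ d, |f d|) ^ (2 * m) ≤ (N : ℝ) ^ m * (1 + S * G) ^ (2 * m) := by
      refine (pow_le_pow_left₀ h0 h1 _).trans (le_of_eq ?_)
      rw [mul_pow, pow_mul (√(N : ℝ)), hsq1]
    have h3 : (N : ℝ) ^ m ≤ (N : ℝ) ^ (2 * m) := pow_le_pow_right₀ hNR (by omega)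
    have h4 : (1 + (∑ i, |s i|) * ∑ d, |f d|) ^ (2 * m) ≤ (N : ℝ) ^ (2 * m) * (1 + S * G) ^ (2 * m) :=
      h2.trans (mul_le_mul_of_nonneg_right h3 (by positivity))
    calc (2 * (m : ℝ) + 1) * (1 + (∑ i, |s i|) * ∑ d, |f d|) ^ (2 * m) * (1 / (N : ℝ) ^ (2 * m + 1))
        ≤ (2 * (m : ℝ) + 1) * ((N : ℝ) ^ (2 * m) * (1 + S * G) ^ (2 * m)) * (1 / (N : ℝ) ^ (2 * m + 1)) := by
          gcongr
      _ = (2 * m + 1) * (1 + S * G) ^ (2 * m) / N := by
          rw [pow_succ]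
          field_simp
  -- second term
  have k3 : 2 * E (un b N) (fun x => TT f s x ^ (2 * m)) / (2 * m).factorial ≤ δ / 3 := by
    refine le_trans ?_ hm
    have h1 := h.even s (lam := 2) (by norm_num) hl m
    have hfac : (0 : ℝ) < (2 * m).factorial := by positivity
    have h2 : Real.exp (2 ^ 2 * F ^ 2 * ∑ i, s i ^ 2) ≤ Real.exp (4 * F ^ 2 * S ^ 2) := by
      apply Real.exp_le_exp.2
      have : F ^ 2 * ∑ i, s i ^ 2 ≤ F ^ 2 * S ^ 2 := mul_le_mul_of_nonneg_left hs2 (by positivity)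
      nlinarith
    rw [div_le_iff₀ hfac]
    have h3 : (2 : ℝ) ^ (2 * m) = 4 ^ m := by rw [pow_mul]; norm_num
    rw [h3] at h1
    calc 2 * E (un b N) (fun x => TT f s x ^ (2 * m)) ≤ 2 * ((2 * m).factorial * (2 * Real.exp (2 ^ 2 * F ^ 2 * ∑ i, s i ^ 2)) / 4 ^ m) := by
          gcongr
      _ ≤ 2 * ((2 * m).factorial * (2 * Real.exp (4 * F ^ 2 * S ^ 2)) / 4 ^ m) := by gcongr
      _ = _ := by ring
  -- third term
  have k4 : ‖Ec (un b N) (fun x => Complex.exp (Complex.I * (TT f s x : ℝ))) -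
      Complex.exp (((-(va f * (∑ i, s i ^ 2) / 2) : ℝ) : ℂ))‖ ≤ δ / 3 := by
    refine (h.char s (fun i => by
      have := hl i
      have h0 : 0 ≤ |s i| * F := by positivity
      linarith)).trans ?_
    refine le_trans ?_ hN4
    have := mul_le_mul_of_nonneg_left hs3 (show 0 ≤ F ^ 3 by positivity)
    refine this.trans (le_of_eq (by ring))
  refine (norm_sub_le_norm_sub_add_norm_sub _ (Ec (un b N) (fun x => Complex.exp (Complex.I * (TT f s x : ℝ)))) _).trans ?_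
  have := k1.trans (add_le_add k2 k3)
  linarith

/-- partial sums over windows -/
noncomputable def SW (f : Fin b → ℝ) (u v : ℕ) (x : Fin N → Fin b) : ℝ :=
  TT f (fun i : Fin N => if u ≤ (i : ℕ) ∧ (i : ℕ) < v then 1 else 0) x

theorem sum_ind (u v : ℕ) (c : ℝ) (hv : v ≤ N) :
    ∑ i : Fin N, (if u ≤ (i : ℕ) ∧ (i : ℕ) < v then c else 0) = ((v - u : ℕ) : ℝ) * c := by
  rw [Fin.sum_univ_eq_sum_range (fun i => if u ≤ i ∧ i < v then c else 0) N, ← sum_filter, sum_const, nsmul_eq_mul]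
  congr 2
  have : (range N).filter (fun i => u ≤ i ∧ i < v) = Ico u v := by
    ext i; simp only [mem_filter, mem_range, mem_Ico]; omega
  rw [this, Nat.card_Ico]

/-- **The fourth moments of the sums over windows.** -/
theorem Cen.four (h : Cen f F) {Ω : Type*} [Fintype Ω] {p : Ω → ℝ} {D : Ω → Fin N → Fin b} {K : ℕ} (hK : 4 ≤ K)
    (hD : Near p D K (1 / (N : ℝ) ^ K)) {u v : ℕ} (huv : u ≤ v) (hv : v ≤ N) :
    E p (fun ω => SW f u v (D ω) ^ 4) ≤ (144 + (b : ℝ) ^ 4) * F ^ 4 * ((v - u : ℕ) : ℝ) ^ 2 := by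
  have hF := h.F0
  have hb0 : (0 : ℝ) < b := by exact_mod_cast h.b0
  rcases Nat.eq_or_lt_of_le huv with he | hlt
  · subst he
    have h0 : ∀ ω, SW f u u (D ω) = 0 := by
      intro ω
      unfold SW TT
      refine sum_eq_zero fun i _ => ?_
      dsimp only
      rw [if_neg (by omega), zero_mul]
    have : E p (fun ω => SW f u u (D ω) ^ 4) = 0 := by
      simp only [h0]
      unfold E
      simp
    rw [this]
    positivity
  · have hN : 1 ≤ N := by omega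
    have hNR : (1 : ℝ) ≤ N := by exact_mod_cast hN
    obtain ⟨n, hn⟩ : ∃ n : ℕ, n = v - u := ⟨_, rfl⟩
    have hn1 : 1 ≤ n := by omega
    have hnR : (1 : ℝ) ≤ n := by exact_mod_cast hn1
    have hnN : (n : ℝ) ≤ N := by exact_mod_cast (by omega : n ≤ N)
    set s : Fin N → ℝ := fun i => if u ≤ (i : ℕ) ∧ (i : ℕ) < v then 1 else 0 with hs
    have hs1 : ∑ i, |s i| = n := by
      have : ∀ i, |s i| = if u ≤ (i : ℕ) ∧ (i : ℕ) < v then (1 : ℝ) else 0 := by
        intro i; simp only [hs]; split_ifs <;> simp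
      simp only [this]
      rw [sum_ind u v 1 hv, ← hn, mul_one]
    have hs2 : ∑ i, s i ^ 2 = n := by
      have : ∀ i, s i ^ 2 = if u ≤ (i : ℕ) ∧ (i : ℕ) < v then (1 : ℝ) else 0 := by
        intro i; simp only [hs]; split_ifs <;> simp
      simp only [this]
      rw [sum_ind u v 1 hv, ← hn, mul_one]
    have hG : ∑ d, |f d| ≤ b * F := by
      calc ∑ d, |f d| ≤ ∑ _d : Fin b, F := sum_le_sum fun d _ => h.bd d
        _ = b * F := by simp
    have k1 := hD.moment f s hK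
    have hsq : 0 < √(n : ℝ) := Real.sqrt_pos.2 (by linarith)
    have hsq1 : √(n : ℝ) ^ 2 = n := Real.sq_sqrt (by linarith)
    have hsqn : 1 ≤ √(n : ℝ) := by
      rw [show (1 : ℝ) = √1 by simp]; exact Real.sqrt_le_sqrt hnR
    have k2 := h.even s (lam := 1 / (F * √(n : ℝ))) (by positivity) (fun i => by
      have h1 : |s i| ≤ 1 := by simp only [hs]; split_ifs <;> simp
      have h2 : 1 / (F * √(n : ℝ)) * |s i| * F = |s i| / √(n : ℝ) := by field_simp
      rw [h2, div_le_one hsq]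
      linarith) 2
    have e1 : (1 / (F * √(n : ℝ))) ^ 2 * F ^ 2 * ∑ i, s i ^ 2 = 1 := by
      rw [hs2, div_pow, mul_pow, hsq1]
      field_simp
    have e2 : (1 / (F * √(n : ℝ))) ^ (2 * 2) = 1 / (F ^ 4 * (n : ℝ) ^ 2) := by
      have : √(n : ℝ) ^ 4 = (n : ℝ) ^ 2 := by
        rw [show (4 : ℕ) = 2 * 2 by norm_num, pow_mul, hsq1]
      rw [div_pow, mul_pow, one_pow, show 2 * 2 = 4 from rfl, this]
    rw [e1, e2] at k2
    have hexp : Real.exp 1 ≤ 3 := by
      have := Real.exp_one_lt_d9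
      linarith
    have hfac : ((2 * 2).factorial : ℝ) = 24 := by norm_num [Nat.factorial]
    rw [hfac] at k2
    have k3 : E (un b N) (fun x => TT f s x ^ 4) ≤ 144 * F ^ 4 * (n : ℝ) ^ 2 := by
      refine (show E (un b N) (fun x => TT f s x ^ 4) ≤ _ from k2).trans ?_
      rw [div_div_eq_mul_div, div_one]
      have : 24 * (2 * Real.exp 1) * (F ^ 4 * (n : ℝ) ^ 2) ≤ 24 * (2 * 3) * (F ^ 4 * (n : ℝ) ^ 2) := by gcongr
      linarith
    have k4 : ((∑ i, |s i|) * ∑ d, |f d|) ^ 4 * (1 / (N : ℝ) ^ K) ≤ (b : ℝ) ^ 4 * F ^ 4 * (n : ℝ) ^ 2 := by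
      rw [hs1]
      have h1 : ((n : ℝ) * ∑ d, |f d|) ^ 4 ≤ (n * (b * F)) ^ 4 := by gcongr
      have h2 : (N : ℝ) ^ 4 ≤ (N : ℝ) ^ K := pow_le_pow_right₀ hNR hK
      have h3 : (n : ℝ) ^ 4 ≤ (N : ℝ) ^ K := (pow_le_pow_left₀ (by linarith) hnN 4).trans h2
      have h4 : ((n : ℝ) * (b * F)) ^ 4 = (n : ℝ) ^ 4 * ((b : ℝ) ^ 4 * F ^ 4) := by ring
      rw [mul_one_div, div_le_iff₀ (by positivity)]
      refine h1.trans ?_
      rw [h4]
      have h5 : (1 : ℝ) ≤ (n : ℝ) ^ 2 := one_le_pow₀ hnR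
      have h6 : (n : ℝ) ^ 4 * ((b : ℝ) ^ 4 * F ^ 4) ≤ (N : ℝ) ^ K * ((b : ℝ) ^ 4 * F ^ 4) := by gcongr
      have h7 : (b : ℝ) ^ 4 * F ^ 4 * (N : ℝ) ^ K ≤ (b : ℝ) ^ 4 * F ^ 4 * (N : ℝ) ^ K * (n : ℝ) ^ 2 :=
        le_mul_of_one_le_right (by positivity) h5
      linarith
    have k5 := (abs_le.1 k1).2
    rw [← hn]
    have : E p (fun ω => SW f u v (D ω) ^ 4) = E p (fun ω => TT f s (D ω) ^ 4) := rfl
    rw [this]
    linarith

end Pool.Agent.V5helper15.RM
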