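import Pool.Agent.V5helper15.RM.Trig

/-!
# Comparison of two random points with nearly equal Fourier coefficients
-/

set_option autoImplicit false

namespace Pool.Agent.V5helper15.RM

open Finset Filter Topology
open Pool.Agent.H469R2.NK (e norm_e e_add e_zero conj_e)
open Pool.Agent.R485.Mult (e_sum)

/-- The Fourier coefficients of the random point `z` at the frequencies `∑ j, h j * b ^ κ j`, `κ j ≤ N`, `|h j| ≤ H`, are small. -/
def Equi {Ω : Type*} [Fintype Ω] (b N k H : ℕ) (δ : ℝ) (p z : Ω → ℝ) : Prop :=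
  ∀ κ : Fin k → ℕ, (∀ j, κ j ≤ N) → ∀ h : Fin k → ℤ, (∀ j, |h j| ≤ H) → ∑ j, h j * (b : ℤ) ^ κ j ≠ 0 →
    ‖Ec p (fun ω => e ((∑ j, (h j : ℝ) * (b : ℝ) ^ κ j) * z ω))‖ ≤ δ

theorem prod_diffM {ι : Type*} (s : Finset ι) (a c : ι → ℂ) (M : ℝ) (hM : 1 ≤ M) (ha : ∀ i ∈ s, ‖a i‖ ≤ M)
    (hc : ∀ i ∈ s, ‖c i‖ ≤ M) : ‖∏ i ∈ s, a i - ∏ i ∈ s, c i‖ ≤ M ^ s.card * ∑ i ∈ s, ‖a i - c i‖ := by
  classical
  induction s using Finset.induction_on with
  | empty => simp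
  | insert j s hj ih =>
    rw [prod_insert hj, prod_insert hj, sum_insert hj, card_insert_of_notMem hj]
    have h1 := ih (fun i hi => ha i (mem_insert_of_mem hi)) (fun i hi => hc i (mem_insert_of_mem hi))
    have h2 : a j * ∏ i ∈ s, a i - c j * ∏ i ∈ s, c i =
        (a j - c j) * ∏ i ∈ s, a i + c j * (∏ i ∈ s, a i - ∏ i ∈ s, c i) := by ring
    rw [h2]
    refine (norm_add_le _ _).trans ?_
    rw [norm_mul, norm_mul]
    have h3 : ‖∏ i ∈ s, a i‖ ≤ M ^ s.card := by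
      rw [norm_prod]
      refine (prod_le_prod (fun i _ => norm_nonneg _) fun i hi => ha i (mem_insert_of_mem hi)).trans (le_of_eq ?_)
      rw [prod_const]
    have h4 := hc j (mem_insert_self _ _)
    have h5 := norm_nonneg (a j - c j)
    have h6 := norm_nonneg (∏ i ∈ s, a i - ∏ i ∈ s, c i)
    have h7 : 0 ≤ ∑ i ∈ s, ‖a i - c i‖ := by positivity
    have h8 : (1 : ℝ) ≤ M ^ s.card := one_le_pow₀ hM
    calc ‖a j - c j‖ * ‖∏ i ∈ s, a i‖ + ‖c j‖ * ‖∏ i ∈ s, a i - ∏ i ∈ s, c i‖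
        ≤ ‖a j - c j‖ * M ^ s.card + M * (M ^ s.card * ∑ i ∈ s, ‖a i - c i‖) := by gcongr
      _ ≤ ‖a j - c j‖ * (M * M ^ s.card) + M * (M ^ s.card * ∑ i ∈ s, ‖a i - c i‖) := by
          gcongr
          exact le_mul_of_one_le_left (by positivity) hM
      _ = M ^ (s.card + 1) * (‖a j - c j‖ + ∑ i ∈ s, ‖a i - c i‖) := by rw [pow_succ]; ring

variable {Ω Ω' : Type*} [Fintype Ω] [Fintype Ω'] {p z : Ω → ℝ} {p' z' : Ω' → ℝ} {b N k H : ℕ} {δ : ℝ}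

theorem expand {Ω : Type*} [Fintype Ω] (p z : Ω → ℝ) (b k H : ℕ) (κ : Fin k → ℕ) (c : Fin k → ℤ → ℂ) :
    Ec p (fun ω => ∏ j, ∑ h ∈ Icc (-(H : ℤ)) H, c j h * e (h * ((b : ℝ) ^ κ j * z ω))) =
      ∑ h ∈ Fintype.piFinset (fun _ : Fin k => Icc (-(H : ℤ)) H), (∏ j, c j (h j)) *
        Ec p (fun ω => e ((∑ j, (h j : ℝ) * (b : ℝ) ^ κ j) * z ω)) := by
  classical
  have h1 : ∀ ω, ∏ j, ∑ h ∈ Icc (-(H : ℤ)) H, c j h * e (h * ((b : ℝ) ^ κ j * z ω)) =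
      ∑ h ∈ Fintype.piFinset (fun _ : Fin k => Icc (-(H : ℤ)) H), (∏ j, c j (h j)) *
        e ((∑ j, (h j : ℝ) * (b : ℝ) ^ κ j) * z ω) := by
    intro ω
    rw [prod_univ_sum]
    refine sum_congr rfl fun h _ => ?_
    rw [prod_mul_distrib, ← e_sum, sum_mul]
    congr 2
    exact sum_congr rfl fun j _ => by ring
  simp only [h1]
  rw [Ec_sum]
  refine sum_congr rfl fun h _ => ?_
  rw [Ec_mul]

theorem Ec_one (hp : Prob p) : Ec p (fun _ => (1 : ℂ)) = 1 := by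
  have h := hp.one
  unfold Ec
  simp only [mul_one]
  rw [← Complex.ofReal_sum, h, Complex.ofReal_one]

/-- products of trigonometric polynomials -/
theorem Equi.poly (hE : Equi b N k H δ p z) (hE' : Equi b N k H δ p' z') (hp : Prob p) (hp' : Prob p') (hδ : 0 ≤ δ)
    (κ : Fin k → ℕ) (hκ : ∀ j, κ j ≤ N) (c : Fin k → ℤ → ℂ) :
    ‖Ec p (fun ω => ∏ j, ∑ h ∈ Icc (-(H : ℤ)) H, c j h * e (h * ((b : ℝ) ^ κ j * z ω))) -
      Ec p' (fun ω => ∏ j, ∑ h ∈ Icc (-(H : ℤ)) H, c j h * e (h * ((b : ℝ) ^ κ j * z' ω)))‖ ≤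
      2 * δ * ∏ j, ∑ h ∈ Icc (-(H : ℤ)) H, ‖c j h‖ := by
  classical
  rw [expand, expand, ← sum_sub_distrib, prod_univ_sum, mul_sum]
  refine (norm_sum_le _ _).trans (sum_le_sum fun h hh => ?_)
  rw [← mul_sub, norm_mul, norm_prod]
  have hh' : ∀ j, |h j| ≤ H := by
    intro j
    have := (Fintype.mem_piFinset.1 hh) j
    rw [mem_Icc] at this
    exact abs_le.2 this
  have h2 : ‖Ec p (fun ω => e ((∑ j, (h j : ℝ) * (b : ℝ) ^ κ j) * z ω)) -
      Ec p' (fun ω => e ((∑ j, (h j : ℝ) * (b : ℝ) ^ κ j) * z' ω))‖ ≤ 2 * δ := by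
    by_cases h0 : ∑ j, h j * (b : ℤ) ^ κ j = 0
    · have h3 : ∑ j, (h j : ℝ) * (b : ℝ) ^ κ j = 0 := by
        have := congrArg (Int.cast : ℤ → ℝ) h0
        push_cast at this
        exact this
      simp only [h3, zero_mul, e_zero]
      rw [Ec_one hp, Ec_one hp', sub_self, norm_zero]
      linarith
    · refine (norm_sub_le _ _).trans ?_
      have := hE κ hκ h hh' h0
      have := hE' κ hκ h hh' h0
      linarith
  have h3 : 0 ≤ ∏ j, ‖c j (h j)‖ := prod_nonneg fun j _ => norm_nonneg _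
  calc (∏ j, ‖c j (h j)‖) * _ ≤ (∏ j, ‖c j (h j)‖) * (2 * δ) := mul_le_mul_of_nonneg_left h2 h3
    _ = 2 * δ * ∏ j, ‖c j (h j)‖ := by ring

/-- one function: the mean value -/
theorem Equi.mean (hE : Equi b N k H δ p z) (hp : Prob p) (hb : 0 < b) (hδ : 0 ≤ δ) (j : Fin k) (κ : ℕ) (hκ : κ ≤ N)
    {L ρ μ : ℝ} {φ : ℝ → ℝ} (hφ : TA H L ρ μ φ) :
    |E p (fun ω => φ ((b : ℝ) ^ κ * z ω)) - μ| ≤ L * δ + ρ := by
  classical
  obtain ⟨c, h0, h1, h2⟩ := hφ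
  have e1 : ‖Ec p (fun ω => ∑ h ∈ Icc (-(H : ℤ)) H, c h * e (h * ((b : ℝ) ^ κ * z ω))) - μ‖ ≤ L * δ := by
    rw [Ec_sum]
    have e2 : ∀ h : ℤ, Ec p (fun ω => c h * e (h * ((b : ℝ) ^ κ * z ω))) =
        c h * Ec p (fun ω => e (h * ((b : ℝ) ^ κ * z ω))) := fun h => Ec_mul _ _
    simp only [e2]
    have hmem : (0 : ℤ) ∈ Icc (-(H : ℤ)) H := by simp
    rw [← add_sum_erase _ _ hmem]
    have e3 : c 0 * Ec p (fun ω => e (((0 : ℤ) : ℝ) * ((b : ℝ) ^ κ * z ω))) = μ := by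
      simp only [Int.cast_zero, zero_mul, e_zero]
      rw [Ec_one hp, mul_one, h0]
    rw [e3, add_sub_cancel_left]
    refine (norm_sum_le _ _).trans ?_
    have e4 : ∀ h ∈ (Icc (-(H : ℤ)) H).erase 0, ‖c h * Ec p (fun ω => e (h * ((b : ℝ) ^ κ * z ω)))‖ ≤ ‖c h‖ * δ := by
      intro h hh
      rw [mem_erase, mem_Icc] at hh
      rw [norm_mul]
      refine mul_le_mul_of_nonneg_left ?_ (norm_nonneg _)
      have := hE (fun _ => κ) (fun _ => hκ) (Pi.single j h) (fun i => by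
        rcases eq_or_ne i j with hi | hi
        · rw [hi, Pi.single_eq_same]; exact abs_le.2 hh.2
        · rw [Pi.single_eq_of_ne hi, abs_zero]; positivity) (by
        rw [sum_eq_single j (fun i _ hi => by rw [Pi.single_eq_of_ne hi, zero_mul]) (by simp), Pi.single_eq_same]
        exact mul_ne_zero hh.1 (pow_ne_zero _ (by exact_mod_cast hb.ne')))
      have e5 : ∑ i : Fin k, (((Pi.single j h : Fin k → ℤ) i : ℤ) : ℝ) * (b : ℝ) ^ κ = (h : ℝ) * (b : ℝ) ^ κ := by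
        rw [sum_eq_single j (fun i _ hi => by rw [Pi.single_eq_of_ne hi]; simp) (by simp), Pi.single_eq_same]
      rw [e5] at this
      simpa only [mul_assoc] using this
    refine (sum_le_sum e4).trans ?_
    rw [← sum_mul]
    refine mul_le_mul_of_nonneg_right ?_ hδ
    exact (sum_le_sum_of_subset_of_nonneg (erase_subset _ _) fun _ _ _ => norm_nonneg _).trans h1
  have e6 : ‖Ec p (fun ω => ((φ ((b : ℝ) ^ κ * z ω) : ℝ) : ℂ)) -
      Ec p (fun ω => ∑ h ∈ Icc (-(H : ℤ)) H, c h * e (h * ((b : ℝ) ^ κ * z ω)))‖ ≤ ρ := by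
    rw [← Ec_sub]
    refine (hp.norm _).trans ?_
    refine (hp.mono fun ω => h2 _).trans ?_
    rw [hp.const]
  rw [Ec_ofReal] at e6
  have e7 : ‖((E p (fun ω => φ ((b : ℝ) ^ κ * z ω)) : ℝ) : ℂ) - ((μ : ℝ) : ℂ)‖ ≤ ρ + L * δ :=
    (norm_sub_le_norm_sub_add_norm_sub _ _ _).trans (add_le_add e6 e1)
  rw [← Complex.ofReal_sub, Complex.norm_real, Real.norm_eq_abs] at e7
  linarith

/-- products of functions which are approximated by trigonometric polynomials -/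
theorem Equi.prod (hE : Equi b N k H δ p z) (hE' : Equi b N k H δ p' z') (hp : Prob p) (hp' : Prob p') (hδ : 0 ≤ δ)
    (κ : Fin k → ℕ) (hκ : ∀ j, κ j ≤ N) {L ρ B : ℝ} (hB : 1 ≤ B) (hρ : 0 ≤ ρ) {μ : Fin k → ℝ} {φ : Fin k → ℝ → ℝ}
    (hφ : ∀ j, TA H L ρ (μ j) (φ j)) (hφB : ∀ j t, |φ j t| ≤ B) :
    |E p (fun ω => ∏ j, φ j ((b : ℝ) ^ κ j * z ω)) - E p' (fun ω => ∏ j, φ j ((b : ℝ) ^ κ j * z' ω))| ≤
      2 * δ * L ^ k + 2 * ((B + ρ) ^ k * (k * ρ)) := by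
  classical
  choose c hc0 hc1 hc2 using hφ
  have hL : ∏ j : Fin k, ∑ h ∈ Icc (-(H : ℤ)) H, ‖c j h‖ ≤ L ^ k := by
    refine (prod_le_prod (fun j _ => by positivity) fun j _ => hc1 j).trans (le_of_eq ?_)
    rw [prod_const, card_univ, Fintype.card_fin]
  have key : ∀ t : Fin k → ℝ, ‖((∏ j, φ j (t j) : ℝ) : ℂ) - ∏ j, ∑ h ∈ Icc (-(H : ℤ)) H, c j h * e (h * t j)‖ ≤
      (B + ρ) ^ k * (k * ρ) := by
    intro t
    rw [Complex.ofReal_prod]
    refine (prod_diffM univ (fun j => ((φ j (t j) : ℝ) : ℂ)) (fun j => ∑ h ∈ Icc (-(H : ℤ)) H, c j h * e (h * t j)) (B + ρ)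
      (by linarith) (fun j _ => ?_) (fun j _ => ?_)).trans ?_
    · rw [Complex.norm_real, Real.norm_eq_abs]
      linarith [hφB j (t j)]
    · have h1 := hc2 j (t j)
      have h2 : ‖((φ j (t j) : ℝ) : ℂ)‖ ≤ B := by rw [Complex.norm_real, Real.norm_eq_abs]; exact hφB j (t j)
      have h3 := norm_sub_norm_le (∑ h ∈ Icc (-(H : ℤ)) H, c j h * e (h * t j)) ((φ j (t j) : ℝ) : ℂ)
      rw [norm_sub_rev] at h3
      linarith
    · rw [card_univ, Fintype.card_fin]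
      refine mul_le_mul_of_nonneg_left ?_ (by positivity)
      refine (sum_le_sum fun j _ => hc2 j (t j)).trans (le_of_eq ?_)
      simp
  have side : ∀ {q w : Ω → ℝ}, Prob q → ‖((E q (fun ω => ∏ j, φ j ((b : ℝ) ^ κ j * w ω)) : ℝ) : ℂ) -
      Ec q (fun ω => ∏ j, ∑ h ∈ Icc (-(H : ℤ)) H, c j h * e (h * ((b : ℝ) ^ κ j * w ω)))‖ ≤ (B + ρ) ^ k * (k * ρ) := by
    intro q w hq
    rw [← Ec_ofReal, ← Ec_sub]
    refine (hq.norm _).trans ((hq.mono fun ω => key (fun j => (b : ℝ) ^ κ j * w ω)).trans ?_)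
    rw [hq.const]
  have side' : ∀ {q w : Ω' → ℝ}, Prob q → ‖((E q (fun ω => ∏ j, φ j ((b : ℝ) ^ κ j * w ω)) : ℝ) : ℂ) -
      Ec q (fun ω => ∏ j, ∑ h ∈ Icc (-(H : ℤ)) H, c j h * e (h * ((b : ℝ) ^ κ j * w ω)))‖ ≤ (B + ρ) ^ k * (k * ρ) := by
    intro q w hq
    rw [← Ec_ofReal, ← Ec_sub]
    refine (hq.norm _).trans ((hq.mono fun ω => key (fun j => (b : ℝ) ^ κ j * w ω)).trans ?_)
    rw [hq.const]
  have s1 := side (w := z) hp
  have s2 := side' (w := z') hp'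
  rw [norm_sub_rev] at s2
  have s3 := (hE.poly hE' hp hp' hδ κ hκ c).trans (mul_le_mul_of_nonneg_left hL (by positivity))
  rw [← Real.norm_eq_abs, ← Complex.norm_real, Complex.ofReal_sub]
  refine (norm_sub_le_norm_sub_add_norm_sub _ (Ec p (fun ω => ∏ j, ∑ h ∈ Icc (-(H : ℤ)) H, c j h * e (h * ((b : ℝ) ^ κ j * z ω)))) _).trans ?_
  have s4 := (norm_sub_le_norm_sub_add_norm_sub (Ec p (fun ω => ∏ j, ∑ h ∈ Icc (-(H : ℤ)) H, c j h * e (h * ((b : ℝ) ^ κ j * z ω))))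
    (Ec p' (fun ω => ∏ j, ∑ h ∈ Icc (-(H : ℤ)) H, c j h * e (h * ((b : ℝ) ^ κ j * z' ω))))
    ((E p' (fun ω => ∏ j, φ j ((b : ℝ) ^ κ j * z' ω)) : ℝ) : ℂ)).trans (add_le_add s3 s2)
  linarith

/-- **Comparison of the joint distributions of the orbits.** -/
theorem Equi.main (hE : Equi b N k H δ p z) (hE' : Equi b N k H δ p' z') (hp : Prob p) (hp' : Prob p') (hb : 0 < b)
    (hδ : 0 ≤ δ) (hH : 1 ≤ H) {d : ℝ} (hd0 : 0 < d) (hd1 : d ≤ 1) (hdH : 2 ≤ d * H)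
    (κ : Fin k → ℕ) (hκ : ∀ j, κ j ≤ N) (α β : Fin k → ℝ) (ha : ∀ j, 0 ≤ α j) (hab : ∀ j, α j < β j) (hβ : ∀ j, β j ≤ 1) :
    |E p (fun ω => ∏ j, ind (α j) (β j) ((b : ℝ) ^ κ j * z ω)) -
      E p' (fun ω => ∏ j, ind (α j) (β j) ((b : ℝ) ^ κ j * z' ω))| ≤
      2 * δ * (4 / d) ^ k + 5 ^ k * k * (4 / (d * H) + 2 * (2 * d + (6 / d * δ + 4 / (d * H)))) := by
  classical
  have hHR : (0 : ℝ) < H := by exact_mod_cast hH
  have hρ1 : 2 / (d * H) ≤ 1 := by rw [div_le_one (by positivity)]; exact hdH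
  have h1 := hE.prod hE' hp hp' hδ κ hκ (L := 4 / d) (ρ := 2 / (d * H)) (B := 4) (by norm_num) (by positivity)
    (μ := fun j => β j - α j + d) (φ := fun j => Up d (α j) (β j)) (fun j => ta_Up hH hd0 hd1 (ha j) (hab j) (hβ j))
    (fun j t => Up_abs hd0 hd1 (ha j) (hab j) (hβ j) t)
  have h2 : 2 * ((4 + 2 / (d * H)) ^ k * (k * (2 / (d * H)))) ≤ 5 ^ k * k * (4 / (d * H)) := by
    have h3 : (4 + 2 / (d * H)) ^ k ≤ 5 ^ k := pow_le_pow_left₀ (by positivity) (by linarith) k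
    calc 2 * ((4 + 2 / (d * H)) ^ k * (k * (2 / (d * H)))) ≤ 2 * (5 ^ k * (k * (2 / (d * H)))) := by gcongr
      _ = _ := by ring
  -- one side
  have pt : ∀ t : Fin k → ℝ, |∏ j, ind (α j) (β j) (t j) - ∏ j, Up d (α j) (β j) (t j)| ≤
      4 ^ k * ∑ j, (Up d (α j) (β j) (t j) - Lo d (α j) (β j) (t j)) := by
    intro t
    have h3 := prod_diffM univ (fun j => ((ind (α j) (β j) (t j) : ℝ) : ℂ)) (fun j => ((Up d (α j) (β j) (t j) : ℝ) : ℂ)) 4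
      (by norm_num) (fun j _ => by
        rw [Complex.norm_real, Real.norm_eq_abs, abs_of_nonneg (ind_nonneg _ _ _)]
        linarith [ind_le (α j) (β j) (t j)]) (fun j _ => by
        rw [Complex.norm_real, Real.norm_eq_abs]
        exact Up_abs hd0 hd1 (ha j) (hab j) (hβ j) _)
    rw [← Complex.ofReal_prod, ← Complex.ofReal_prod, ← Complex.ofReal_sub, Complex.norm_real, Real.norm_eq_abs,
      card_univ, Fintype.card_fin] at h3
    refine h3.trans ?_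
    refine mul_le_mul_of_nonneg_left (sum_le_sum fun j _ => ?_) (by positivity)
    rw [← Complex.ofReal_sub, Complex.norm_real, Real.norm_eq_abs, abs_sub_comm,
      abs_of_nonneg (sub_nonneg.2 (ind_le_Up hd0 hd1 (ha j) (hab j) (hβ j) _))]
    have := Lo_le_ind hd0 hd1 (ha j) (hab j) (hβ j) (t j)
    linarith
  have side : ∀ {q w : Ω → ℝ}, Prob q → Equi b N k H δ q w →
      |E q (fun ω => ∏ j, ind (α j) (β j) ((b : ℝ) ^ κ j * w ω)) - E q (fun ω => ∏ j, Up d (α j) (β j) ((b : ℝ) ^ κ j * w ω))| ≤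
      5 ^ k * k * (2 * d + (6 / d * δ + 4 / (d * H))) := by
    intro q w hq hqE
    rw [← E_sub]
    refine (hq.abs _).trans ((hq.mono fun ω => pt (fun j => (b : ℝ) ^ κ j * w ω)).trans ?_)
    rw [E_mul, E_sum]
    have h4 : ∀ j ∈ (univ : Finset (Fin k)), E q (fun ω => Up d (α j) (β j) ((b : ℝ) ^ κ j * w ω) - Lo d (α j) (β j) ((b : ℝ) ^ κ j * w ω)) ≤
        2 * d + (6 / d * δ + 4 / (d * H)) := by
      intro j _
      have := hqE.mean hq hb hδ j (κ j) (hκ j) (ta_Dif hH hd0 hd1 (α := α j) (β := β j))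
      linarith [(abs_le.1 this).2]
    have h5 : (4 : ℝ) ^ k ≤ 5 ^ k := pow_le_pow_left₀ (by norm_num) (by norm_num) k
    have h6 : 0 ≤ 2 * d + (6 / d * δ + 4 / (d * H)) := by positivity
    calc 4 ^ k * ∑ j, E q (fun ω => Up d (α j) (β j) ((b : ℝ) ^ κ j * w ω) - Lo d (α j) (β j) ((b : ℝ) ^ κ j * w ω))
        ≤ 4 ^ k * ∑ _j : Fin k, (2 * d + (6 / d * δ + 4 / (d * H))) := by gcongr with j hj; exact h4 j hj
      _ = 4 ^ k * (k * (2 * d + (6 / d * δ + 4 / (d * H)))) := by rw [sum_const, card_univ, Fintype.card_fin, nsmul_eq_mul]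
      _ ≤ 5 ^ k * (k * (2 * d + (6 / d * δ + 4 / (d * H)))) := by gcongr
      _ = _ := by ring
  have side' : ∀ {q w : Ω' → ℝ}, Prob q → Equi b N k H δ q w →
      |E q (fun ω => ∏ j, ind (α j) (β j) ((b : ℝ) ^ κ j * w ω)) - E q (fun ω => ∏ j, Up d (α j) (β j) ((b : ℝ) ^ κ j * w ω))| ≤
      5 ^ k * k * (2 * d + (6 / d * δ + 4 / (d * H))) := by
    intro q w hq hqE
    rw [← E_sub]
    refine (hq.abs _).trans ((hq.mono fun ω => pt (fun j => (b : ℝ) ^ κ j * w ω)).trans ?_)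
    rw [E_mul, E_sum]
    have h4 : ∀ j ∈ (univ : Finset (Fin k)), E q (fun ω => Up d (α j) (β j) ((b : ℝ) ^ κ j * w ω) - Lo d (α j) (β j) ((b : ℝ) ^ κ j * w ω)) ≤
        2 * d + (6 / d * δ + 4 / (d * H)) := by
      intro j _
      have := hqE.mean hq hb hδ j (κ j) (hκ j) (ta_Dif hH hd0 hd1 (α := α j) (β := β j))
      linarith [(abs_le.1 this).2]
    have h5 : (4 : ℝ) ^ k ≤ 5 ^ k := pow_le_pow_left₀ (by norm_num) (by norm_num) k
    have h6 : 0 ≤ 2 * d + (6 / d * δ + 4 / (d * H)) := by positivity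
    calc 4 ^ k * ∑ j, E q (fun ω => Up d (α j) (β j) ((b : ℝ) ^ κ j * w ω) - Lo d (α j) (β j) ((b : ℝ) ^ κ j * w ω))
        ≤ 4 ^ k * ∑ _j : Fin k, (2 * d + (6 / d * δ + 4 / (d * H))) := by gcongr with j hj; exact h4 j hj
      _ = 4 ^ k * (k * (2 * d + (6 / d * δ + 4 / (d * H)))) := by rw [sum_const, card_univ, Fintype.card_fin, nsmul_eq_mul]
      _ ≤ 5 ^ k * (k * (2 * d + (6 / d * δ + 4 / (d * H)))) := by gcongr
      _ = _ := by ring
  have s1 := side hp hE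
  have s2 := side' hp' hE'
  have h7 := h1.trans (add_le_add le_rfl h2)
  rw [abs_le] at s1 s2 h7 ⊢
  have e8 : 5 ^ k * k * (4 / (d * H) + 2 * (2 * d + (6 / d * δ + 4 / (d * H)))) =
      5 ^ k * k * (4 / (d * H)) + 2 * (5 ^ k * k * (2 * d + (6 / d * δ + 4 / (d * H)))) := by ring
  rw [e8]
  constructor <;> linarith [s1.1, s1.2, s2.1, s2.2, h7.1, h7.2]

end Pool.Agent.V5helper15.RM
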