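import Pool.Agent.V5helper15.RM.Var

/-!
# Decomposition of the walk into functions of digits of a large base
-/

set_option autoImplicit false

namespace Pool.Agent.V5helper15.RM

open Finset Filter Topology

/-- the digit as a natural number -/
noncomputable def dgt (b : ℕ) (z : ℝ) (i : ℕ) : ℕ := (dg b z i).toNat

theorem dgt_cast {b : ℕ} (hb : 0 < b) (z : ℝ) (i : ℕ) : ((dgt b z i : ℕ) : ℤ) = dg b z i :=
  Int.toNat_of_nonneg (Int.emod_nonneg _ (by exact_mod_cast hb.ne'))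

theorem dgF_val {b : ℕ} (hb : 0 < b) (z : ℝ) (i : ℕ) : ((dgF b hb z i : Fin b) : ℕ) = dgt b z i := rfl

theorem dgt_lt {b : ℕ} (hb : 0 < b) (z : ℝ) (i : ℕ) : dgt b z i < b := (dgF b hb z i).2

theorem dgt_shift (b h : ℕ) (z : ℝ) (i : ℕ) : dgt b ((b : ℝ) ^ h * z) i = dgt b z (h + i) := by
  unfold dgt dg
  rw [← mul_assoc, ← pow_add]
  congr 4
  ring

theorem int_mod_div (n : ℤ) (a c : ℕ) : (n % ((a * c : ℕ) : ℤ)) / a = (n / a) % c := by
  rcases Nat.eq_zero_or_pos a with rfl | ha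
  · simp
  · have ha' : (a : ℤ) ≠ 0 := by exact_mod_cast ha.ne'
    rw [Int.emod_def, Int.emod_def, Nat.cast_mul, mul_assoc, Int.sub_mul_ediv_left _ _ ha',
      Int.ediv_ediv_of_nonneg (by positivity)]

theorem wd_dgt {b : ℕ} (hb : 0 < b) {L m : ℕ} (hm : m < L) (z : ℝ) (I : ℕ) :
    wd b L (dgt (b ^ L) z I) m = dgt b z (I * L + m) := by
  have hbL : 0 < b ^ L := Nat.pow_pos hb
  have hb0 : (b : ℝ) ≠ 0 := by exact_mod_cast hb.ne'
  apply Nat.cast_injective (R := ℤ)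
  rw [dgt_cast hb]
  unfold wd
  rw [Int.natCast_mod, Int.natCast_div, dgt_cast hbL]
  unfold dg
  have h1 : (b : ℝ) ^ (I * L + m + 1) * z = ((b ^ L : ℕ) : ℝ) ^ (I + 1) * z / ((b ^ (L - 1 - m) : ℕ) : ℝ) := by
    push_cast
    rw [eq_div_iff (by positivity), mul_right_comm, ← pow_add, ← pow_mul]
    congr 2
    have : L - 1 - m + (m + 1) = L := by omega
    nlinarith
  rw [h1, Int.floor_div_natCast]
  have h2 : b ^ L = b ^ (L - 1 - m) * b ^ (m + 1) := by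
    rw [← pow_add]; congr 1; omega
  rw [h2, int_mod_div]
  apply Int.emod_emod_of_dvd
  push_cast
  exact dvd_pow_self _ (by omega)

variable {b ℓ : ℕ} {F : (Fin ℓ → ℕ) → ℝ}

/-- one block -/
theorem block_dec (hb : 0 < b) (hℓ : 1 ≤ ℓ) {L : ℕ} (hL : 2 * ℓ ≤ L) (z : ℝ) (I : ℕ) :
    ∑ j ∈ range L, (F (wn ℓ (dgt b z) (L * I + j)) - mn b F) =
      gs b F (L + 1 - ℓ) (wd b L (dgt (b ^ L) z I)) + gs b F (ℓ - 1) (wd b L (dgt (b ^ L) ((b : ℝ) ^ (L + 1 - ℓ) * z) I)) := by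
  have h1 : range L = range ((L + 1 - ℓ) + (ℓ - 1)) := by congr 1; omega
  rw [h1, sum_range_add]
  unfold gs
  congr 1
  · refine sum_congr rfl fun j hj => ?_
    rw [mem_range] at hj
    congr 2
    funext m
    unfold wn
    rw [wd_dgt hb (by have := m.2; omega)]
    congr 1
    ring
  · refine sum_congr rfl fun j hj => ?_
    rw [mem_range] at hj
    congr 2
    funext m
    unfold wn
    rw [wd_dgt hb (by have := m.2; omega), dgt_shift]
    congr 1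
    ring

theorem sum_dec (hb : 0 < b) (hℓ : 1 ≤ ℓ) {L : ℕ} (hL : 2 * ℓ ≤ L) (z : ℝ) (m : ℕ) :
    ∑ i ∈ range (L * m), (F (wn ℓ (dgt b z) i) - mn b F) =
      ∑ I ∈ range m, (gs b F (L + 1 - ℓ) (wd b L (dgt (b ^ L) z I)) +
        gs b F (ℓ - 1) (wd b L (dgt (b ^ L) ((b : ℝ) ^ (L + 1 - ℓ) * z) I))) := by
  induction m with
  | zero => simp
  | succ m ih => rw [Nat.mul_succ, sum_range_add, ih, block_dec hb hℓ hL, sum_range_succ]

/-- the walk of `z` -/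
noncomputable def wk (b : ℕ) (F : (Fin ℓ → ℕ) → ℝ) (N : ℕ) (z t : ℝ) : ℝ :=
  (∑ i ∈ range ⌊t * N⌋₊, (F (wn ℓ (dgt b z) i) - mn b F)) / √(N : ℝ)

theorem pw_eq {b' N : ℕ} (f : Fin b' → ℝ) (x : Fin N → Fin b') (X : ℕ → ℝ) (hX : ∀ i : Fin N, f (x i) = X i) {t : ℝ}
    (h1 : t ≤ 1) : pw f x t = (∑ i ∈ range ⌊t * N⌋₊, X i) / √(N : ℝ) := by
  unfold pw
  have h2 : ⌊t * N⌋₊ ≤ N := by
    have : ⌊t * N⌋₊ ≤ ⌊(N : ℝ)⌋₊ := Nat.floor_le_floor (by
      have : (0 : ℝ) ≤ N := Nat.cast_nonneg N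
      nlinarith)
    rwa [Nat.floor_natCast] at this
  rw [SW_eq x h2, ← range_eq_Ico]
  congr 1
  refine sum_congr rfl fun i hi => ?_
  rw [mem_range] at hi
  unfold Xl
  rw [dif_pos (by omega)]
  exact hX ⟨i, by omega⟩

theorem wk_dec (hb : 0 < b) (hℓ : 1 ≤ ℓ) {L : ℕ} (hL : 2 * ℓ ≤ L) {C : ℝ} (hC0 : 0 < C)
    (hC : ∀ w : Fin ℓ → ℕ, (∀ m, w m < b) → |F w - mn b F| ≤ C) {N : ℕ} (hN : L ≤ N) (z : ℝ) {t : ℝ} (h0 : 0 ≤ t) (h1 : t ≤ 1) :
    |wk b F N z t - √((N / L : ℕ) : ℝ) / √(N : ℝ) *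
      (pw (gl b L F (L + 1 - ℓ)) (fun I : Fin (N / L) => dgF (b ^ L) (Nat.pow_pos hb) z I) t +
        pw (gl b L F (ℓ - 1)) (fun I : Fin (N / L) => dgF (b ^ L) (Nat.pow_pos hb) ((b : ℝ) ^ (L + 1 - ℓ) * z) I) t)| ≤
      2 * L * C / √(N : ℝ) := by
  have hL0 : 0 < L := by omega
  have hN' : 0 < N / L := Nat.div_pos hN hL0
  have hN'R : (0 : ℝ) < ((N / L : ℕ) : ℝ) := by exact_mod_cast hN'
  have hN0 : (0 : ℝ) < N := by
    have : 0 < N := by omega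
    exact_mod_cast this
  have hsq : 0 < √(N : ℝ) := Real.sqrt_pos.2 hN0
  have hsq' : 0 < √((N / L : ℕ) : ℝ) := Real.sqrt_pos.2 hN'R
  rw [pw_eq _ _ (fun I => gs b F (L + 1 - ℓ) (wd b L (dgt (b ^ L) z I))) (fun i => rfl) h1,
    pw_eq _ _ (fun I => gs b F (ℓ - 1) (wd b L (dgt (b ^ L) ((b : ℝ) ^ (L + 1 - ℓ) * z) I))) (fun i => rfl) h1,
    ← add_div, ← sum_add_distrib, div_mul_div_comm, mul_comm (√((N / L : ℕ) : ℝ)), mul_div_mul_right _ _ hsq'.ne',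
    ← sum_dec hb hℓ hL z]
  unfold wk
  rw [← sub_div, abs_div, abs_of_pos hsq]
  apply div_le_div_of_nonneg_right _ hsq.le
  -- the numbers of the terms
  set m : ℕ := ⌊t * ((N / L : ℕ) : ℝ)⌋₊ with hm
  set n : ℕ := ⌊t * (N : ℝ)⌋₊ with hn
  have hNL : (N : ℝ) < L * ((N / L : ℕ) : ℝ) + L := by
    have h2 := Nat.div_add_mod N L
    have h3 := Nat.mod_lt N hL0
    have h4 : N < L * (N / L) + L := by omega
    exact_mod_cast h4
  have hNL' : (L : ℝ) * ((N / L : ℕ) : ℝ) ≤ N := by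
    have h2 := Nat.mul_div_le N L
    exact_mod_cast h2
  have hmf : (m : ℝ) ≤ t * ((N / L : ℕ) : ℝ) := Nat.floor_le (by positivity)
  have hmf' : t * ((N / L : ℕ) : ℝ) < m + 1 := Nat.lt_floor_add_one _
  have hnf : (n : ℝ) ≤ t * N := Nat.floor_le (by positivity)
  have hLR : (0 : ℝ) < L := by exact_mod_cast hL0
  have h2 : L * m ≤ n := by
    rw [hn, Nat.le_floor_iff (by positivity)]
    push_cast
    calc (L : ℝ) * m ≤ L * (t * ((N / L : ℕ) : ℝ)) := by gcongr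
      _ = t * (L * ((N / L : ℕ) : ℝ)) := by ring
      _ ≤ t * N := by gcongr
  have h3 : n ≤ L * m + 2 * L := by
    have : (n : ℝ) ≤ ((L * m + 2 * L : ℕ) : ℝ) := by
      push_cast
      calc (n : ℝ) ≤ t * N := hnf
        _ ≤ t * (L * ((N / L : ℕ) : ℝ) + L) := by gcongr
        _ = L * (t * ((N / L : ℕ) : ℝ)) + t * L := by ring
        _ ≤ L * (m + 1) + 1 * L := by gcongr
        _ = L * m + 2 * L := by ring
    exact_mod_cast this
  have h4 : range n = range (L * m + (n - L * m)) := by congr 1; omega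
  rw [h4, sum_range_add, add_sub_cancel_left]
  refine (abs_sum_le_sum_abs _ _).trans ?_
  refine (sum_le_sum fun j _ => hC _ fun k => dgt_lt hb _ _).trans ?_
  rw [sum_const, card_range, nsmul_eq_mul]
  have h5 : ((n - L * m : ℕ) : ℝ) ≤ 2 * L := by
    have : n - L * m ≤ 2 * L := by omega
    exact_mod_cast this
  nlinarith

end Pool.Agent.V5helper15.RM
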