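import Pool.Agent.V5helper15.RM.Char
import Pool.Agent.V5helper57.Win.Main

/-!
# Finite dimensional distributions of the walks of letters
-/

set_option autoImplicit false

namespace Pool.Agent.V5helper15.RM

open Finset Filter Topology MeasureTheory ProbabilityTheory
open Pool.Agent.V5helper57.Win (vlim vlim_zero vlim_pos vlim_sq gr gr_coe gr_pos gr_le comb_char)
open scoped NNReal ENNReal

variable {b : ℕ} {f : Fin b → ℝ} {F : ℝ}

/-- the normalised walk -/
noncomputable def pth {N : ℕ} (f : Fin b → ℝ) (x : Fin N → Fin b) (t : ℝ) : ℝ :=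
  SW f 0 ⌊t * N⌋₊ x / (√(va f) * √(N : ℝ))

/-- a random string -/
structure Smp (b : ℕ) where
  N : ℕ
  Ω : Type
  ft : Fintype Ω
  p : Ω → ℝ
  D : Ω → Fin N → Fin b

attribute [instance] Smp.ft

/-- the letters are nearly independent with the precision `K` -/
structure Smp.Ok (S : Smp b) (K : ℕ) : Prop where
  prob : Prob S.p
  big : K ≤ S.N
  pos : 1 ≤ S.N
  near : Near S.p S.D K (1 / (S.N : ℝ) ^ K)

theorem Smp.Ok.anti {S : Smp b} {K L : ℕ} (h : S.Ok K) (hL : L ≤ K) : S.Ok L where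
  prob := h.prob
  big := hL.trans h.big
  pos := h.pos
  near := fun k hk i d => by
    refine (h.near k (hk.trans hL) i d).trans ?_
    have h1 : (1 : ℝ) ≤ S.N := by exact_mod_cast h.pos
    exact one_div_le_one_div_of_le (by positivity) (pow_le_pow_right₀ h1 hL)

/-- the law of a random vector -/
noncomputable def lawP {Ω : Type} [Fintype Ω] {n : ℕ} (p : Ω → ℝ) (v : Ω → (Fin n → ℝ)) :
    Measure (EuclideanSpace ℝ (Fin n)) :=
  ∑ ω, ENNReal.ofReal (p ω) • Measure.dirac (WithLp.toLp 2 (v ω))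

theorem lawP_prob {Ω : Type} [Fintype Ω] {n : ℕ} {p : Ω → ℝ} (hp : Prob p) (v : Ω → (Fin n → ℝ)) :
    IsProbabilityMeasure (lawP p v) := by
  constructor
  unfold lawP
  rw [Measure.finsetSum_apply]
  have h1 : ∀ ω ∈ (univ : Finset Ω),
      (ENNReal.ofReal (p ω) • Measure.dirac (WithLp.toLp 2 (v ω) : EuclideanSpace ℝ (Fin n))) Set.univ =
      ENNReal.ofReal (p ω) := by
    intro c _
    rw [Measure.smul_apply, Measure.dirac_apply' _ MeasurableSet.univ, smul_eq_mul]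
    simp
  rw [Finset.sum_congr rfl h1, ← ENNReal.ofReal_sum_of_nonneg (fun c _ => hp.nonneg c), hp.one, ENNReal.ofReal_one]

theorem lawP_integral {Ω : Type} [Fintype Ω] {n : ℕ} {V : Type*} [NormedAddCommGroup V] [NormedSpace ℝ V] [CompleteSpace V]
    {p : Ω → ℝ} (hp : Prob p) (v : Ω → (Fin n → ℝ)) (g : EuclideanSpace ℝ (Fin n) → V) :
    ∫ z, g z ∂(lawP p v) = ∑ ω, p ω • g (WithLp.toLp 2 (v ω)) := by
  unfold lawP
  rw [integral_finsetSum_measure]
  · refine Finset.sum_congr rfl fun c _ => ?_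
    rw [integral_smul_measure, integral_dirac, ENNReal.toReal_ofReal (hp.nonneg c)]
  · intro c _
    apply Integrable.smul_measure _ ENNReal.ofReal_ne_top
    exact integrable_dirac (by simp [enorm_lt_top])

theorem lawP_real {Ω : Type} [Fintype Ω] {n : ℕ} {p : Ω → ℝ} (hp : Prob p) (v : Ω → (Fin n → ℝ)) (g : (Fin n → ℝ) → ℝ) :
    ∫ z, g (WithLp.ofLp z) ∂(lawP p v) = E p (fun c => g (v c)) := by
  rw [lawP_integral hp]
  unfold E
  exact Finset.sum_congr rfl fun c _ => by rw [smul_eq_mul]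

theorem lawP_char {Ω : Type} [Fintype Ω] {n : ℕ} {p : Ω → ℝ} (hp : Prob p) (v : Ω → (Fin n → ℝ)) (τ : EuclideanSpace ℝ (Fin n)) :
    charFun (lawP p v) τ = Ec p (fun c => Complex.exp (Complex.I * ((∑ k, τ k * v c k : ℝ) : ℂ))) := by
  rw [charFun_apply, lawP_integral hp]
  unfold Ec
  refine Finset.sum_congr rfl fun c _ => ?_
  rw [Complex.real_smul]
  have e : inner ℝ (WithLp.toLp 2 (v c) : EuclideanSpace ℝ (Fin n)) τ = ∑ k, τ k * v c k := by
    rw [PiLp.inner_apply]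
    refine Finset.sum_congr rfl fun k _ => ?_
    simp
  rw [e]
  dsimp only
  rw [mul_comm Complex.I]

/-- the weights of a linear combination of the values of the walk -/
noncomputable def wts {n : ℕ} (N : ℕ) (σ : ℝ) (τ : Fin n → ℝ) (m : Fin n → ℕ) (i : Fin N) : ℝ :=
  (∑ k, if (i : ℕ) < m k then τ k else 0) / (σ * √(N : ℝ))

theorem comb_eq {n N : ℕ} (τ t : Fin n → ℝ) (x : Fin N → Fin b) :
    ∑ k, τ k * pth f x (t k) = TT f (wts N √(va f) τ (fun k => ⌊t k * N⌋₊)) x := by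
  unfold pth SW TT wts
  have h1 : ∀ k, τ k * ((∑ i : Fin N, (if 0 ≤ (i : ℕ) ∧ (i : ℕ) < ⌊t k * N⌋₊ then (1 : ℝ) else 0) * f (x i)) / (√(va f) * √(N : ℝ))) =
      ∑ i : Fin N, (if (i : ℕ) < ⌊t k * N⌋₊ then τ k else 0) / (√(va f) * √(N : ℝ)) * f (x i) := by
    intro k
    rw [sum_div, mul_sum]
    refine sum_congr rfl fun i _ => ?_
    by_cases hi : (i : ℕ) < ⌊t k * N⌋₊
    · rw [if_pos ⟨Nat.zero_le _, hi⟩, if_pos hi]; ring
    · rw [if_neg (by omega), if_neg hi]; ring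
  simp only [h1]
  rw [sum_comm]
  refine sum_congr rfl fun i _ => ?_
  rw [sum_div, sum_mul]

theorem wts_abs {n N : ℕ} {σ : ℝ} (hσ : 0 < σ) (τ : Fin n → ℝ) (m : Fin n → ℕ) (i : Fin N) :
    |wts N σ τ m i| ≤ ((∑ k, |τ k|) / σ) / √(N : ℝ) := by
  unfold wts
  rw [abs_div, abs_of_nonneg (show 0 ≤ σ * √(N : ℝ) by positivity), div_div]
  apply div_le_div_of_nonneg_right _ (by positivity)
  refine (abs_sum_le_sum_abs _ _).trans (sum_le_sum fun k _ => ?_)
  split_ifs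
  · exact le_rfl
  · rw [abs_zero]; exact abs_nonneg _

theorem wts_var {n N : ℕ} (hN : 1 ≤ N) {σ : ℝ} (hσ : 0 < σ) (τ t : Fin n → ℝ) (ht0 : ∀ k, 0 ≤ t k) (ht1 : ∀ k, t k ≤ 1) :
    |σ ^ 2 * (∑ i : Fin N, wts N σ τ (fun k => ⌊t k * N⌋₊) i ^ 2) - vlim τ t| ≤ (∑ k, |τ k|) ^ 2 / N := by
  have hNR : (0 : ℝ) < N := by exact_mod_cast hN
  have hsq1 : √(N : ℝ) ^ 2 = N := Real.sq_sqrt hNR.le
  obtain ⟨m, hm⟩ : ∃ m : Fin n → ℕ, m = fun k => ⌊t k * N⌋₊ := ⟨_, rfl⟩
  have hmN : ∀ k, m k ≤ N := by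
    intro k
    rw [hm]
    apply Nat.floor_le_of_le
    have := ht1 k
    nlinarith
  have e1 : σ ^ 2 * (∑ i : Fin N, wts N σ τ m i ^ 2) = ∑ k, ∑ l, τ k * τ l * ((min (m k) (m l) : ℕ) : ℝ) / N := by
    have h1 : ∀ i : Fin N, wts N σ τ m i ^ 2 = (∑ k, ∑ l, if (i : ℕ) < min (m k) (m l) then τ k * τ l else 0) / (σ ^ 2 * N) := by
      intro i
      unfold wts
      rw [div_pow, mul_pow, hsq1, sq (∑ k, _), sum_mul_sum]
      congr 1
      refine sum_congr rfl fun k _ => sum_congr rfl fun l _ => ?_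
      by_cases hk : (i : ℕ) < m k
      · by_cases hl : (i : ℕ) < m l
        · rw [if_pos hk, if_pos hl, if_pos (by omega)]
        · rw [if_neg hl, if_neg (show ¬ (i : ℕ) < min (m k) (m l) by omega), mul_zero]
      · rw [if_neg hk, if_neg (show ¬ (i : ℕ) < min (m k) (m l) by omega), zero_mul]
    simp only [h1]
    rw [← sum_div, mul_div_assoc', mul_comm (σ ^ 2) (N : ℝ), mul_comm (σ ^ 2), mul_div_mul_right _ _ (by positivity),
      sum_comm, sum_div]
    refine sum_congr rfl fun k _ => ?_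
    rw [sum_comm, sum_div]
    refine sum_congr rfl fun l _ => ?_
    congr 1
    have h2 := sum_ind (N := N) 0 (min (m k) (m l)) (τ k * τ l) (by have := hmN k; omega)
    simp only [Nat.zero_le, true_and, Nat.sub_zero] at h2
    rw [h2]
    ring
  rw [← hm, e1]
  unfold vlim
  rw [← sum_sub_distrib]
  have e2 : (∑ k, |τ k|) ^ 2 / N = ∑ k, ∑ l, |τ k| * |τ l| * (1 / (N : ℝ)) := by
    rw [sq, sum_mul_sum, sum_div]
    refine sum_congr rfl fun k _ => ?_
    rw [sum_div]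
    exact sum_congr rfl fun l _ => by ring
  rw [e2]
  refine (abs_sum_le_sum_abs _ _).trans (sum_le_sum fun k _ => ?_)
  rw [← sum_sub_distrib]
  refine (abs_sum_le_sum_abs _ _).trans (sum_le_sum fun l _ => ?_)
  have e3 : τ k * τ l * ((min (m k) (m l) : ℕ) : ℝ) / N - τ k * τ l * min (t k) (t l) =
      τ k * τ l * (((min (m k) (m l) : ℕ) : ℝ) / N - min (t k) (t l)) := by ring
  rw [e3, abs_mul, abs_mul]
  refine mul_le_mul_of_nonneg_left ?_ (by positivity)
  -- the difference of the minima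
  have hfl : ∀ k, (m k : ℝ) ≤ t k * N ∧ t k * N < m k + 1 := by
    intro k
    rw [hm]
    exact ⟨Nat.floor_le (by have := ht0 k; positivity), Nat.lt_floor_add_one _⟩
  have hmin : ((min (m k) (m l) : ℕ) : ℝ) = min (m k : ℝ) (m l) := by push_cast; rfl
  rw [hmin, abs_le]
  obtain ⟨a1, a2⟩ := hfl k
  obtain ⟨c1, c2⟩ := hfl l
  constructor
  · rw [neg_le_sub_iff_le_add, ← add_div, le_div_iff₀ hNR]
    rcases le_total (m k : ℝ) (m l) with h | h
    · rw [min_eq_left h]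
      have := mul_le_mul_of_nonneg_right (min_le_left (t k) (t l)) hNR.le
      linarith
    · rw [min_eq_right h]
      have := mul_le_mul_of_nonneg_right (min_le_right (t k) (t l)) hNR.le
      linarith
  · rw [sub_le_iff_le_add, div_le_iff₀ hNR, add_mul, one_div_mul_cancel hNR.ne']
    rcases le_total (t k) (t l) with h | h
    · rw [min_eq_left h]
      have := min_le_left (m k : ℝ) (m l)
      linarith
    · rw [min_eq_right h]
      have := min_le_right (m k : ℝ) (m l)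
      linarith

/-- **Limit of the characteristic functions of the finite dimensional distributions.** -/
theorem Cen.char_lim (h : Cen f F) (hv : 0 < va f) {n : ℕ} (τ t : Fin n → ℝ) (ht0 : ∀ k, 0 ≤ t k) (ht1 : ∀ k, t k ≤ 1)
    (hvl : 0 ≤ vlim τ t) {δ : ℝ} (hδ : 0 < δ) :
    ∃ K : ℕ, ∀ S : Smp b, S.Ok K →
      ‖Ec S.p (fun ω => Complex.exp (Complex.I * ((∑ k, τ k * pth f (S.D ω) (t k) : ℝ) : ℂ))) -
        ((Real.exp (-(vlim τ t / 2)) : ℝ) : ℂ)‖ ≤ δ := by
  have hσ : 0 < √(va f) := Real.sqrt_pos.2 hv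
  have hσ2 : √(va f) ^ 2 = va f := Real.sq_sqrt hv.le
  set A := ∑ k, |τ k| with hA
  have hA0 : 0 ≤ A := by positivity
  obtain ⟨K, N0, hK⟩ := h.char_main (S := A / √(va f) + 1) (by positivity) (δ := δ / 2) (by positivity)
  obtain ⟨N1, hN1⟩ := exists_nat_gt (A ^ 2 / δ)
  refine ⟨max K (max N0 (N1 + 1)), fun S hS => ?_⟩
  have hSN0 : N0 ≤ S.N := ((le_max_left _ _).trans (le_max_right _ _)).trans hS.big
  have hSN1 : N1 + 1 ≤ S.N := ((le_max_right _ _).trans (le_max_right _ _)).trans hS.big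
  have hNR : (0 : ℝ) < S.N := by exact_mod_cast hS.pos
  have hN1R : (N1 : ℝ) ≤ S.N := by exact_mod_cast (by omega : N1 ≤ S.N)
  have h1 := hK S.N hSN0 S.p hS.prob S.D (hS.anti (le_max_left _ _)).near
    (wts S.N √(va f) τ (fun k => ⌊t k * S.N⌋₊)) (fun i => by
      refine (wts_abs hσ τ _ i).trans ?_
      apply div_le_div_of_nonneg_right _ (Real.sqrt_nonneg _)
      linarith)
  have h2 := wts_var (N := S.N) hS.pos hσ τ t ht0 ht1
  rw [hσ2] at h2
  simp only [comb_eq]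
  set V := va f * ∑ i : Fin S.N, wts S.N √(va f) τ (fun k => ⌊t k * S.N⌋₊) i ^ 2 with hV
  have hV0 : 0 ≤ V := by rw [hV]; positivity
  have h3 : ‖Complex.exp (((-(V / 2) : ℝ) : ℂ)) - ((Real.exp (-(vlim τ t / 2)) : ℝ) : ℂ)‖ ≤ δ / 2 := by
    rw [← Complex.ofReal_exp, ← Complex.ofReal_sub, Complex.norm_real, Real.norm_eq_abs]
    have h4 : |Real.exp (-(V / 2)) - Real.exp (-(vlim τ t / 2))| ≤ |V / 2 - vlim τ t / 2| := by
      have key : ∀ a c : ℝ, 0 ≤ a → a ≤ c → |Real.exp (-a) - Real.exp (-c)| ≤ c - a := by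
        intro a c ha hac
        have h5 : Real.exp (-c) ≤ Real.exp (-a) := Real.exp_le_exp.2 (by linarith)
        rw [abs_of_nonneg (by linarith)]
        have h6 : Real.exp (-a) ≤ 1 := Real.exp_le_one_iff.2 (by linarith)
        have h7 : Real.exp (-c) = Real.exp (-a) * Real.exp (-(c - a)) := by rw [← Real.exp_add]; congr 1; ring
        have h8 := Real.add_one_le_exp (-(c - a))
        rw [h7]
        have h9 := Real.exp_pos (-a)
        have h10 : 0 ≤ c - a := by linarith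
        nlinarith
      rcases le_total (V / 2) (vlim τ t / 2) with h5 | h5
      · have := key _ _ (by linarith) h5
        rwa [abs_sub_comm (V / 2), abs_of_nonneg (sub_nonneg.2 h5)]
      · have := key _ _ (by linarith) h5
        rw [abs_sub_comm] at this
        rwa [abs_of_nonneg (sub_nonneg.2 h5)]
    refine h4.trans ?_
    have h5 : |V / 2 - vlim τ t / 2| = |V - vlim τ t| / 2 := by
      rw [← sub_div, abs_div, abs_of_pos (by norm_num : (0 : ℝ) < 2)]
    rw [h5]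
    have h6 : A ^ 2 / (S.N : ℝ) ≤ δ := by
      rw [div_le_iff₀ hNR]
      rw [div_lt_iff₀ hδ] at hN1
      nlinarith
    linarith
  have h1' : ‖Ec S.p (fun ω => Complex.exp (Complex.I * ((TT f (wts S.N √(va f) τ (fun k => ⌊t k * S.N⌋₊)) (S.D ω) : ℝ) : ℂ))) -
      Complex.exp (((-(V / 2) : ℝ) : ℂ))‖ ≤ δ / 2 := h1
  refine (norm_sub_le_norm_sub_add_norm_sub _ (Complex.exp (((-(V / 2) : ℝ) : ℂ))) _).trans ?_
  linarith

variable {Ω : Type*} [MeasurableSpace Ω] {P : Measure Ω} {W : ℝ≥0 → Ω → ℝ}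

/-- **Convergence of the finite dimensional distributions.** -/
theorem Cen.fdd (h : Cen f F) (hv : 0 < va f) (hW : IsPreBrownianReal W P) {n : ℕ} (hn : 0 < n) (g : (Fin n → ℝ) → ℝ)
    (hg : Continuous g) {Mb : ℝ} (hMb : ∀ v, |g v| ≤ Mb) {ε : ℝ} (hε : 0 < ε) :
    ∃ K : ℕ, ∀ S : Smp b, S.Ok K →
      |E S.p (fun c => g (fun k => pth f (S.D c) (((k : ℕ) + 1 : ℝ) / n))) - ∫ ω, g (fun k => W (gr n k) ω) ∂P| ≤ ε := by
  classical
  by_contra hcon
  push Not at hcon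
  choose Ds hDs hbad using hcon
  have hPr : IsProbabilityMeasure P := hW.isGaussianProcess.isProbabilityMeasure
  obtain ⟨v, hvd⟩ : ∃ v : ∀ j, (Ds j).Ω → (Fin n → ℝ), v = fun j c (k : Fin n) => pth f ((Ds j).D c) (((k : ℕ) + 1 : ℝ) / n) := ⟨_, rfl⟩
  have hm0 : AEMeasurable (fun ω => (fun k => W (gr n k) ω : Fin n → ℝ)) P :=
    aemeasurable_pi_lambda _ fun k => hW.aemeasurable _
  have hmeas : AEMeasurable (fun ω => (WithLp.toLp 2 (fun k => W (gr n k) ω) : EuclideanSpace ℝ (Fin n))) P :=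
    (WithLp.measurable_toLp 2 (Fin n → ℝ)).comp_aemeasurable hm0
  obtain ⟨ν0, hν0⟩ : ∃ ν0 : Measure (EuclideanSpace ℝ (Fin n)),
    ν0 = P.map (fun ω => (WithLp.toLp 2 (fun k => W (gr n k) ω) : EuclideanSpace ℝ (Fin n))) := ⟨_, rfl⟩
  have hν0P : IsProbabilityMeasure ν0 := by rw [hν0]; exact Measure.isProbabilityMeasure_map hmeas
  obtain ⟨μ, hμ⟩ : ∃ μ : ℕ → ProbabilityMeasure (EuclideanSpace ℝ (Fin n)),
    μ = fun j => ⟨lawP (Ds j).p (v j), lawP_prob (hDs j).prob (v j)⟩ := ⟨_, rfl⟩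
  obtain ⟨ν, hν⟩ : ∃ ν : ProbabilityMeasure (EuclideanSpace ℝ (Fin n)), ν = ⟨ν0, hν0P⟩ := ⟨_, rfl⟩
  have hvl : ∀ τ : Fin n → ℝ, 0 ≤ vlim τ (fun k : Fin n => ((k : ℕ) + 1 : ℝ) / n) := by
    intro τ
    rw [vlim_sq]
    positivity
  have hcharν : ∀ τ : EuclideanSpace ℝ (Fin n), charFun ν0 τ =
      ((Real.exp (-(vlim (fun k => τ k) (fun k : Fin n => ((k : ℕ) + 1 : ℝ) / n) / 2)) : ℝ) : ℂ) := by
    intro τ
    have hvl' : 0 ≤ vlim (fun k => τ k) (fun k => ((gr n k : ℝ≥0) : ℝ)) := by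
      rw [gr_coe]
      exact hvl _
    have h1 := comb_char hW (fun k => τ k) (gr n) hvl'
    rw [gr_coe] at h1
    rw [← h1, hν0, charFun_apply, integral_map hmeas (by fun_prop)]
    refine integral_congr_ae (Filter.Eventually.of_forall fun ω => ?_)
    have e : inner ℝ (WithLp.toLp 2 (fun k => W (gr n k) ω) : EuclideanSpace ℝ (Fin n)) τ = ∑ k, τ k * W (gr n k) ω := by
      rw [PiLp.inner_apply]
      refine Finset.sum_congr rfl fun k _ => ?_
      simp
    simp only [e]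
  have hconv : Tendsto μ atTop (𝓝 ν) := by
    rw [ProbabilityMeasure.tendsto_iff_tendsto_charFun]
    intro τ
    rw [hν, hμ]
    change Tendsto (fun j => charFun (lawP (Ds j).p (v j)) τ) atTop (𝓝 (charFun ν0 τ))
    rw [hcharν τ, Metric.tendsto_atTop]
    intro δ hδ
    obtain ⟨N, hN⟩ := h.char_lim hv (fun k => τ k) (fun k : Fin n => ((k : ℕ) + 1 : ℝ) / n) (fun k => (gr_pos hn k).le)
      gr_le (hvl _) (half_pos hδ)
    refine ⟨N, fun j hj => ?_⟩
    rw [dist_eq_norm, lawP_char (hDs j).prob, hvd]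
    exact lt_of_le_of_lt (hN (Ds j) ((hDs j).anti hj)) (by linarith)
  rw [ProbabilityMeasure.tendsto_iff_forall_integral_tendsto] at hconv
  have hgc : Continuous (fun z : EuclideanSpace ℝ (Fin n) => g (WithLp.ofLp z)) :=
    hg.comp (PiLp.continuous_ofLp 2 _)
  have h0 := hconv (BoundedContinuousFunction.ofNormedAddCommGroup (fun z : EuclideanSpace ℝ (Fin n) => g (WithLp.ofLp z)) hgc Mb
    (fun z => by rw [Real.norm_eq_abs]; exact hMb _))
  simp only [BoundedContinuousFunction.coe_ofNormedAddCommGroup, hμ, hν] at h0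
  change Tendsto (fun j => ∫ z, g (WithLp.ofLp z) ∂(lawP (Ds j).p (v j))) atTop (𝓝 (∫ z, g (WithLp.ofLp z) ∂ν0)) at h0
  have h0' : (fun j => ∫ z, g (WithLp.ofLp z) ∂(lawP (Ds j).p (v j))) = fun j => E (Ds j).p (fun c => g (v j c)) := by
    funext j
    exact lawP_real (hDs j).prob (v j) g
  rw [h0', hν0, integral_map hmeas hgc.aestronglyMeasurable] at h0
  rw [Metric.tendsto_atTop] at h0
  obtain ⟨N, hN⟩ := h0 ε hε
  have h6 := hN N le_rfl
  rw [Real.dist_eq, hvd] at h6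
  have h7 := hbad N
  linarith

end Pool.Agent.V5helper15.RM
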