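import Pool.Agent.V5helper15.RM.Win
import Pool.Agent.R485.Mult.Dioph

/-!
# Random multiples of algebraic numbers: the general statement
-/

set_option autoImplicit false

namespace Pool.Agent.V5helper15.RM

open Finset Filter Topology
open Pool.Agent.H469R2.NK (e norm_e e_add e_zero conj_e)
open Pool.Agent.R485.Mult (dioph)

/-- The random integer `a` has small exponential sums: at all points which are not near to a rational number with a small
denominator. -/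
def Spread {Ω : Type*} [Fintype Ω] (p : Ω → ℝ) (a : Ω → ℤ) (Q η δ : ℝ) : Prop :=
  ∀ θ : ℝ, (∀ q : ℕ, 1 ≤ q → (q : ℝ) ≤ Q → ∀ P : ℤ, η < |q * θ - P|) → ‖Ec p (fun ω => e (a ω * θ))‖ ≤ δ

theorem equi_of_spread (b : ℕ) (hb : 2 ≤ b) (x : ℝ) (hx : IsAlgebraic ℚ x) (hirr : Irrational x) (k : ℕ) (ε : ℝ) (hε : 0 < ε) :
    ∃ κ : ℝ, 0 < κ ∧ ∃ N0 : ℕ, ∀ N : ℕ, N0 ≤ N → ∀ {Ω : Type} [Fintype Ω] (p : Ω → ℝ) (a : Ω → ℤ) (y δ : ℝ),
      Spread p a (Real.exp (κ * N)) (Real.exp (-(ε * N))) δ →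
      Equi b N k ⌊Real.exp (κ * N)⌋₊ δ p (fun ω => y + a ω * x) := by
  obtain ⟨κ, hκ, N0, h⟩ := dioph b hb x hx hirr k ε hε
  refine ⟨κ / 2, by positivity, N0, fun N hN Ω _ p a y δ hS => ?_⟩
  intro κ' hκ' hh hhb h0
  set Λ : ℝ := ∑ j, (hh j : ℝ) * (b : ℝ) ^ κ' j with hΛ
  have h1 := hS (x * Λ) (by
    intro q hq1 hq2 P
    have h2 := h N hN κ' hκ' (fun j => (q : ℤ) * hh j) (fun j => by
      have h3 : |(((q : ℤ) * hh j : ℤ) : ℝ)| = q * |(hh j : ℝ)| := by
        push_cast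
        rw [abs_mul, abs_of_nonneg (Nat.cast_nonneg q)]
      rw [h3]
      have h4 : |(hh j : ℝ)| ≤ Real.exp (κ / 2 * N) := by
        have h5 : ((|hh j| : ℤ) : ℝ) ≤ ((⌊Real.exp (κ / 2 * N)⌋₊ : ℤ) : ℝ) := by exact_mod_cast hhb j
        rw [Int.cast_abs] at h5
        refine h5.trans ?_
        have := Nat.floor_le (Real.exp_pos (κ / 2 * N)).le
        exact_mod_cast this
      calc (q : ℝ) * |(hh j : ℝ)| ≤ Real.exp (κ / 2 * N) * Real.exp (κ / 2 * N) := by gcongr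
        _ = Real.exp (κ * N) := by rw [← Real.exp_add]; congr 1; ring) (by
      have h3 : ∑ j, (q : ℤ) * hh j * (b : ℤ) ^ κ' j = q * ∑ j, hh j * (b : ℤ) ^ κ' j := by
        rw [mul_sum]; exact sum_congr rfl fun j _ => by ring
      rw [h3]
      exact mul_ne_zero (by omega) h0) P
    have h3 : x * ∑ j, (((q : ℤ) * hh j : ℤ) : ℝ) * (b : ℝ) ^ κ' j = q * (x * Λ) := by
      rw [hΛ]
      push_cast
      rw [mul_sum, mul_sum, mul_sum]
      exact sum_congr rfl fun j _ => by ring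
    rw [h3] at h2
    exact h2)
  have h4 : Ec p (fun ω => e (Λ * (y + a ω * x))) = e (Λ * y) * Ec p (fun ω => e (a ω * (x * Λ))) := by
    rw [← Ec_mul]
    congr 1
    funext ω
    rw [← e_add]
    congr 1
    ring
  rw [h4, norm_mul, norm_e, one_mul]
  exact h1

/-- **Windows of digits of random multiples.** -/
theorem windows_main (b : ℕ) (hb : 2 ≤ b) (x : ℝ) (hx : IsAlgebraic ℚ x) (hirr : Irrational x) (k : ℕ) (ε : ℝ) (hε : 0 < ε) :
    ∃ κ : ℝ, 0 < κ ∧ ∀ c : ℝ, 0 < c → ∃ τ : ℝ, 0 < τ ∧ ∃ N0 : ℕ, ∀ N : ℕ, N0 ≤ N →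
      ∀ {Ω : Type} [Fintype Ω] (p : Ω → ℝ) (a : Ω → ℤ) (y : ℝ), Prob p →
      Spread p a (Real.exp (κ * N)) (Real.exp (-(ε * N))) (Real.exp (-(c * N))) →
      ∀ (u l : Fin k → ℕ) (_ : ∀ j, u j ≤ N) (d : Fin k → ℕ → ℕ) (_ : ∀ j i, d j i < b) {N' : ℕ}
        (_ : k * ⌊Real.exp (κ * N)⌋₊ * b ^ N < b ^ N') (hl : ∀ j, u j + l j ≤ N'),
      |E p (fun ω => if ∀ j, ∀ i < l j, dg b (y + a ω * x) (u j + i) = d j i then 1 else 0) -
        E (un b N') (fun x => if ∀ j, ∀ i (hi : i < l j), (x ⟨u j + i, lt_of_lt_of_le (Nat.add_lt_add_left hi _) (hl j)⟩ : ℕ) = d j i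
          then 1 else 0)| ≤ Real.exp (-(τ * N)) := by
  obtain ⟨κ, hκ, N1, h⟩ := equi_of_spread b hb x hx hirr k ε hε
  refine ⟨κ, hκ, fun c hc => ?_⟩
  set τ : ℝ := min κ c / (2 * (k + 1)) with hτ
  have hmin : 0 < min κ c := lt_min hκ hc
  have hτ0 : 0 < τ := by positivity
  have hk1 : (1 : ℝ) ≤ k + 1 := by
    have : (0 : ℝ) ≤ k := Nat.cast_nonneg k
    linarith
  have hτ1 : (k + 1) * τ = min κ c / 2 := by rw [hτ]; field_simp
  have hτk : k * τ ≤ c / 2 := by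
    have := min_le_right κ c
    nlinarith
  have hτκ : τ ≤ κ / 2 := by
    have := min_le_left κ c
    nlinarith
  have hτc : τ ≤ c / 2 := by
    have := min_le_right κ c
    nlinarith
  set C : ℝ := 2 * 4 ^ k + 5 ^ k * k * 44 with hC
  have hC0 : 0 ≤ C := by positivity
  have hev : ∀ᶠ N : ℕ in atTop, C ≤ Real.exp (τ / 2 * N) ∧ 4 ≤ Real.exp (κ / 2 * N) := by
    have t1 : ∀ r : ℝ, 0 < r → Tendsto (fun N : ℕ => Real.exp (r * N)) atTop atTop := fun r hr =>
      Real.tendsto_exp_atTop.comp (tendsto_natCast_atTop_atTop.const_mul_atTop hr)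
    filter_upwards [(t1 (τ / 2) (by positivity)).eventually_ge_atTop C, (t1 (κ / 2) (by positivity)).eventually_ge_atTop 4] with N h1 h2
    exact ⟨h1, h2⟩
  obtain ⟨N2, hN2⟩ := eventually_atTop.1 hev
  refine ⟨τ / 2, by positivity, max N1 N2, fun N hN Ω _ p a y hp hS u l hu d hd N' hN' hl => ?_⟩
  obtain ⟨hb1, hb2⟩ := hN2 N ((le_max_right _ _).trans hN)
  have hE := h N ((le_max_left _ _).trans hN) p a y _ hS
  set H : ℕ := ⌊Real.exp (κ * N)⌋₊ with hH
  set t : ℝ := Real.exp (-(τ * N)) with ht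
  have ht0 : 0 < t := Real.exp_pos _
  have hNN : (0 : ℝ) ≤ N := Nat.cast_nonneg N
  have ht1 : t ≤ 1 := Real.exp_le_one_iff.2 (by nlinarith)
  have hH1 : Real.exp (κ * N) / 2 ≤ H := by
    have h1 : Real.exp (κ * N) < H + 1 := Nat.lt_floor_add_one _
    have h2 : 4 ≤ Real.exp (κ * N) := hb2.trans (Real.exp_le_exp.2 (by nlinarith))
    linarith
  have hHpos : 0 < Real.exp (κ * N) := Real.exp_pos _
  have hH2 : 1 ≤ H := by
    have h2 : 4 ≤ Real.exp (κ * N) := hb2.trans (Real.exp_le_exp.2 (by nlinarith))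
    have : (1 : ℝ) ≤ H := by linarith
    exact_mod_cast this
  have htH' : Real.exp (κ / 2 * N) / 2 ≤ t * H := by
    have h1 : t * (Real.exp (κ * N) / 2) ≤ t * H := mul_le_mul_of_nonneg_left hH1 ht0.le
    refine le_trans ?_ h1
    have h2 : t * (Real.exp (κ * N) / 2) = Real.exp (κ * N - τ * N) / 2 := by
      rw [ht, mul_div_assoc', ← Real.exp_add]; congr 2; ring
    rw [h2]
    have : Real.exp (κ / 2 * N) ≤ Real.exp (κ * N - τ * N) := Real.exp_le_exp.2 (by nlinarith)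
    linarith
  -- large H
  · have htH : 2 ≤ t * H := by linarith
    have hδ0 : 0 ≤ Real.exp (-(c * N)) := (Real.exp_pos _).le
    have h5 := hE.windows hp (by omega) hδ0 hH2 ht0 ht1 htH u l hu d hd hN' hl
    refine h5.trans ?_
    -- estimate
    have ha : 2 * Real.exp (-(c * N)) * (4 / t) ^ k ≤ 2 * 4 ^ k * t := by
      have h6 : (4 / t) ^ k = 4 ^ k * Real.exp (k * (τ * N)) := by
        rw [div_pow, ht, ← Real.exp_nat_mul, div_eq_mul_inv, ← Real.exp_neg]
        congr 2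
        ring
      rw [h6]
      have h7 : Real.exp (-(c * N)) * Real.exp (k * (τ * N)) ≤ t := by
        rw [ht, ← Real.exp_add]
        apply Real.exp_le_exp.2
        nlinarith
      calc 2 * Real.exp (-(c * N)) * (4 ^ k * Real.exp (k * (τ * N))) = 2 * 4 ^ k * (Real.exp (-(c * N)) * Real.exp (k * (τ * N))) := by ring
        _ ≤ 2 * 4 ^ k * t := by gcongr
    have hbb : 4 / (t * H) ≤ 8 * t := by
      rw [div_le_iff₀ (by positivity)]
      have h6 : Real.exp (κ / 2 * N) * t ≥ 1 := by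
        rw [ht, ← Real.exp_add]
        exact Real.one_le_exp (by nlinarith)
      nlinarith
    have hcc : 6 / t * Real.exp (-(c * N)) ≤ 6 * t := by
      rw [div_mul_eq_mul_div, div_le_iff₀ ht0]
      have h6 : Real.exp (-(c * N)) ≤ t * t := by
        rw [ht, ← Real.exp_add]
        apply Real.exp_le_exp.2
        nlinarith
      nlinarith
    have hdd : 5 ^ k * (k : ℝ) * (4 / (t * H) + 2 * (2 * t + (6 / t * Real.exp (-(c * N)) + 4 / (t * H)))) ≤ 5 ^ k * k * (44 * t) := by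
      refine mul_le_mul_of_nonneg_left ?_ (by positivity)
      linarith
    have hee : 2 * Real.exp (-(c * N)) * (4 / t) ^ k + 5 ^ k * (k : ℝ) * (4 / (t * H) + 2 * (2 * t + (6 / t * Real.exp (-(c * N)) + 4 / (t * H)))) ≤
        C * t := by
      rw [hC]
      nlinarith
    refine hee.trans ?_
    have h8 : Real.exp (τ / 2 * N) * t = Real.exp (-(τ / 2 * N)) := by
      rw [ht, ← Real.exp_add]; congr 1; ring
    rw [← h8]
    gcongr

end Pool.Agent.V5helper15.RM
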