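import Pool.Agent.V5helper15.RM.Ref

/-!
# Moments and characteristic functions of weighted sums of random letters
-/

set_option autoImplicit false

namespace Pool.Agent.V5helper15.RM

open Finset

variable {b N : ℕ} {f : Fin b → ℝ} {F : ℝ}

/-- a centred function of the letters with the bound `F` -/
structure Cen (f : Fin b → ℝ) (F : ℝ) : Prop where
  b0 : 0 < b
  mean : ∑ d, f d = 0
  F0 : 0 < F
  bd : ∀ d, |f d| ≤ F

/-- the variance -/
noncomputable def va (f : Fin b → ℝ) : ℝ := (∑ d, f d ^ 2) / b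

theorem Cen.va0 (_h : Cen f F) : 0 ≤ va f := by unfold va; positivity

theorem Cen.va_le (h : Cen f F) : va f ≤ F ^ 2 := by
  have hb : (0 : ℝ) < b := by exact_mod_cast h.b0
  unfold va
  rw [div_le_iff₀ hb]
  calc ∑ d, f d ^ 2 ≤ ∑ _d : Fin b, F ^ 2 := sum_le_sum fun d _ => by
        rw [← sq_abs]; exact pow_le_pow_left₀ (abs_nonneg _) (h.bd d) 2
    _ = F ^ 2 * b := by simp; ring

theorem Cen.exp (h : Cen f F) (s : Fin N → ℝ) (hs : ∀ i, |s i| * F ≤ 1) :
    E (un b N) (fun x => Real.exp (TT f s x)) ≤ Real.exp (F ^ 2 * ∑ i, s i ^ 2) := by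
  have hb : (0 : ℝ) < b := by exact_mod_cast h.b0
  have h1 : ∀ x : Fin N → Fin b, Real.exp (TT f s x) = ∏ i, (fun i d => Real.exp (s i * f d)) i (x i) := by
    intro x
    unfold TT
    rw [Real.exp_sum]
  rw [show (fun x => Real.exp (TT f s x)) = _ from funext h1, un_prodR N (fun i d => Real.exp (s i * f d)),
    mul_sum, Real.exp_sum]
  refine prod_le_prod (fun i _ => by positivity) fun i _ => ?_
  have h2 : ∀ d, Real.exp (s i * f d) ≤ 1 + s i * f d + s i ^ 2 * F ^ 2 := by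
    intro d
    have h3 : |s i * f d| ≤ |s i| * F := by
      rw [abs_mul]; exact mul_le_mul_of_nonneg_left (h.bd d) (abs_nonneg _)
    have h4 := Real.abs_exp_sub_one_sub_id_le (h3.trans (hs i))
    have h5 : (s i * f d) ^ 2 ≤ s i ^ 2 * F ^ 2 := by
      rw [← sq_abs, ← sq_abs (s i), ← mul_pow]
      exact pow_le_pow_left₀ (abs_nonneg _) h3 2
    linarith [(abs_le.1 h4).2]
  have h6 : (∑ d, Real.exp (s i * f d)) / b ≤ 1 + F ^ 2 * s i ^ 2 := by
    rw [div_le_iff₀ hb]
    refine (sum_le_sum fun d _ => h2 d).trans (le_of_eq ?_)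
    rw [sum_add_distrib, sum_add_distrib, ← mul_sum, h.mean]
    simp
    ring
  refine h6.trans ?_
  have := Real.add_one_le_exp (F ^ 2 * s i ^ 2)
  linarith

theorem TT_smul (f : Fin b → ℝ) (s : Fin N → ℝ) (c : ℝ) (x : Fin N → Fin b) :
    TT f (fun i => c * s i) x = c * TT f s x := by
  unfold TT
  rw [mul_sum]
  exact sum_congr rfl fun _ _ => by ring

theorem Cen.even (h : Cen f F) (s : Fin N → ℝ) {lam : ℝ} (hl : 0 < lam) (hs : ∀ i, lam * |s i| * F ≤ 1) (m : ℕ) :
    E (un b N) (fun x => TT f s x ^ (2 * m)) ≤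
      (2 * m).factorial * (2 * Real.exp (lam ^ 2 * F ^ 2 * ∑ i, s i ^ 2)) / lam ^ (2 * m) := by
  have hfac : (0 : ℝ) < (2 * m).factorial := by positivity
  have hp := un_prob h.b0 N
  have hexp : ∀ c : ℝ, c ^ 2 = lam ^ 2 → E (un b N) (fun x => Real.exp (c * TT f s x)) ≤
      Real.exp (lam ^ 2 * F ^ 2 * ∑ i, s i ^ 2) := by
    intro c hc
    have hc2 : |c| = lam := by
      have := (sq_eq_sq_iff_abs_eq_abs c lam).1 hc
      rwa [abs_of_pos hl] at this
    have h1 := h.exp (fun i => c * s i) (fun i => by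
      rw [abs_mul, hc2]; exact hs i)
    have h2 : F ^ 2 * ∑ i, (c * s i) ^ 2 = lam ^ 2 * F ^ 2 * ∑ i, s i ^ 2 := by
      rw [← hc, mul_sum, mul_sum]
      exact sum_congr rfl fun _ _ => by ring
    rw [h2] at h1
    refine le_trans (le_of_eq ?_) h1
    congr 1
    funext x
    rw [TT_smul]
  have hpt : ∀ x : Fin N → Fin b, TT f s x ^ (2 * m) ≤
      (2 * m).factorial / lam ^ (2 * m) * (Real.exp (lam * TT f s x) + Real.exp (-lam * TT f s x)) := by
    intro x
    set T := TT f s x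
    have h1 := Real.pow_div_factorial_le_exp (|lam * T|) (abs_nonneg _) (2 * m)
    have h2 : |lam * T| ^ (2 * m) = lam ^ (2 * m) * T ^ (2 * m) := by
      rw [pow_mul, sq_abs, ← pow_mul, mul_pow]
    rw [h2] at h1
    have h3 : Real.exp |lam * T| ≤ Real.exp (lam * T) + Real.exp (-lam * T) := by
      rcases le_total 0 (lam * T) with h4 | h4
      · rw [abs_of_nonneg h4]
        have := Real.exp_pos (-lam * T)
        linarith
      · rw [abs_of_nonpos h4]
        have := Real.exp_pos (lam * T)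
        rw [neg_mul]
        linarith
    have h5 := h1.trans h3
    rw [div_le_iff₀ hfac] at h5
    rw [div_mul_eq_mul_div, le_div_iff₀ (by positivity)]
    linarith
  refine (hp.mono hpt).trans ?_
  rw [E_mul, E_add]
  have h6 := hexp lam rfl
  have h7 := hexp (-lam) (by ring)
  have h8 : (0 : ℝ) ≤ (2 * m).factorial / lam ^ (2 * m) := by positivity
  calc _ ≤ (2 * m).factorial / lam ^ (2 * m) * (Real.exp (lam ^ 2 * F ^ 2 * ∑ i, s i ^ 2) +
        Real.exp (lam ^ 2 * F ^ 2 * ∑ i, s i ^ 2)) := mul_le_mul_of_nonneg_left (add_le_add h6 h7) h8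
    _ = _ := by ring

/-- the characteristic function in the model -/
theorem Cen.char (h : Cen f F) (s : Fin N → ℝ) (hs : ∀ i, |s i| * F ≤ 1) :
    ‖Ec (un b N) (fun x => Complex.exp (Complex.I * (TT f s x : ℝ))) -
      Complex.exp (((-(va f * (∑ i, s i ^ 2) / 2) : ℝ) : ℂ))‖ ≤ F ^ 3 * ∑ i, |s i| ^ 3 := by
  have hb : (0 : ℝ) < b := by exact_mod_cast h.b0
  have hbc : (b : ℂ) ≠ 0 := by exact_mod_cast h.b0.ne'
  have hF := h.F0
  have h1 : ∀ x : Fin N → Fin b, Complex.exp (Complex.I * (TT f s x : ℝ)) =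
      ∏ i, (fun i d => Complex.exp (Complex.I * ((s i * f d : ℝ) : ℂ))) i (x i) := by
    intro x
    unfold TT
    rw [← Complex.exp_sum]
    congr 1
    push_cast
    rw [mul_sum]
  have h2 : Complex.exp (((-(va f * (∑ i, s i ^ 2) / 2) : ℝ) : ℂ)) =
      ∏ i : Fin N, Complex.exp (((-(va f * s i ^ 2 / 2) : ℝ) : ℂ)) := by
    rw [← Complex.exp_sum]
    congr 1
    rw [← Complex.ofReal_sum]
    congr 1
    rw [sum_neg_distrib, ← sum_div, ← mul_sum]
  rw [show (fun x => Complex.exp (Complex.I * (TT f s x : ℝ))) = _ from funext h1,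
    un_prod N (fun i d => Complex.exp (Complex.I * ((s i * f d : ℝ) : ℂ))), h2, mul_sum]
  have hnorm1 : ∀ y : ℝ, ‖Complex.exp (Complex.I * (y : ℂ))‖ = 1 := by
    intro y; rw [mul_comm]; exact Complex.norm_exp_ofReal_mul_I y
  refine (prod_diff univ _ _ (fun i _ => ?_) (fun i _ => ?_)).trans (sum_le_sum fun i _ => ?_)
  · rw [norm_div, Complex.norm_natCast, div_le_one hb]
    refine (norm_sum_le _ _).trans ?_
    simp only [hnorm1]
    simp
  · rw [Complex.norm_exp, Complex.ofReal_re, Real.exp_le_one_iff]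
    have := h.va0
    have : 0 ≤ va f * s i ^ 2 / 2 := by positivity
    linarith
  · -- one factor
    have hsi := hs i
    set σ := va f * s i ^ 2 / 2 with hσ
    have hσ0 : 0 ≤ σ := by have := h.va0; positivity
    have hσ1 : σ ≤ (|s i| * F) ^ 2 / 2 := by
      rw [hσ, mul_pow, sq_abs]
      have := mul_le_mul_of_nonneg_right h.va_le (sq_nonneg (s i))
      linarith
    have e1 : ∀ d, ‖Complex.exp (Complex.I * ((s i * f d : ℝ) : ℂ)) -
        (1 + Complex.I * ((s i * f d : ℝ) : ℂ) - (((s i * f d) ^ 2 / 2 : ℝ) : ℂ))‖ ≤ (|s i| * F) ^ 3 / 6 := by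
      intro d
      have h3 := tay_bound 3 (s i * f d)
      have h4 : tay 3 (s i * f d) = 1 + Complex.I * ((s i * f d : ℝ) : ℂ) - (((s i * f d) ^ 2 / 2 : ℝ) : ℂ) := by
        unfold tay
        simp only [sum_range_succ, range_zero, sum_empty, Nat.factorial]
        have : (Complex.I) ^ 2 = -1 := Complex.I_sq
        push_cast
        ring_nf
        rw [this]
        ring
      rw [h4] at h3
      refine h3.trans ?_
      have h5 : |s i * f d| ≤ |s i| * F := by
        rw [abs_mul]; exact mul_le_mul_of_nonneg_left (h.bd d) (abs_nonneg _)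
      have h6 : ((Nat.factorial 3 : ℕ) : ℝ) = 6 := by norm_num [Nat.factorial]
      rw [h6]
      gcongr
    have e2 : ‖(∑ d, Complex.exp (Complex.I * ((s i * f d : ℝ) : ℂ))) / (b : ℂ) - ((1 - σ : ℝ) : ℂ)‖ ≤
        (|s i| * F) ^ 3 / 6 := by
      have h3 : ((1 - σ : ℝ) : ℂ) = (∑ d, (1 + Complex.I * ((s i * f d : ℝ) : ℂ) - (((s i * f d) ^ 2 / 2 : ℝ) : ℂ))) / (b : ℂ) := by
        rw [sum_sub_distrib, sum_add_distrib, ← mul_sum, ← Complex.ofReal_sum, ← mul_sum, h.mean, ← Complex.ofReal_sum,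
          ← sum_div]
        have h4 : ∑ d, (s i * f d) ^ 2 = s i ^ 2 * (va f * b) := by
          unfold va
          rw [div_mul_cancel₀ _ hb.ne', mul_sum]
          exact sum_congr rfl fun _ _ => by ring
        rw [h4, hσ]
        simp
        field_simp
      rw [h3, ← sub_div, ← sum_sub_distrib, norm_div, Complex.norm_natCast, div_le_iff₀ hb]
      refine (norm_sum_le _ _).trans ?_
      refine (sum_le_sum fun d _ => e1 d).trans (le_of_eq ?_)
      simp
      ring
    have e3 : ‖((1 - σ : ℝ) : ℂ) - Complex.exp (((-σ : ℝ) : ℂ))‖ ≤ σ ^ 2 := by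
      rw [← Complex.ofReal_exp, ← Complex.ofReal_sub, Complex.norm_real, Real.norm_eq_abs, abs_sub_comm]
      have h3 := Real.abs_exp_sub_one_sub_id_le (x := -σ) (by
        rw [abs_neg, abs_of_nonneg hσ0]
        have : (|s i| * F) ^ 2 ≤ 1 := by
          have h0 : 0 ≤ |s i| * F := by positivity
          nlinarith
        linarith)
      have h4 : Real.exp (-σ) - (1 - σ) = Real.exp (-σ) - 1 - (-σ) := by ring
      rw [h4]
      refine h3.trans (le_of_eq (by ring))
    have e4 : ‖(∑ d, Complex.exp (Complex.I * ((s i * f d : ℝ) : ℂ))) / (b : ℂ) - Complex.exp (((-σ : ℝ) : ℂ))‖ ≤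
        (|s i| * F) ^ 3 / 6 + σ ^ 2 := by
      refine (norm_sub_le_norm_sub_add_norm_sub _ (((1 - σ : ℝ) : ℂ)) _).trans ?_
      linarith
    refine e4.trans ?_
    have h0 : 0 ≤ |s i| * F := by positivity
    set u := |s i| * F with hu
    have h5 : σ ^ 2 ≤ (u ^ 2 / 2) ^ 2 := pow_le_pow_left₀ hσ0 hσ1 2
    have h6 : (u ^ 2 / 2) ^ 2 = u ^ 3 * u / 4 := by ring
    have h7 : u ^ 3 * u ≤ u ^ 3 * 1 := mul_le_mul_of_nonneg_left hsi (by positivity)
    have h8 : F ^ 3 * |s i| ^ 3 = u ^ 3 := by rw [hu]; ring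
    rw [h8]
    have h9 : 0 ≤ u ^ 3 := by positivity
    linarith

end Pool.Agent.V5helper15.RM
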