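import Pool.Agent.V5helper15.RM.Gen
import Pool.Agent.H373R2.NB.Weyl

/-!
# Values of polynomials
-/

set_option autoImplicit false

namespace Pool.Agent.V5helper15.RM

open Finset Filter Topology Polynomial
open Pool.Agent.H469R2.NK (e norm_e e_add e_zero conj_e)
open Pool.Agent.H373R2.NB (IW_all Ph_poly)

theorem ee_eq_e (t : ℝ) : Pool.Agent.Helper602.MK.ee t = e t := by
  unfold Pool.Agent.Helper602.MK.ee Pool.Agent.H469R2.NK.e
  congr 1
  push_cast
  ring

/-- uniform weights on a finite set of integers -/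
noncomputable def us (S : Finset ℕ) : S → ℝ := fun _ => 1 / (S.card : ℝ)

theorem us_prob {S : Finset ℕ} (hS : S.Nonempty) : Prob (us S) where
  nonneg := fun _ => by unfold us; positivity
  one := by
    have : (S.card : ℝ) ≠ 0 := by exact_mod_cast hS.card_ne_zero
    unfold us
    rw [sum_const, card_univ, Fintype.card_coe, nsmul_eq_mul]
    field_simp

theorem Ec_us (S : Finset ℕ) (g : ℕ → ℂ) : Ec (us S) (fun ω => g ω) = 1 / (S.card : ℂ) * ∑ s ∈ S, g s := by
  unfold Ec us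
  rw [mul_sum, ← Finset.sum_coe_sort S (fun s => 1 / (S.card : ℂ) * g s)]
  refine sum_congr rfl fun ω _ => ?_
  push_cast
  rfl

theorem E_us (S : Finset ℕ) (g : ℕ → ℝ) : E (us S) (fun ω => g ω) = (∑ s ∈ S, g s) / S.card := by
  unfold E us
  rw [sum_div, ← Finset.sum_coe_sort S (fun s => g s / (S.card : ℝ))]
  refine sum_congr rfl fun ω _ => ?_
  ring

/-- **Values of a polynomial at the integers of an interval.** -/
theorem poly_spread (P : ℤ[X]) (hP : 1 ≤ P.natDegree) (ε₀ : ℝ) (hε₀ : 0 < ε₀) (κ : ℝ) (hκ : 0 < κ) :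
    ∃ c : ℝ, 0 < c ∧ ∃ N0 : ℕ, ∀ N : ℕ, N0 ≤ N → ∀ (J : ℤ) (M : ℕ), Real.exp (ε₀ * N) ≤ M →
      Spread (us (range M)) (fun m => P.eval (J + ((m : ℕ) : ℤ))) (Real.exp (κ * N)) (Real.exp (-(ε₀ / 2 * N))) (Real.exp (-(c * N))) := by
  classical
  set d := P.natDegree with hd
  obtain ⟨C, m, hC, hIW⟩ := IW_all d hP
  set l : ℤ := P.leadingCoeff with hl
  have hl0 : l ≠ 0 := by
    rw [hl, Ne, leadingCoeff_eq_zero]
    rintro rfl
    simp at hd
    omega
  set c : ℝ := min κ ε₀ / (4 * (m + 1)) with hc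
  have hmin : 0 < min κ ε₀ := lt_min hκ hε₀
  have hc0 : 0 < c := by positivity
  have hm0 : (0 : ℝ) ≤ m := Nat.cast_nonneg m
  have hcm : (m + 1) * c = min κ ε₀ / 4 := by rw [hc]; field_simp
  have hcκ : m * c ≤ κ / 4 := by
    have := min_le_left κ ε₀
    nlinarith
  have hcε : m * c ≤ ε₀ / 4 := by
    have := min_le_right κ ε₀
    nlinarith
  set A : ℝ := C * (d.factorial * |(l : ℝ)|) with hA
  have hev : ∀ᶠ N : ℕ in atTop, A ≤ Real.exp (κ / 2 * N) ∧ (C : ℝ) < Real.exp (ε₀ / 4 * N) := by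
    have t1 : ∀ r : ℝ, 0 < r → Tendsto (fun N : ℕ => Real.exp (r * N)) atTop atTop := fun r hr =>
      Real.tendsto_exp_atTop.comp (tendsto_natCast_atTop_atTop.const_mul_atTop hr)
    filter_upwards [(t1 (κ / 2) (by positivity)).eventually_ge_atTop A, (t1 (ε₀ / 4) (by positivity)).eventually_gt_atTop (C : ℝ)] with N h1 h2
    exact ⟨h1, h2⟩
  obtain ⟨N0, hN0⟩ := eventually_atTop.1 hev
  refine ⟨c, hc0, N0, fun N hN J M hM => ?_⟩
  obtain ⟨hN1, hN2⟩ := hN0 N hN
  have hNN : (0 : ℝ) ≤ N := Nat.cast_nonneg N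
  have hM0 : (0 : ℝ) < M := lt_of_lt_of_le (Real.exp_pos _) hM
  have hM1 : 1 ≤ M := by exact_mod_cast hM0
  intro θ hθ
  by_contra hcon
  push Not at hcon
  set S : ℂ := ∑ n ∈ range M, Pool.Agent.Helper602.MK.ee (θ * (((taylor J P).eval (n : ℤ) : ℤ) : ℝ)) with hS
  have hSE : Ec (us (range M)) (fun ω => e (((P.eval (J + ((ω : ℕ) : ℤ)) : ℤ) : ℝ) * θ)) = 1 / (M : ℂ) * S := by
    rw [Ec_us (range M) (fun n => e (((P.eval (J + ((n : ℕ) : ℤ)) : ℤ) : ℝ) * θ)), card_range, hS]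
    congr 1
    refine sum_congr rfl fun n _ => ?_
    rw [ee_eq_e, taylor_eval, mul_comm θ, add_comm J]
  rw [hSE, norm_mul, norm_div, norm_one, Complex.norm_natCast, one_div_mul_eq_div, lt_div_iff₀ hM0] at hcon
  have h1 : (M : ℝ) ≤ Real.exp (c * N) * ‖S‖ := by
    have h2 : Real.exp (c * N) * (Real.exp (-(c * N)) * M) ≤ Real.exp (c * N) * ‖S‖ := by gcongr
    have h3 : Real.exp (c * N) * (Real.exp (-(c * N)) * M) = M := by
      rw [← mul_assoc, ← Real.exp_add, add_neg_cancel, Real.exp_zero, one_mul]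
    rwa [h3] at h2
  obtain ⟨q, hq1, hq2, a, ha⟩ := hIW M (Real.exp (c * N)) (θ * ((d.factorial : ℝ) * ((taylor J P).coeff d : ℤ)))
    (fun n => θ * (((taylor J P).eval (n : ℤ) : ℤ) : ℝ)) hM1 (Real.one_le_exp (by positivity))
    (Ph_poly d (taylor J P) (by rw [natDegree_taylor]) θ) h1
  have hcoef : (taylor J P).coeff d = l := by rw [hd, coeff_taylor_natDegree, hl]
  rw [hcoef] at ha
  rw [← Real.exp_nat_mul] at hq2 ha
  -- the denominator
  have hq3 : ((q * (d.factorial * l.natAbs) : ℕ) : ℝ) ≤ Real.exp (κ * N) := by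
    have e1 : ((l.natAbs : ℕ) : ℝ) = |(l : ℝ)| := by rw [Nat.cast_natAbs, Int.cast_abs]
    push_cast
    rw [e1]
    calc (q : ℝ) * (d.factorial * |(l : ℝ)|) ≤ (C * Real.exp (m * (c * N))) * (d.factorial * |(l : ℝ)|) := by gcongr
      _ = A * Real.exp (m * (c * N)) := by rw [hA]; ring
      _ ≤ Real.exp (κ / 2 * N) * Real.exp (κ / 4 * N) :=
          mul_le_mul hN1 (Real.exp_le_exp.2 (by nlinarith)) (Real.exp_pos _).le (Real.exp_pos _).le
      _ ≤ Real.exp (κ * N) := by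
          rw [← Real.exp_add]
          apply Real.exp_le_exp.2
          nlinarith
  have hq4 : 1 ≤ q * (d.factorial * l.natAbs) := by
    have h2 : 0 < l.natAbs := Int.natAbs_pos.2 hl0
    have h3 : 0 < d.factorial := Nat.factorial_pos d
    exact Nat.mul_pos (by omega) (Nat.mul_pos h3 h2)
  have h5 := hθ _ hq4 hq3 (a * l.sign)
  have h6 : ((q * (d.factorial * l.natAbs) : ℕ) : ℝ) * θ - ((a * l.sign : ℤ) : ℝ) =
      l.sign * (q * (θ * (d.factorial * l)) - a) := by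
    have e2 : ((l.natAbs : ℕ) : ℝ) = (l.sign : ℝ) * l := by
      have h := congrArg (fun z : ℤ => (z : ℝ)) (Int.sign_mul_self_eq_natAbs l)
      simp only [Int.cast_mul, Int.cast_natCast] at h
      exact h.symm
    push_cast at e2 ⊢
    rw [e2]
    ring
  rw [h6, abs_mul] at h5
  have h7 : |(l.sign : ℝ)| = 1 := by
    rcases lt_trichotomy l 0 with h | h | h
    · rw [Int.sign_eq_neg_one_of_neg h]; norm_num
    · exact absurd h hl0
    · rw [Int.sign_eq_one_of_pos h]; norm_num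
  rw [h7, one_mul] at h5
  have h8 : (C : ℝ) * Real.exp (m * (c * N)) / (M : ℝ) ^ d ≤ Real.exp (-(ε₀ / 2 * N)) := by
    have h9 : Real.exp (ε₀ * N) ≤ (M : ℝ) ^ d := by
      refine hM.trans ?_
      have : (1 : ℝ) ≤ M := by exact_mod_cast hM1
      calc (M : ℝ) = (M : ℝ) ^ 1 := (pow_one _).symm
        _ ≤ (M : ℝ) ^ d := pow_le_pow_right₀ this hP
    rw [div_le_iff₀ (by positivity)]
    calc (C : ℝ) * Real.exp (m * (c * N)) ≤ Real.exp (ε₀ / 4 * N) * Real.exp (ε₀ / 4 * N) :=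
          mul_le_mul hN2.le (Real.exp_le_exp.2 (by nlinarith)) (Real.exp_pos _).le (Real.exp_pos _).le
      _ = Real.exp (-(ε₀ / 2 * N)) * Real.exp (ε₀ * N) := by rw [← Real.exp_add, ← Real.exp_add]; congr 1; ring
      _ ≤ Real.exp (-(ε₀ / 2 * N)) * (M : ℝ) ^ d := by gcongr
  exact absurd (ha.trans h8) (not_le.2 h5)

end Pool.Agent.V5helper15.RM
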