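import Pool.Agent.V5helper15.RM.BlkMain

/-!
# The variance of the number of the occurrences of a word; the families of multipliers
-/

set_option autoImplicit false

namespace Pool.Agent.V5helper15.RM

open Finset Filter Topology Polynomial

variable {b ℓ : ℕ} {F : (Fin ℓ → ℕ) → ℝ}

theorem E_first (hb : 0 < b) (F : (Fin ℓ → ℕ) → ℝ) {s j : ℕ} (hj : j ≤ s) : E (un b (s + ℓ)) (fun v => F (wn ℓ (ex v) j)) = mn b F := by
  rw [E_window hb (by omega) F, E_un]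
  rfl

theorem cv_eq (hb : 0 < b) (F : (Fin ℓ → ℕ) → ℝ) (s : ℕ) :
    cv b F s = E (un b (s + ℓ)) (fun v => F (wn ℓ (ex v) 0) * F (wn ℓ (ex v) s)) - mn b F ^ 2 := by
  unfold cv
  rw [← E_un]
  have h1 : (fun v : Fin (s + ℓ) → Fin b => (F (wn ℓ (ex v) 0) - mn b F) * (F (wn ℓ (ex v) s) - mn b F)) =
      fun v => (F (wn ℓ (ex v) 0) * F (wn ℓ (ex v) s) - mn b F * F (wn ℓ (ex v) 0)) - (mn b F * F (wn ℓ (ex v) s) - mn b F ^ 2) := by
    funext v; ring
  rw [h1, E_sub, E_sub, E_sub, E_mul, E_mul, E_first hb F (Nat.zero_le s), E_first hb F le_rfl, (un_prob hb _).const]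
  ring

theorem cv_ge (hb : 0 < b) (hF : ∀ w, 0 ≤ F w) (s : ℕ) : -(mn b F ^ 2) ≤ cv b F s := by
  rw [cv_eq hb F s]
  have h1 : 0 ≤ E (un b (s + ℓ)) (fun v => F (wn ℓ (ex v) 0) * F (wn ℓ (ex v) s)) :=
    (un_prob hb _).E_nonneg fun v => mul_nonneg (hF _) (hF _)
  linarith

theorem cv_nought (hb : 0 < b) (hF : ∀ w, F w * F w = F w) : cv b F 0 = mn b F - mn b F ^ 2 := by
  rw [cv_eq hb F 0]
  simp only [hF]
  rw [E_first hb F le_rfl]

/-- **The variance is positive for the number of the occurrences of a word.** -/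
theorem vr_pos (hb : 2 ≤ b) (hℓ : 1 ≤ ℓ) (w : Fin ℓ → Fin b) : 0 < vr b (fun v : Fin ℓ → ℕ => if v = fun m => (w m : ℕ) then (1 : ℝ) else 0) := by
  classical
  have hb0 : 0 < b := by omega
  have hbR : (0 : ℝ) < b := by exact_mod_cast hb0
  set F : (Fin ℓ → ℕ) → ℝ := fun v => if v = fun m => (w m : ℕ) then (1 : ℝ) else 0 with hF
  have hmn : mn b F = 1 / (b : ℝ) ^ ℓ := by
    unfold mn
    congr 1
    rw [Finset.sum_eq_single w]
    · simp [hF]
    · intro v _ hv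
      simp only [hF]
      rw [if_neg]
      intro h
      apply hv
      funext m
      exact Fin.ext (congrFun h m)
    · intro h
      exact absurd (mem_univ _) h
  set p : ℝ := 1 / (b : ℝ) ^ ℓ with hp
  have hp0 : 0 < p := by positivity
  have h0 : cv b F 0 = p - p ^ 2 := by
    rw [cv_nought hb0, hmn]
    intro v
    simp only [hF]
    split_ifs <;> norm_num
  have h1 : ∀ s, -(p ^ 2) ≤ cv b F s := by
    intro s
    rw [← hmn]
    apply cv_ge hb0
    intro v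
    simp only [hF]
    split_ifs <;> norm_num
  have h2 : -((ℓ - 1 : ℕ) * p ^ 2) ≤ ∑ s ∈ Ico 1 ℓ, cv b F s := by
    have : ∑ s ∈ Ico 1 ℓ, -(p ^ 2) ≤ ∑ s ∈ Ico 1 ℓ, cv b F s := sum_le_sum fun s _ => h1 s
    rw [sum_const, Nat.card_Ico, nsmul_eq_mul] at this
    linarith
  have h3 : (2 * (ℓ : ℝ) - 1) * p < 1 := by
    have h4 : 2 * ℓ ≤ 2 ^ ℓ := by
      obtain ⟨k, rfl⟩ : ∃ k, ℓ = k + 1 := ⟨ℓ - 1, by omega⟩
      have := Nat.lt_two_pow_self (n := k)
      rw [pow_succ]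
      omega
    have h5 : (2 : ℕ) ^ ℓ ≤ b ^ ℓ := Nat.pow_le_pow_left hb ℓ
    have h6 : (2 : ℝ) * ℓ ≤ (b : ℝ) ^ ℓ := by exact_mod_cast h4.trans h5
    rw [hp, mul_one_div, div_lt_one (by positivity)]
    linarith
  unfold vr
  rw [h0]
  rw [Nat.cast_sub hℓ] at h2
  push_cast at h2
  nlinarith

/-- the families of the multipliers `P(J + m)`, `m < M`, and `P(p)`, `p ≤ M` prime -/
def Mult (P : ℤ[X]) (ε : ℝ) (B N : ℕ) (A : Finset ℕ) (g : ℕ → ℤ) : Prop :=
  (∃ (J : ℤ) (M : ℕ), Real.exp (ε * N) ≤ M ∧ A = range M ∧ g = fun m : ℕ => P.eval (J + (m : ℤ))) ∨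
    (∃ M : ℕ, Real.exp (ε * N) ≤ M ∧ (M : ℝ) ≤ Real.exp ((N : ℝ) ^ B) ∧ A = (Icc 1 M).filter Nat.Prime ∧
      g = fun m : ℕ => P.eval (m : ℤ))

theorem mult_good (P : ℤ[X]) (hP : 1 ≤ P.natDegree) (ε : ℝ) (hε : 0 < ε) (B : ℕ) : Good (ε / 2) (Mult P ε B) := by
  intro κ hκ
  obtain ⟨c1, hc1, N1, h1⟩ := poly_spread P hP ε hε κ hκ
  obtain ⟨c2, hc2, N2, h2⟩ := prime_spread P hP ε hε κ hκ
  have hev : ∀ᶠ N : ℕ in atTop, (N : ℝ) ^ B ≤ Real.exp (c2 * N) := by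
    have h1 : Tendsto (fun u : ℝ => Real.exp u / u ^ B) atTop atTop := Real.tendsto_exp_div_pow_atTop B
    have h2 : Tendsto (fun N : ℕ => c2 * (N : ℝ)) atTop atTop := tendsto_natCast_atTop_atTop.const_mul_atTop hc2
    filter_upwards [(h1.comp h2).eventually_ge_atTop ((1 / c2) ^ B), eventually_gt_atTop 0] with N hN hN0
    have hN0' : (0 : ℝ) < N := by exact_mod_cast hN0
    simp only [Function.comp] at hN
    rw [le_div_iff₀ (by positivity), ← mul_pow] at hN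
    have h3 : 1 / c2 * (c2 * N) = N := by field_simp
    rwa [h3] at hN
  obtain ⟨N3, hN3⟩ := eventually_atTop.1 hev
  refine ⟨min c1 c2, lt_min hc1 hc2, max N1 (max N2 N3), fun N hN A g hA => ?_⟩
  have a1 : N1 ≤ N := (le_max_left _ _).trans hN
  have a2 : N2 ≤ N := (le_max_left _ _).trans ((le_max_right _ _).trans hN)
  have a3 : N3 ≤ N := (le_max_right _ _).trans ((le_max_right _ _).trans hN)
  have hNN : (0 : ℝ) ≤ N := Nat.cast_nonneg N
  rcases hA with ⟨J, M, hM, rfl, rfl⟩ | ⟨M, hM, hM', rfl, rfl⟩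
  · have hM0 : (0 : ℝ) < M := (Real.exp_pos _).trans_le hM
    have hM1 : 0 < M := by exact_mod_cast hM0
    refine ⟨⟨0, mem_range.2 hM1⟩, (h1 N a1 J M hM).mono le_rfl le_rfl ?_⟩
    apply Real.exp_le_exp.2
    have := min_le_left c1 c2
    nlinarith
  · have hM0 : (0 : ℝ) < M := (Real.exp_pos _).trans_le hM
    have hlog : Real.log M ≤ Real.exp (c2 * N) := by
      have := Real.log_le_log hM0 hM'
      rw [Real.log_exp] at this
      exact this.trans (hN3 N a3)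
    obtain ⟨h3, h4⟩ := h2 N a2 M hM hlog
    refine ⟨h3, h4.mono le_rfl le_rfl ?_⟩
    apply Real.exp_le_exp.2
    have := min_le_right c1 c2
    nlinarith

end Pool.Agent.V5helper15.RM
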