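import Pool.Agent.V5helper15.RM.Donsker

/-!
# Functionals: scaling, and the truncated supremum
-/

set_option autoImplicit false

namespace Pool.Agent.V5helper15.RM

open Finset Filter Topology MeasureTheory ProbabilityTheory
open Pool.Agent.V5helper57.Win (Fun ix ix_spec stepf gr brown_step)
open scoped NNReal ENNReal

variable {Φ : (ℝ → ℝ) → ℝ} {Mb Kf : ℝ}

theorem Fun.scale (hΦ : Fun Φ Mb Kf) (s : ℝ) : Fun (fun w => Φ (fun t => s * w t)) Mb (Kf * |s|) where
  Kf0 := mul_nonneg hΦ.Kf0 (abs_nonneg s)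
  bd := fun f => hΦ.bd _
  lip := fun f g δ hδ h => by
    have h1 := hΦ.lip (fun t => s * f t) (fun t => s * g t) (|s| * δ) (by positivity) (fun t h0 h1 => by
      rw [← mul_sub, abs_mul]
      exact mul_le_mul_of_nonneg_left (h t h0 h1) (abs_nonneg s))
    rw [mul_assoc]
    exact h1

/-- the truncated supremum -/
noncomputable def Psi (w : ℝ → ℝ) : ℝ := ⨆ t : Set.Icc (0 : ℝ) 1, min 1 |w t|

instance : Nonempty (Set.Icc (0 : ℝ) 1) := ⟨⟨0, by simp⟩⟩

theorem Psi_bdd (w : ℝ → ℝ) : BddAbove (Set.range fun t : Set.Icc (0 : ℝ) 1 => min 1 |w t|) := by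
  refine ⟨1, ?_⟩
  rintro _ ⟨t, rfl⟩
  exact min_le_left _ _

theorem Psi_ge (w : ℝ → ℝ) {t : ℝ} (h0 : 0 ≤ t) (h1 : t ≤ 1) : min 1 |w t| ≤ Psi w :=
  le_ciSup (Psi_bdd w) (⟨t, h0, h1⟩ : Set.Icc (0 : ℝ) 1)

theorem Psi_le {w : ℝ → ℝ} {c : ℝ} (h : ∀ t, 0 ≤ t → t ≤ 1 → min 1 |w t| ≤ c) : Psi w ≤ c :=
  ciSup_le fun t => h t t.2.1 t.2.2

theorem Psi_nonneg (w : ℝ → ℝ) : 0 ≤ Psi w :=
  le_trans (le_min zero_le_one (abs_nonneg _)) (Psi_ge w le_rfl zero_le_one)

theorem Psi_le_one (w : ℝ → ℝ) : Psi w ≤ 1 := Psi_le fun _ _ _ => min_le_left _ _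

theorem Psi_le' {w : ℝ → ℝ} {c : ℝ} (h : ∀ t, 0 ≤ t → t ≤ 1 → |w t| ≤ c) : Psi w ≤ c :=
  Psi_le fun t h0 h1 => (min_le_right _ _).trans (h t h0 h1)

theorem Psi_mono {w v : ℝ → ℝ} (h : ∀ t, 0 ≤ t → t ≤ 1 → |w t| ≤ |v t|) : Psi w ≤ Psi v :=
  Psi_le fun t h0 h1 => (min_le_min le_rfl (h t h0 h1)).trans (Psi_ge v h0 h1)

theorem Psi_add (w v : ℝ → ℝ) : Psi (fun t => w t + v t) ≤ Psi w + Psi v := by
  refine Psi_le fun t h0 h1 => ?_
  have h2 := Psi_ge w h0 h1
  have h3 := Psi_ge v h0 h1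
  have h4 : min 1 |w t + v t| ≤ min 1 |w t| + min 1 |v t| := by
    have := abs_add_le (w t) (v t)
    have h5 := abs_nonneg (w t)
    have h6 := abs_nonneg (v t)
    rcases le_total 1 |w t| with h | h <;> rcases le_total 1 |v t| with h' | h' <;>
      rcases le_total 1 |w t + v t| with h'' | h'' <;> simp only [min_def] <;> split_ifs <;> linarith
  linarith

theorem Psi_congr {w v : ℝ → ℝ} (h : ∀ t, 0 ≤ t → t ≤ 1 → w t = v t) : Psi w = Psi v :=
  le_antisymm (Psi_mono fun t h0 h1 => by rw [h t h0 h1]) (Psi_mono fun t h0 h1 => by rw [h t h0 h1])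

theorem Psi_fun : Fun Psi 1 1 where
  Kf0 := zero_le_one
  bd := fun f => by rw [abs_of_nonneg (Psi_nonneg f)]; exact Psi_le_one f
  lip := fun f g δ hδ h => by
    rw [one_mul, abs_le]
    have key : ∀ f g : ℝ → ℝ, (∀ t, 0 ≤ t → t ≤ 1 → |f t - g t| ≤ δ) → Psi f ≤ Psi g + δ := by
      intro f g h
      have h1 := Psi_add g (fun t => f t - g t)
      have h2 : Psi (fun t => f t - g t) ≤ δ := Psi_le' h
      have h3 : Psi f = Psi (fun t => g t + (f t - g t)) := Psi_congr fun t _ _ => by ring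
      linarith
    have h1 := key f g h
    have h2 := key g f fun t h0 h1 => by rw [abs_sub_comm]; exact h t h0 h1
    constructor <;> linarith

/-- the functionals are controlled by the truncated supremum -/
theorem Fun.le_Psi (hΦ : Fun Φ Mb Kf) (w v : ℝ → ℝ) : |Φ w - Φ v| ≤ (Kf + 2 * Mb) * Psi (fun t => w t - v t) := by
  have hK := hΦ.Kf0
  have hM := hΦ.Mb0
  have h0 := Psi_nonneg (fun t => w t - v t)
  rcases lt_or_ge (Psi (fun t => w t - v t)) 1 with h | h
  · have h1 := hΦ.lip w v _ h0 (fun t ht0 ht1 => by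
      have h2 := Psi_ge (fun t => w t - v t) ht0 ht1
      rcases le_total 1 |w t - v t| with h3 | h3
      · rw [min_eq_left h3] at h2
        linarith
      · rwa [min_eq_right h3] at h2)
    refine h1.trans ?_
    have : 0 ≤ 2 * Mb * Psi (fun t => w t - v t) := by positivity
    nlinarith
  · have h1 : Psi (fun t => w t - v t) = 1 := le_antisymm (Psi_le_one _) h
    rw [h1]
    have h2 := hΦ.diff w v
    linarith

section Brown
variable {Ω : Type*} [MeasurableSpace Ω] {P : Measure Ω} {W : ℝ≥0 → Ω → ℝ}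

theorem fun_meas (hW : IsBrownianReal W P) (hΦ : Fun Φ Mb Kf) :
    AEStronglyMeasurable (fun ω => Φ (fun t : ℝ => W t.toNNReal ω)) P := by
  refine aestronglyMeasurable_of_tendsto_ae atTop (f := fun (n : ℕ) ω => Φ (stepf n (fun k => W (gr (n + 1) k) ω))) ?_ ?_
  · intro n
    have h1 : AEMeasurable (fun ω => (fun k => W (gr (n + 1) k) ω : Fin (n + 1) → ℝ)) P :=
      aemeasurable_pi_lambda _ fun k => hW.aemeasurable _
    exact ((hΦ.step_cont n).measurable.comp_aemeasurable h1).aestronglyMeasurable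
  · filter_upwards [hW.cont] with ω hω
    have hf : Continuous (fun t : ℝ => W t.toNNReal ω) := hω.comp continuous_real_toNNReal
    have h1 := hΦ.tendsto hf
    refine h1.congr fun n => ?_
    congr 2
    funext k
    congr 1
    apply NNReal.coe_injective
    rw [Real.coe_toNNReal _ (by positivity)]
    unfold gr
    push_cast
    rfl

theorem fun_int (hW : IsBrownianReal W P) (hΦ : Fun Φ Mb Kf) :
    Integrable (fun ω => Φ (fun t : ℝ => W t.toNNReal ω)) P := by
  have hPr : IsProbabilityMeasure P := hW.isGaussianProcess.isProbabilityMeasure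
  exact Integrable.of_bound (fun_meas hW hΦ) Mb (Filter.Eventually.of_forall fun ω => by
    rw [Real.norm_eq_abs]; exact hΦ.bd _)

/-- the expectation of the truncated supremum of the scaled Brownian motion -/
noncomputable def PW (P : Measure Ω) (W : ℝ≥0 → Ω → ℝ) (s : ℝ) : ℝ := ∫ ω, Psi (fun t : ℝ => s * W t.toNNReal ω) ∂P

theorem PW_mono (hW : IsBrownianReal W P) {s s' : ℝ} (h : |s| ≤ |s'|) : PW P W s ≤ PW P W s' := by
  unfold PW
  refine integral_mono (fun_int hW (Fun.scale Psi_fun s)) (fun_int hW (Fun.scale Psi_fun s')) fun ω => ?_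
  refine Psi_mono fun t _ _ => ?_
  rw [abs_mul, abs_mul]
  exact mul_le_mul_of_nonneg_right h (abs_nonneg _)

theorem PW_nonneg (s : ℝ) : 0 ≤ PW P W s := integral_nonneg fun _ => Psi_nonneg _

theorem PW_small (hW : IsBrownianReal W P) {ε : ℝ} (hε : 0 < ε) : ∃ s0 : ℝ, 0 < s0 ∧ ∀ s, |s| ≤ s0 → PW P W s ≤ ε := by
  have hPr : IsProbabilityMeasure P := hW.isGaussianProcess.isProbabilityMeasure
  have hlim : Tendsto (fun n : ℕ => PW P W (1 / ((n : ℝ) + 1))) atTop (𝓝 (∫ _, (0 : ℝ) ∂P)) := by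
    unfold PW
    apply tendsto_integral_of_dominated_convergence (fun _ => (1 : ℝ))
    · exact fun n => fun_meas hW (Fun.scale Psi_fun _)
    · exact integrable_const _
    · intro n
      refine Filter.Eventually.of_forall fun ω => ?_
      rw [Real.norm_eq_abs]
      exact Psi_fun.bd _
    · filter_upwards [hW.cont] with ω hω
      have hf : Continuous (fun t : ℝ => W t.toNNReal ω) := hω.comp continuous_real_toNNReal
      obtain ⟨C, hC⟩ := isCompact_Icc.exists_bound_of_continuousOn (hf.continuousOn (s := Set.Icc 0 1))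
      have h1 : Tendsto (fun n : ℕ => 1 / ((n : ℝ) + 1) * C) atTop (𝓝 (0 * C)) :=
        tendsto_one_div_add_atTop_nhds_zero_nat.mul_const C
      rw [zero_mul] at h1
      refine squeeze_zero (fun n => Psi_nonneg _) (fun n => Psi_le' fun t h0 h1 => ?_) h1
      rw [abs_mul, abs_of_pos (by positivity : (0 : ℝ) < 1 / ((n : ℝ) + 1))]
      exact mul_le_mul_of_nonneg_left (by simpa using hC t ⟨h0, h1⟩) (by positivity)
  rw [integral_zero] at hlim
  obtain ⟨n, hn⟩ := (hlim.eventually (ge_mem_nhds hε)).exists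
  have hpos : (0 : ℝ) < 1 / ((n : ℝ) + 1) := by positivity
  refine ⟨1 / ((n : ℝ) + 1), hpos, fun s hs => (PW_mono hW ?_).trans hn⟩
  rwa [abs_of_pos hpos]

/-- dependence of the limit on the scale -/
theorem PW_diff (hW : IsBrownianReal W P) (hΦ : Fun Φ Mb Kf) (s s' : ℝ) :
    |∫ ω, Φ (fun t : ℝ => s * W t.toNNReal ω) ∂P - ∫ ω, Φ (fun t : ℝ => s' * W t.toNNReal ω) ∂P| ≤
      (Kf + 2 * Mb) * PW P W (s - s') := by
  rw [← integral_sub (fun_int hW (Fun.scale hΦ s)) (fun_int hW (Fun.scale hΦ s'))]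
  refine (abs_integral_le_integral_abs).trans ?_
  unfold PW
  rw [← integral_const_mul]
  refine integral_mono ((fun_int hW (Fun.scale hΦ s)).sub (fun_int hW (Fun.scale hΦ s'))).abs
    ((fun_int hW (Fun.scale Psi_fun (s - s'))).const_mul _) fun ω => ?_
  have h1 := Fun.le_Psi hΦ (fun t : ℝ => s * W t.toNNReal ω) (fun t : ℝ => s' * W t.toNNReal ω)
  have h2 : (fun t : ℝ => s * W t.toNNReal ω - s' * W t.toNNReal ω) = fun t : ℝ => (s - s') * W t.toNNReal ω := by
    funext t; ring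
  rw [h2] at h1
  exact h1

end Brown

section Raw
variable {b : ℕ} {f : Fin b → ℝ} {F : ℝ}
variable {Ω : Type*} [MeasurableSpace Ω] {P : Measure Ω} {W : ℝ≥0 → Ω → ℝ}

/-- the walk which is normalised only by the number of the letters -/
noncomputable def pw {N : ℕ} (f : Fin b → ℝ) (x : Fin N → Fin b) (t : ℝ) : ℝ := SW f 0 ⌊t * N⌋₊ x / √(N : ℝ)

/-- **The invariance principle**, also for the variance zero. -/
theorem Cen.donsker_raw (h : Cen f F) (hW : IsBrownianReal W P) (hΦ : Fun Φ Mb Kf) (s : ℝ) {ε : ℝ} (hε : 0 < ε) :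
    ∃ K : ℕ, ∀ S : Smp b, S.Ok K →
      |E S.p (fun c => Φ (fun t => s * pw f (S.D c) t)) - ∫ ω, Φ (fun t : ℝ => s * √(va f) * W t.toNNReal ω) ∂P| ≤ ε := by
  rcases h.va0.eq_or_lt with hv | hv
  · -- the function vanishes
    have hb0 : (0 : ℝ) < b := by exact_mod_cast h.b0
    have hf : ∀ d, f d = 0 := by
      have h1 : ∑ d, f d ^ 2 = 0 := by
        unfold va at hv
        rw [eq_comm, div_eq_zero_iff] at hv
        rcases hv with h2 | h2
        · exact h2
        · exact absurd h2 hb0.ne'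
      intro d
      have h2 := (sum_eq_zero_iff_of_nonneg fun i _ => sq_nonneg (f i)).1 h1 d (mem_univ d)
      exact pow_eq_zero_iff (two_ne_zero) |>.1 h2
    have hPr : IsProbabilityMeasure P := hW.isGaussianProcess.isProbabilityMeasure
    refine ⟨0, fun S hS => ?_⟩
    have h1 : ∀ c, (fun t => s * pw f (S.D c) t) = fun _ => 0 := by
      intro c
      funext t
      unfold pw SW TT
      simp [hf]
    have h2 : ∀ ω, (fun t : ℝ => s * √(va f) * W t.toNNReal ω) = fun _ => 0 := by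
      intro ω
      funext t
      rw [← hv]
      simp
    simp only [h1, h2]
    rw [hS.prob.const, integral_const]
    simp [hε.le]
  · obtain ⟨K, hK⟩ := h.donsker hv hW (Fun.scale hΦ (s * √(va f))) hε
    refine ⟨K, fun S hS => ?_⟩
    have h1 := hK S hS
    have h2 : ∀ c, (fun t => s * √(va f) * pth f (S.D c) t) = fun t => s * pw f (S.D c) t := by
      intro c
      funext t
      unfold pth pw
      have h3 : √(va f) ≠ 0 := (Real.sqrt_pos.2 hv).ne'
      field_simp
    simp only [h2] at h1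
    exact h1

end Raw

end Pool.Agent.V5helper15.RM
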