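import Pool.Agent.V5helper15.RM.Taylor

/-!
# Finite probability spaces and random strings
-/

set_option autoImplicit false

namespace Pool.Agent.V5helper15.RM

open Finset

/-- Expectations on a finite weighted set. -/
noncomputable def E {Ω : Type*} [Fintype Ω] (p : Ω → ℝ) (g : Ω → ℝ) : ℝ := ∑ ω, p ω * g ω

/-- Expectations of complex functions on a finite weighted set. -/
noncomputable def Ec {Ω : Type*} [Fintype Ω] (p : Ω → ℝ) (g : Ω → ℂ) : ℂ := ∑ ω, (p ω : ℂ) * g ω

/-- probability weights -/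
structure Prob {Ω : Type*} [Fintype Ω] (p : Ω → ℝ) : Prop where
  nonneg : ∀ ω, 0 ≤ p ω
  one : ∑ ω, p ω = 1

section
variable {Ω : Type*} [Fintype Ω] {p : Ω → ℝ}

theorem E_add (g h : Ω → ℝ) : E p (fun ω => g ω + h ω) = E p g + E p h := by
  unfold E; rw [← sum_add_distrib]; exact sum_congr rfl fun _ _ => by ring

theorem E_sub (g h : Ω → ℝ) : E p (fun ω => g ω - h ω) = E p g - E p h := by
  unfold E; rw [← sum_sub_distrib]; exact sum_congr rfl fun _ _ => by ring

theorem E_mul (c : ℝ) (g : Ω → ℝ) : E p (fun ω => c * g ω) = c * E p g := by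
  unfold E; rw [mul_sum]; exact sum_congr rfl fun _ _ => by ring

theorem E_sum {κ : Type*} (s : Finset κ) (g : κ → Ω → ℝ) : E p (fun ω => ∑ k ∈ s, g k ω) = ∑ k ∈ s, E p (g k) := by
  unfold E; rw [sum_comm]; exact sum_congr rfl fun _ _ => by rw [mul_sum]

theorem Ec_sum {κ : Type*} (s : Finset κ) (g : κ → Ω → ℂ) : Ec p (fun ω => ∑ k ∈ s, g k ω) = ∑ k ∈ s, Ec p (g k) := by
  unfold Ec; rw [sum_comm]; exact sum_congr rfl fun _ _ => by rw [mul_sum]

theorem Ec_mul (c : ℂ) (g : Ω → ℂ) : Ec p (fun ω => c * g ω) = c * Ec p g := by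
  unfold Ec; rw [mul_sum]; exact sum_congr rfl fun _ _ => by ring

theorem Ec_sub (g h : Ω → ℂ) : Ec p (fun ω => g ω - h ω) = Ec p g - Ec p h := by
  unfold Ec; rw [← sum_sub_distrib]; exact sum_congr rfl fun _ _ => by ring

theorem Ec_ofReal (g : Ω → ℝ) : Ec p (fun ω => (g ω : ℂ)) = (E p g : ℂ) := by
  unfold Ec E; push_cast; rfl

theorem Prob.const (hp : Prob p) (c : ℝ) : E p (fun _ => c) = c := by
  unfold E; rw [← sum_mul, hp.one, one_mul]

theorem Prob.mono (hp : Prob p) {g h : Ω → ℝ} (hgh : ∀ ω, g ω ≤ h ω) : E p g ≤ E p h :=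
  sum_le_sum fun ω _ => mul_le_mul_of_nonneg_left (hgh ω) (hp.nonneg ω)

theorem Prob.abs (hp : Prob p) (g : Ω → ℝ) : |E p g| ≤ E p (fun ω => |g ω|) := by
  unfold E
  refine (abs_sum_le_sum_abs _ _).trans (le_of_eq ?_)
  exact sum_congr rfl fun ω _ => by rw [abs_mul, abs_of_nonneg (hp.nonneg ω)]

theorem Prob.norm (hp : Prob p) (g : Ω → ℂ) : ‖Ec p g‖ ≤ E p (fun ω => ‖g ω‖) := by
  unfold Ec E
  refine (norm_sum_le _ _).trans (le_of_eq ?_)
  exact sum_congr rfl fun ω _ => by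
    rw [norm_mul, Complex.norm_real, Real.norm_eq_abs, abs_of_nonneg (hp.nonneg ω)]

theorem Prob.E_nonneg (hp : Prob p) {g : Ω → ℝ} (hg : ∀ ω, 0 ≤ g ω) : 0 ≤ E p g :=
  sum_nonneg fun ω _ => mul_nonneg (hp.nonneg ω) (hg ω)

end

/-- uniform weights on the strings of length `N` over `b` letters -/
noncomputable def un (b N : ℕ) : (Fin N → Fin b) → ℝ := fun _ => 1 / (b : ℝ) ^ N

theorem un_prob {b : ℕ} (hb : 0 < b) (N : ℕ) : Prob (un b N) where
  nonneg := fun _ => by unfold un; positivity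
  one := by
    have : (b : ℝ) ≠ 0 := by positivity
    simp [un]
    field_simp

/-- independence of the letters -/
theorem un_prod {b : ℕ} (N : ℕ) (g : Fin N → Fin b → ℂ) :
    Ec (un b N) (fun x => ∏ i, g i (x i)) = ∏ i, ((∑ d, g i d) / (b : ℂ)) := by
  unfold Ec un
  rw [prod_div_distrib, prod_const, card_univ, Fintype.card_fin, ← mul_sum]
  have h := Finset.prod_univ_sum (fun _ : Fin N => (univ : Finset (Fin b))) (fun i d => g i d)
  rw [Fintype.piFinset_univ] at h
  rw [h]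
  push_cast
  ring

theorem un_prodR {b : ℕ} (N : ℕ) (g : Fin N → Fin b → ℝ) :
    E (un b N) (fun x => ∏ i, g i (x i)) = ∏ i, ((∑ d, g i d) / (b : ℝ)) := by
  unfold E un
  rw [prod_div_distrib, prod_const, card_univ, Fintype.card_fin, ← mul_sum]
  have h := Finset.prod_univ_sum (fun _ : Fin N => (univ : Finset (Fin b))) (fun i d => g i d)
  rw [Fintype.piFinset_univ] at h
  rw [h]
  ring

/-- weighted sums of a function of the letters -/
noncomputable def TT {b N : ℕ} (f : Fin b → ℝ) (s : Fin N → ℝ) (x : Fin N → Fin b) : ℝ := ∑ i, s i * f (x i)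

/-- the letters are independent in families of at most `K`, up to `η` -/
def Near {Ω : Type*} [Fintype Ω] {b N : ℕ} (p : Ω → ℝ) (D : Ω → Fin N → Fin b) (K : ℕ) (η : ℝ) : Prop :=
  ∀ k : ℕ, k ≤ K → ∀ (i : Fin k → Fin N) (d : Fin k → Fin b),
    |E p (fun ω => if ∀ j, D ω (i j) = d j then 1 else 0) -
      E (un b N) (fun x => if ∀ j, x (i j) = d j then 1 else 0)| ≤ η

/-- **Transfer of the moments.** -/
theorem Near.moment {Ω : Type*} [Fintype Ω] {b N : ℕ} {p : Ω → ℝ} {D : Ω → Fin N → Fin b} {K : ℕ} {η : ℝ}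
    (h : Near p D K η) (f : Fin b → ℝ) (s : Fin N → ℝ) {k : ℕ} (hk : k ≤ K) :
    |E p (fun ω => TT f s (D ω) ^ k) - E (un b N) (fun x => TT f s x ^ k)| ≤
      ((∑ i, |s i|) * ∑ d, |f d|) ^ k * η := by
  classical
  -- expansion
  have hexp : ∀ x : Fin N → Fin b, TT f s x ^ k =
      ∑ q : Fin k → Fin N × Fin b, (∏ j, (s (q j).1 * f (q j).2)) * (if ∀ j, x (q j).1 = (q j).2 then 1 else 0) := by
    intro x
    have h1 : TT f s x = ∑ r : Fin N × Fin b, s r.1 * f r.2 * (if x r.1 = r.2 then 1 else 0) := by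
      unfold TT
      rw [Fintype.sum_prod_type]
      refine sum_congr rfl fun i _ => ?_
      simp
    have h2 : TT f s x ^ k = ∏ _j : Fin k, ∑ r : Fin N × Fin b, s r.1 * f r.2 * (if x r.1 = r.2 then 1 else 0) := by
      rw [prod_const, card_univ, Fintype.card_fin, h1]
    rw [h2, Finset.prod_univ_sum, Fintype.piFinset_univ]
    refine sum_congr rfl fun q _ => ?_
    rw [prod_mul_distrib]
    congr 1
    by_cases hq : ∀ j, x (q j).1 = (q j).2
    · rw [if_pos hq]
      exact prod_eq_one fun j _ => by rw [if_pos (hq j)]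
    · rw [if_neg hq]
      push Not at hq
      obtain ⟨j, hj⟩ := hq
      exact prod_eq_zero (mem_univ j) (by rw [if_neg hj])
  simp only [hexp]
  rw [E_sum, E_sum, ← sum_sub_distrib]
  refine (abs_sum_le_sum_abs _ _).trans ?_
  have h3 : ((∑ i, |s i|) * ∑ d, |f d|) ^ k = ∑ q : Fin k → Fin N × Fin b, ∏ j, (|s (q j).1| * |f (q j).2|) := by
    have h4 : (∑ i, |s i|) * ∑ d, |f d| = ∑ r : Fin N × Fin b, |s r.1| * |f r.2| := by
      rw [Fintype.sum_prod_type, sum_mul]
      exact sum_congr rfl fun i _ => by rw [mul_sum]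
    have h5 : ((∑ i, |s i|) * ∑ d, |f d|) ^ k = ∏ _j : Fin k, ∑ r : Fin N × Fin b, |s r.1| * |f r.2| := by
      rw [prod_const, card_univ, Fintype.card_fin, h4]
    rw [h5, Finset.prod_univ_sum, Fintype.piFinset_univ]
  rw [h3, sum_mul]
  refine sum_le_sum fun q _ => ?_
  rw [E_mul, E_mul, ← mul_sub, abs_mul, abs_prod]
  have h6 := h k hk (fun j => (q j).1) (fun j => (q j).2)
  simp only [abs_mul]
  exact mul_le_mul_of_nonneg_left h6 (prod_nonneg fun j _ => by positivity)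

end Pool.Agent.V5helper15.RM
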