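import Mathlib

/-!
# Taylor polynomials of `exp (i y)` and a product estimate
-/

set_option autoImplicit false

namespace Pool.Agent.V5helper15.RM

open Finset

/-- The Taylor polynomial of `exp (i y)`. -/
noncomputable def tay (n : ℕ) (y : ℝ) : ℂ := ∑ k ∈ range n, (Complex.I * y) ^ k / (k.factorial : ℂ)

theorem hasDerivAt_tay (n : ℕ) (y : ℝ) : HasDerivAt (tay (n + 1)) (Complex.I * tay n y) y := by
  have h1 : ∀ k : ℕ, HasDerivAt (fun y : ℝ => (Complex.I * (y : ℂ)) ^ (k + 1) / ((k + 1).factorial : ℂ))
      (Complex.I * ((Complex.I * y) ^ k / (k.factorial : ℂ))) y := by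
    intro k
    have h2 : HasDerivAt (fun y : ℝ => Complex.I * (y : ℂ)) (Complex.I * 1) y :=
      (Complex.ofRealCLM.hasDerivAt (x := y)).const_mul Complex.I
    have h3 := (h2.pow (k + 1)).div_const ((k + 1).factorial : ℂ)
    refine h3.congr_deriv ?_
    have h4 : ((k + 1).factorial : ℂ) = ((k : ℂ) + 1) * (k.factorial : ℂ) := by
      rw [Nat.factorial_succ]; push_cast; ring
    have h5 : (k.factorial : ℂ) ≠ 0 := by exact_mod_cast k.factorial_ne_zero
    have h6 : ((k : ℂ) + 1) ≠ 0 := by exact_mod_cast (Nat.succ_ne_zero k)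
    rw [h4]
    push_cast
    field_simp
  have h7 : tay (n + 1) = fun y : ℝ => (∑ k ∈ range n, (Complex.I * (y : ℂ)) ^ (k + 1) / ((k + 1).factorial : ℂ)) + 1 := by
    funext y
    unfold tay
    rw [sum_range_succ']
    simp
  rw [h7]
  have h8 := (HasDerivAt.fun_sum (u := range n) fun k _ => h1 k).add_const (1 : ℂ)
  refine h8.congr_deriv ?_
  unfold tay
  rw [mul_sum]

theorem tay_bound (n : ℕ) (y : ℝ) : ‖Complex.exp (Complex.I * y) - tay n y‖ ≤ |y| ^ n / n.factorial := by
  have key : ∀ n : ℕ, ∀ y : ℝ, 0 ≤ y → ‖Complex.exp (Complex.I * y) - tay n y‖ ≤ y ^ n / n.factorial := by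
    intro n
    induction n with
    | zero =>
      intro y _
      have : ‖Complex.exp (Complex.I * y)‖ = 1 := by
        rw [mul_comm]; exact Complex.norm_exp_ofReal_mul_I y
      simp [tay, this]
    | succ n ih =>
      intro y hy
      have hexp : ∀ t : ℝ, HasDerivAt (fun t : ℝ => Complex.exp (Complex.I * (t : ℂ))) (Complex.I * Complex.exp (Complex.I * t)) t := by
        intro t
        have h2 : HasDerivAt (fun y : ℝ => Complex.I * (y : ℂ)) (Complex.I * 1) t :=
          (Complex.ofRealCLM.hasDerivAt (x := t)).const_mul Complex.I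
        have h3 := h2.cexp
        refine h3.congr_deriv ?_
        ring
      have hd : ∀ t : ℝ, HasDerivAt (fun t : ℝ => Complex.exp (Complex.I * (t : ℂ)) - tay (n + 1) t)
          (Complex.I * (Complex.exp (Complex.I * t) - tay n t)) t := by
        intro t
        have := (hexp t).sub (hasDerivAt_tay n t)
        refine this.congr_deriv ?_
        ring
      have hB : ∀ t : ℝ, HasDerivAt (fun t : ℝ => t ^ (n + 1) / ((n + 1).factorial : ℝ)) (t ^ n / n.factorial) t := by
        intro t
        have h3 := (hasDerivAt_pow (n + 1) t).div_const ((n + 1).factorial : ℝ)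
        refine h3.congr_deriv ?_
        have h4 : ((n + 1).factorial : ℝ) = ((n : ℝ) + 1) * (n.factorial : ℝ) := by
          rw [Nat.factorial_succ]; push_cast; ring
        have h5 : (n.factorial : ℝ) ≠ 0 := by exact_mod_cast n.factorial_ne_zero
        rw [h4]
        push_cast
        field_simp
      have := image_norm_le_of_norm_deriv_right_le_deriv_boundary (a := 0) (b := y)
        (f := fun t : ℝ => Complex.exp (Complex.I * (t : ℂ)) - tay (n + 1) t)
        (f' := fun t : ℝ => Complex.I * (Complex.exp (Complex.I * t) - tay n t))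
        (fun t _ => (hd t).continuousAt.continuousWithinAt)
        (fun t _ => (hd t).hasDerivWithinAt)
        (B := fun t : ℝ => t ^ (n + 1) / ((n + 1).factorial : ℝ)) (B' := fun t : ℝ => t ^ n / n.factorial)
        (by
          have : tay (n + 1) 0 = 1 := by
            unfold tay
            rw [sum_range_succ']
            simp
          simp [this])
        hB
        (fun t ht => by
          rw [norm_mul, Complex.norm_I, one_mul]
          exact ih t ht.1)
        (x := y) ⟨hy, le_rfl⟩
      exact this
  rcases le_total 0 y with hy | hy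
  · rw [abs_of_nonneg hy]
    exact key n y hy
  · rw [abs_of_nonpos hy]
    have h1 := key n (-y) (by linarith)
    have h2 : Complex.exp (Complex.I * y) - tay n y =
        (starRingEnd ℂ) (Complex.exp (Complex.I * ((-y : ℝ) : ℂ)) - tay n (-y)) := by
      unfold tay
      rw [map_sub, ← Complex.exp_conj, map_sum]
      congr 1
      · congr 1
        simp
      · refine sum_congr rfl fun k _ => ?_
        simp
    rw [h2, Complex.norm_conj]
    exact h1

/-- The difference of two products. -/
theorem prod_diff {ι : Type*} (s : Finset ι) (a c : ι → ℂ) (ha : ∀ i ∈ s, ‖a i‖ ≤ 1) (hc : ∀ i ∈ s, ‖c i‖ ≤ 1) :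
    ‖∏ i ∈ s, a i - ∏ i ∈ s, c i‖ ≤ ∑ i ∈ s, ‖a i - c i‖ := by
  classical
  induction s using Finset.induction_on with
  | empty => simp
  | insert j s hj ih =>
    rw [prod_insert hj, prod_insert hj, sum_insert hj]
    have h1 := ih (fun i hi => ha i (mem_insert_of_mem hi)) (fun i hi => hc i (mem_insert_of_mem hi))
    have h2 : a j * ∏ i ∈ s, a i - c j * ∏ i ∈ s, c i =
        (a j - c j) * ∏ i ∈ s, a i + c j * (∏ i ∈ s, a i - ∏ i ∈ s, c i) := by ring
    rw [h2]
    refine (norm_add_le _ _).trans ?_
    rw [norm_mul, norm_mul]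
    have h3 : ‖∏ i ∈ s, a i‖ ≤ 1 := by
      rw [norm_prod]
      exact prod_le_one (fun i _ => norm_nonneg _) fun i hi => ha i (mem_insert_of_mem hi)
    have h4 := hc j (mem_insert_self _ _)
    have h5 := norm_nonneg (a j - c j)
    have h6 := norm_nonneg (∏ i ∈ s, a i - ∏ i ∈ s, c i)
    nlinarith

end Pool.Agent.V5helper15.RM
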