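import Pool.Agent.V5helper15.RM.Ref
import Pool.Agent.R485.Mult.Moment

/-!
# Approximation of indicator functions of intervals by trigonometric polynomials
-/

set_option autoImplicit false

namespace Pool.Agent.V5helper15.RM

open Finset Filter Topology
open Pool.Agent.H469R2.NK (e norm_e e_add e_zero conj_e)
open Pool.Agent.W565.MOFS (P2 cos_sum saw_upper saw_lower re_e)
open Pool.Agent.R485.Mult (indicator_eq e_intCast)

/-- `φ` is approximated, up to `ρ`, by a trigonometric polynomial of degree `H`, with coefficients whose absolute values add up to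
at most `L`, and with the mean value `μ` -/
def TA (H : ℕ) (L ρ μ : ℝ) (φ : ℝ → ℝ) : Prop :=
  ∃ c : ℤ → ℂ, c 0 = μ ∧ (∑ h ∈ Icc (-(H : ℤ)) H, ‖c h‖) ≤ L ∧
    ∀ t, ‖(φ t : ℂ) - ∑ h ∈ Icc (-(H : ℤ)) H, c h * e (h * t)‖ ≤ ρ

theorem TA.add {H : ℕ} {L ρ μ L' ρ' μ' : ℝ} {φ ψ : ℝ → ℝ} (h : TA H L ρ μ φ) (h' : TA H L' ρ' μ' ψ) :
    TA H (L + L') (ρ + ρ') (μ + μ') (fun t => φ t + ψ t) := by
  obtain ⟨c, h0, h1, h2⟩ := h
  obtain ⟨c', h0', h1', h2'⟩ := h'
  refine ⟨fun h => c h + c' h, by push_cast; rw [h0, h0'], ?_, fun t => ?_⟩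
  · refine (sum_le_sum fun h _ => norm_add_le _ _).trans ?_
    rw [sum_add_distrib]
    exact add_le_add h1 h1'
  · have e1 : (((φ t + ψ t : ℝ)) : ℂ) - ∑ h ∈ Icc (-(H : ℤ)) H, (c h + c' h) * e (h * t) =
        ((φ t : ℂ) - ∑ h ∈ Icc (-(H : ℤ)) H, c h * e (h * t)) + ((ψ t : ℂ) - ∑ h ∈ Icc (-(H : ℤ)) H, c' h * e (h * t)) := by
      simp only [add_mul]
      rw [sum_add_distrib]
      push_cast
      ring
    rw [e1]
    exact (norm_add_le _ _).trans (add_le_add (h2 t) (h2' t))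

theorem TA.smul {H : ℕ} {L ρ μ : ℝ} {φ : ℝ → ℝ} (h : TA H L ρ μ φ) (r : ℝ) :
    TA H (|r| * L) (|r| * ρ) (r * μ) (fun t => r * φ t) := by
  obtain ⟨c, h0, h1, h2⟩ := h
  refine ⟨fun h => r * c h, by push_cast; rw [h0], ?_, fun t => ?_⟩
  · have : ∀ h, ‖(r : ℂ) * c h‖ = |r| * ‖c h‖ := fun h => by rw [norm_mul, Complex.norm_real, Real.norm_eq_abs]
    simp only [this]
    rw [← mul_sum]
    exact mul_le_mul_of_nonneg_left h1 (abs_nonneg _)
  · have e1 : ((r * φ t : ℝ) : ℂ) - ∑ h ∈ Icc (-(H : ℤ)) H, r * c h * e (h * t) =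
        r * ((φ t : ℂ) - ∑ h ∈ Icc (-(H : ℤ)) H, c h * e (h * t)) := by
      rw [mul_sub, mul_sum]
      push_cast
      congr 1
      exact sum_congr rfl fun h _ => by ring
    rw [e1, norm_mul, Complex.norm_real, Real.norm_eq_abs]
    exact mul_le_mul_of_nonneg_left (h2 t) (abs_nonneg _)

theorem TA.const (H : ℕ) (μ : ℝ) : TA H |μ| 0 μ (fun _ => μ) := by
  refine ⟨fun h => if h = 0 then μ else 0, by simp, ?_, fun t => ?_⟩
  · have : ∀ h : ℤ, ‖(if h = 0 then (μ : ℂ) else 0)‖ = if h = 0 then |μ| else 0 := by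
      intro h; split_ifs <;> simp
    simp only [this]
    rw [sum_ite_eq' (Icc (-(H : ℤ)) H) 0, if_pos (by simp)]
  · have : ∀ h : ℤ, (if h = 0 then (μ : ℂ) else 0) * e (h * t) = if h = 0 then (μ : ℂ) else 0 := by
      intro h
      split_ifs with h0
      · rw [h0]; simp [e_zero]
      · simp
    simp only [this]
    rw [sum_ite_eq' (Icc (-(H : ℤ)) H) 0, if_pos (by simp)]
    simp

theorem TA.shift {H : ℕ} {L ρ μ : ℝ} {φ : ℝ → ℝ} (h : TA H L ρ μ φ) (s : ℝ) :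
    TA H L ρ μ (fun t => φ (t + s)) := by
  obtain ⟨c, h0, h1, h2⟩ := h
  refine ⟨fun h => c h * e (h * s), by simp [e_zero, h0], ?_, fun t => ?_⟩
  · simp only [norm_mul, norm_e, mul_one]
    exact h1
  · have := h2 (t + s)
    have e1 : ∑ h ∈ Icc (-(H : ℤ)) H, c h * e (h * s) * e (h * t) = ∑ h ∈ Icc (-(H : ℤ)) H, c h * e (h * (t + s)) := by
      refine sum_congr rfl fun h _ => ?_
      rw [mul_add, e_add]; ring
    rw [e1]
    exact this

theorem TA.weaken {H : ℕ} {L ρ μ L' ρ' μ' : ℝ} {φ ψ : ℝ → ℝ} (h : TA H L ρ μ φ) (hL : L ≤ L') (hρ : ρ ≤ ρ') (hμ : μ = μ')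
    (hφ : ∀ t, φ t = ψ t) : TA H L' ρ' μ' ψ := by
  obtain ⟨c, h0, h1, h2⟩ := h
  refine ⟨c, by rw [h0, hμ], h1.trans hL, fun t => ?_⟩
  rw [← hφ]
  exact (h2 t).trans hρ

theorem sum_inv_sq_le (H n : ℕ) (hH : 1 ≤ H) : ∑ k ∈ Ioc H (H + n), 1 / (k : ℝ) ^ 2 ≤ 1 / (H : ℝ) - 1 / ((H + n : ℕ) : ℝ) := by
  induction n with
  | zero => simp
  | succ n ih =>
    have h1 : Ioc H (H + (n + 1)) = insert (H + n + 1) (Ioc H (H + n)) := by
      ext x; simp only [mem_Ioc, mem_insert]; omega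
    rw [h1, sum_insert (by simp)]
    have hp : (0 : ℝ) < ((H + n : ℕ) : ℝ) := by exact_mod_cast (by omega : 0 < H + n)
    have h2 : 1 / (((H + n + 1 : ℕ)) : ℝ) ^ 2 ≤ 1 / ((H + n : ℕ) : ℝ) - 1 / ((H + (n + 1) : ℕ) : ℝ) := by
      have e1 : ((H + n + 1 : ℕ) : ℝ) = ((H + n : ℕ) : ℝ) + 1 := by push_cast; ring
      have e2 : ((H + (n + 1) : ℕ) : ℝ) = ((H + n : ℕ) : ℝ) + 1 := by push_cast; ring
      rw [e1, e2, div_sub_div _ _ hp.ne' (by positivity), div_le_div_iff₀ (by positivity) (by positivity)]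
      nlinarith
    linarith

theorem ta_P2 (H : ℕ) (hH : 1 ≤ H) : TA H 1 (1 / H) 0 (fun t => P2 (Int.fract t)) := by
  have hpi := Real.pi_gt_three
  have hpi2 : 9 < Real.pi ^ 2 := by nlinarith
  have hHR : (0 : ℝ) < H := by exact_mod_cast hH
  -- a symmetric sum
  have hsym : ∀ g : ℤ → ℂ, g 0 = 0 → ∑ h ∈ Icc (-(H : ℤ)) H, g h = ∑ k ∈ Icc 1 H, (g k + g (-(k : ℤ))) := by
    intro g hg
    have h1 : Icc (-(H : ℤ)) H = (Icc 1 H).image (fun k : ℕ => -(k : ℤ)) ∪ ({0} ∪ (Icc 1 H).image (fun k : ℕ => (k : ℤ))) := by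
      ext x
      simp only [mem_Icc, mem_union, mem_image, mem_singleton]
      constructor
      · rintro ⟨h2, h3⟩
        rcases lt_trichotomy x 0 with h | h | h
        · left; exact ⟨x.natAbs, by omega, by omega⟩
        · right; left; exact h
        · right; right; exact ⟨x.natAbs, by omega, by omega⟩
      · rintro (⟨k, h2, h3⟩ | h | ⟨k, h2, h3⟩) <;> omega
    rw [h1, sum_union, sum_union, sum_singleton, hg, zero_add, sum_image, sum_image, sum_add_distrib, add_comm]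
    · intro a _ c _ hac; simpa using hac
    · intro a _ c _ hac; simpa using hac
    · rw [disjoint_left]
      intro x hx
      simp only [mem_singleton] at hx
      simp only [mem_image, mem_Icc, not_exists]
      rintro k ⟨h2, h3⟩
      omega
    · rw [disjoint_left]
      intro x hx
      simp only [mem_image, mem_Icc] at hx
      obtain ⟨k, h2, h3⟩ := hx
      simp only [mem_union, mem_singleton, mem_image, mem_Icc, not_or, not_exists]
      exact ⟨by omega, by rintro l ⟨h4, h5⟩; omega⟩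
  obtain ⟨c, hc⟩ : ∃ c : ℤ → ℂ, c = fun h : ℤ => ((1 / (2 * Real.pi ^ 2 * (h : ℝ) ^ 2) : ℝ) : ℂ) := ⟨_, rfl⟩
  have hc0 : c 0 = 0 := by rw [hc]; simp
  refine ⟨c, by rw [hc0]; simp, ?_, fun t => ?_⟩
  · -- the sum of the coefficients
    have hs : HasSum (fun n : ℕ => 1 / (n : ℝ) ^ 2 * Real.cos (2 * Real.pi * n * 0)) (Real.pi ^ 2 * P2 (Int.fract 0)) := cos_sum 0
    have h2 : ∑ h ∈ Icc (-(H : ℤ)) H, ‖c h‖ = ((∑ k ∈ Icc 1 H, (1 / Real.pi ^ 2) * (1 / (k : ℝ) ^ 2) : ℝ)) := by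
      have h3 := hsym (fun h => ((‖c h‖ : ℝ) : ℂ)) (by rw [hc0]; simp)
      have h4 : ((∑ h ∈ Icc (-(H : ℤ)) H, ‖c h‖ : ℝ) : ℂ) = ((∑ k ∈ Icc 1 H, (1 / Real.pi ^ 2) * (1 / (k : ℝ) ^ 2) : ℝ) : ℂ) := by
        push_cast
        rw [h3]
        refine sum_congr rfl fun k hk => ?_
        have hk1 : (0 : ℝ) < k := by exact_mod_cast (mem_Icc.1 hk).1
        have e1 : ‖c (k : ℤ)‖ = 1 / (2 * Real.pi ^ 2 * (k : ℝ) ^ 2) := by
          rw [hc]; dsimp only; rw [Complex.norm_real, Real.norm_eq_abs, abs_of_nonneg (by positivity)]; push_cast; rfl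
        have e2 : ‖c (-(k : ℤ))‖ = 1 / (2 * Real.pi ^ 2 * (k : ℝ) ^ 2) := by
          rw [hc]; dsimp only; rw [Complex.norm_real, Real.norm_eq_abs, abs_of_nonneg (by positivity)]; push_cast; ring
        rw [e1, e2]
        push_cast
        have : (k : ℂ) ≠ 0 := by exact_mod_cast hk1.ne'
        field_simp
        norm_num
      exact_mod_cast h4
    rw [h2, ← mul_sum]
    have h5 : ∑ k ∈ Icc 1 H, 1 / (k : ℝ) ^ 2 ≤ Real.pi ^ 2 * P2 (Int.fract 0) := by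
      have := sum_le_hasSum (Icc 1 H) (fun n _ => by
        rw [mul_zero, Real.cos_zero]; positivity) hs
      refine le_trans (le_of_eq ?_) this
      refine sum_congr rfl fun k _ => by rw [mul_zero, Real.cos_zero, mul_one]
    have h6 : P2 (Int.fract 0) = 1 / 6 := by simp [Pool.Agent.W565.MOFS.P2]
    rw [h6] at h5
    calc 1 / Real.pi ^ 2 * ∑ k ∈ Icc 1 H, 1 / (k : ℝ) ^ 2 ≤ 1 / Real.pi ^ 2 * (Real.pi ^ 2 * (1 / 6)) := by gcongr
      _ = 1 / 6 := by field_simp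
      _ ≤ 1 := by norm_num
  · -- the tail
    have hs := cos_sum t
    have h3 : ∑ h ∈ Icc (-(H : ℤ)) H, c h * e (h * t) =
        ((1 / Real.pi ^ 2 * ∑ k ∈ Icc 1 H, 1 / (k : ℝ) ^ 2 * Real.cos (2 * Real.pi * k * t) : ℝ) : ℂ) := by
      rw [hsym (fun h => c h * e (h * t)) (by simp [hc0])]
      push_cast
      rw [mul_sum]
      refine sum_congr rfl fun k hk => ?_
      have e1 : c (k : ℤ) = ((1 / (2 * Real.pi ^ 2 * (k : ℝ) ^ 2) : ℝ) : ℂ) := by rw [hc]; push_cast; rfl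
      have e2 : c (-(k : ℤ)) = ((1 / (2 * Real.pi ^ 2 * (k : ℝ) ^ 2) : ℝ) : ℂ) := by rw [hc]; push_cast; ring
      have e3 : e (-(k : ℝ) * t) = (starRingEnd ℂ) (e ((k : ℝ) * t)) := by
        rw [conj_e]; congr 1; ring
      rw [e1, e2, ← mul_add, e3, Complex.add_conj, re_e]
      have hk1 : (k : ℂ) ≠ 0 := by
        have := (mem_Icc.1 hk).1
        exact_mod_cast (by omega : k ≠ 0)
      have hpic : (Real.pi : ℂ) ≠ 0 := by exact_mod_cast Real.pi_ne_zero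
      have e4 : 2 * Real.pi * ((k : ℝ) * t) = 2 * Real.pi * k * t := by ring
      rw [e4]
      push_cast
      field_simp
    rw [h3, ← Complex.ofReal_sub, Complex.norm_real, Real.norm_eq_abs]
    -- partial sums
    have hpart : ∀ n : ℕ, |∑ k ∈ range (H + n + 1), 1 / (k : ℝ) ^ 2 * Real.cos (2 * Real.pi * k * t) -
        ∑ k ∈ Icc 1 H, 1 / (k : ℝ) ^ 2 * Real.cos (2 * Real.pi * k * t)| ≤ 1 / (H : ℝ) := by
      intro n
      have h4 : ∑ k ∈ range (H + n + 1), 1 / (k : ℝ) ^ 2 * Real.cos (2 * Real.pi * k * t) =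
          ∑ k ∈ Icc 1 H, 1 / (k : ℝ) ^ 2 * Real.cos (2 * Real.pi * k * t) +
          ∑ k ∈ Ioc H (H + n), 1 / (k : ℝ) ^ 2 * Real.cos (2 * Real.pi * k * t) := by
        have h5 : range (H + n + 1) = insert 0 (Icc 1 H ∪ Ioc H (H + n)) := by
          ext x; simp only [mem_range, mem_insert, mem_union, mem_Icc, mem_Ioc]; omega
        rw [h5, sum_insert (by simp), sum_union (by
          rw [disjoint_left]; intro x hx hx'; simp only [mem_Icc] at hx; simp only [mem_Ioc] at hx'; omega)]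
        simp
      rw [h4, add_sub_cancel_left]
      refine (abs_sum_le_sum_abs _ _).trans ?_
      have h6 : ∑ k ∈ Ioc H (H + n), |1 / (k : ℝ) ^ 2 * Real.cos (2 * Real.pi * k * t)| ≤ ∑ k ∈ Ioc H (H + n), 1 / (k : ℝ) ^ 2 := by
        refine sum_le_sum fun k _ => ?_
        rw [abs_mul, abs_of_nonneg (by positivity : (0 : ℝ) ≤ 1 / (k : ℝ) ^ 2)]
        exact mul_le_of_le_one_right (by positivity) (Real.abs_cos_le_one _)
      refine h6.trans ((sum_inv_sq_le H n hH).trans ?_)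
      have : (0 : ℝ) ≤ 1 / ((H + n : ℕ) : ℝ) := by positivity
      linarith
    have hlim : Tendsto (fun n : ℕ => |∑ k ∈ range (H + n + 1), 1 / (k : ℝ) ^ 2 * Real.cos (2 * Real.pi * k * t) -
        ∑ k ∈ Icc 1 H, 1 / (k : ℝ) ^ 2 * Real.cos (2 * Real.pi * k * t)|) atTop
        (𝓝 |Real.pi ^ 2 * P2 (Int.fract t) - ∑ k ∈ Icc 1 H, 1 / (k : ℝ) ^ 2 * Real.cos (2 * Real.pi * k * t)|) := by
      have h4 : Tendsto (fun n : ℕ => H + n + 1) atTop atTop := by
        refine tendsto_atTop_mono (fun n => ?_) tendsto_id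
        simp only [id]
        omega
      exact ((hs.tendsto_sum_nat.comp h4).sub_const _).abs
    have h7 := le_of_tendsto' hlim hpart
    have h8 : P2 (Int.fract t) - 1 / Real.pi ^ 2 * ∑ k ∈ Icc 1 H, 1 / (k : ℝ) ^ 2 * Real.cos (2 * Real.pi * k * t) =
        1 / Real.pi ^ 2 * (Real.pi ^ 2 * P2 (Int.fract t) - ∑ k ∈ Icc 1 H, 1 / (k : ℝ) ^ 2 * Real.cos (2 * Real.pi * k * t)) := by
      rw [mul_sub, ← mul_assoc, one_div_mul_cancel (by positivity), one_mul]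
    rw [h8, abs_mul, abs_of_nonneg (by positivity : (0 : ℝ) ≤ 1 / Real.pi ^ 2)]
    have h9 : 1 / Real.pi ^ 2 ≤ 1 := by rw [div_le_one (by positivity)]; linarith
    have h10 : 0 ≤ 1 / (H : ℝ) := by positivity
    calc 1 / Real.pi ^ 2 * |Real.pi ^ 2 * P2 (Int.fract t) - ∑ k ∈ Icc 1 H, 1 / (k : ℝ) ^ 2 * Real.cos (2 * Real.pi * k * t)|
        ≤ 1 * (1 / H) := mul_le_mul h9 h7 (abs_nonneg _) (by norm_num)
      _ = 1 / H := one_mul _

/-- the indicator function of an interval modulo one -/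
noncomputable def ind (α β t : ℝ) : ℝ := if α ≤ Int.fract t ∧ Int.fract t < β then 1 else 0

theorem ind_nonneg (α β t : ℝ) : 0 ≤ ind α β t := by unfold ind; split_ifs <;> norm_num

theorem ind_le (α β t : ℝ) : ind α β t ≤ 1 := by unfold ind; split_ifs <;> norm_num

/-- difference quotients of `P2` -/
noncomputable def dq (δ t : ℝ) : ℝ := (P2 (Int.fract (t + δ)) - P2 (Int.fract t)) / (2 * δ)

theorem dq_abs {δ : ℝ} (h0 : 0 < δ) (h1 : δ ≤ 1) (t : ℝ) : |dq δ t| ≤ 1 := by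
  unfold dq
  have h2 := saw_lower t δ h0 h1
  have h3 := saw_upper (t + δ) δ h0 h1
  rw [add_sub_cancel_right] at h3
  have h4 := Int.fract_nonneg (t + δ)
  have h5 := (Int.fract_lt_one t).le
  rw [abs_le]
  constructor <;> linarith

theorem ta_dq {H : ℕ} (hH : 1 ≤ H) {δ : ℝ} (h0 : 0 < δ) : TA H (1 / δ) (1 / (δ * H)) 0 (dq δ) := by
  have hHR : (0 : ℝ) < H := by exact_mod_cast hH
  have h1 := (((ta_P2 H hH).shift δ).smul (1 / (2 * δ))).add ((ta_P2 H hH).smul (-(1 / (2 * δ))))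
  refine h1.weaken (le_of_eq ?_) (le_of_eq ?_) (by simp) (fun t => ?_)
  · rw [abs_neg, abs_of_pos (by positivity : (0 : ℝ) < 1 / (2 * δ))]; field_simp; norm_num
  · rw [abs_neg, abs_of_pos (by positivity : (0 : ℝ) < 1 / (2 * δ))]; field_simp; norm_num
  · unfold dq; ring

/-- the majorant -/
noncomputable def Up (δ α β t : ℝ) : ℝ := (β - α + δ) + (dq δ (t + (-β - δ)) + (-1) * dq δ (t + -α))

/-- the minorant -/
noncomputable def Lo (δ α β t : ℝ) : ℝ := (β - α - δ) + (dq δ (t + -β) + (-1) * dq δ (t + (-α - δ)))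

theorem ind_le_Up {δ : ℝ} (h0 : 0 < δ) (h1 : δ ≤ 1) {α β : ℝ} (ha : 0 ≤ α) (hab : α < β) (hb : β ≤ 1) (t : ℝ) :
    ind α β t ≤ Up δ α β t := by
  have h2 := indicator_eq t α β ha hab hb
  have h3 := saw_upper (t - β) δ h0 h1
  have h4 := saw_lower (t - α) δ h0 h1
  unfold ind Up dq
  have e1 : t + (-β - δ) + δ = t - β := by ring
  have e2 : t + (-β - δ) = t - β - δ := by ring
  have e3 : t + -α = t - α := by ring
  rw [e1, e2, e3]
  linarith

theorem Lo_le_ind {δ : ℝ} (h0 : 0 < δ) (h1 : δ ≤ 1) {α β : ℝ} (ha : 0 ≤ α) (hab : α < β) (hb : β ≤ 1) (t : ℝ) :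
    Lo δ α β t ≤ ind α β t := by
  have h2 := indicator_eq t α β ha hab hb
  have h3 := saw_lower (t - β) δ h0 h1
  have h4 := saw_upper (t - α) δ h0 h1
  unfold ind Lo dq
  have e1 : t + (-α - δ) + δ = t - α := by ring
  have e2 : t + (-α - δ) = t - α - δ := by ring
  have e3 : t + -β = t - β := by ring
  rw [e1, e2, e3]
  linarith

theorem Up_abs {δ : ℝ} (h0 : 0 < δ) (h1 : δ ≤ 1) {α β : ℝ} (ha : 0 ≤ α) (hab : α < β) (hb : β ≤ 1) (t : ℝ) :
    |Up δ α β t| ≤ 4 := by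
  have h2 := abs_le.1 (dq_abs h0 h1 (t + (-β - δ)))
  have h3 := abs_le.1 (dq_abs h0 h1 (t + -α))
  unfold Up
  rw [abs_le]
  constructor <;> linarith [h2.1, h2.2, h3.1, h3.2]

theorem ta_Up {H : ℕ} (hH : 1 ≤ H) {δ : ℝ} (h0 : 0 < δ) (h1 : δ ≤ 1) {α β : ℝ} (ha : 0 ≤ α) (hab : α < β) (hb : β ≤ 1) :
    TA H (4 / δ) (2 / (δ * H)) (β - α + δ) (Up δ α β) := by
  have hHR : (0 : ℝ) < H := by exact_mod_cast hH
  have h2 := (TA.const H (β - α + δ)).add (((ta_dq hH h0).shift (-β - δ)).add (((ta_dq hH h0).shift (-α)).smul (-1)))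
  refine h2.weaken ?_ (le_of_eq ?_) (by simp) (fun t => rfl)
  · rw [abs_of_pos (by linarith : 0 < β - α + δ)]
    have h3 : |(-1 : ℝ)| = 1 := by norm_num
    rw [h3, one_mul]
    have h4 : 1 ≤ 1 / δ := by rw [le_div_iff₀ h0]; linarith
    have h5 : 4 / δ = 4 * (1 / δ) := by ring
    rw [h5]
    linarith
  · have h3 : |(-1 : ℝ)| = 1 := by norm_num
    rw [h3]; ring

theorem ta_Dif {H : ℕ} (hH : 1 ≤ H) {δ : ℝ} (h0 : 0 < δ) (h1 : δ ≤ 1) {α β : ℝ} :
    TA H (6 / δ) (4 / (δ * H)) (2 * δ) (fun t => Up δ α β t - Lo δ α β t) := by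
  have hHR : (0 : ℝ) < H := by exact_mod_cast hH
  have h2 := (TA.const H (2 * δ)).add ((((ta_dq hH h0).shift (-β - δ)).add (((ta_dq hH h0).shift (-α)).smul (-1))).add
    ((((ta_dq hH h0).shift (-β)).smul (-1)).add ((ta_dq hH h0).shift (-α - δ))))
  have h3 : |(-1 : ℝ)| = 1 := by norm_num
  refine h2.weaken ?_ (le_of_eq ?_) (by simp) (fun t => ?_)
  · rw [h3, one_mul, abs_of_pos (by linarith : 0 < 2 * δ)]
    have h4 : 1 ≤ 1 / δ := by rw [le_div_iff₀ h0]; linarith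
    have h5 : 6 / δ = 6 * (1 / δ) := by ring
    rw [h5]
    linarith
  · rw [h3]; ring
  · unfold Up Lo
    ring

end Pool.Agent.V5helper15.RM
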