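import Pool.Agent.V5helper15.RM.Wrd

/-!
# The variance of a function of consecutive letters
-/

set_option autoImplicit false

namespace Pool.Agent.V5helper15.RM

open Finset Filter Topology

variable {b ℓ : ℕ} {F : (Fin ℓ → ℕ) → ℝ}

/-- the mean of a function of the words of length `ℓ` -/
noncomputable def mn (b : ℕ) (F : (Fin ℓ → ℕ) → ℝ) : ℝ := (∑ v : Fin ℓ → Fin b, F (fun m => (v m : ℕ))) / (b : ℝ) ^ ℓ

/-- the covariance at the distance `s` -/
noncomputable def cv (b : ℕ) (F : (Fin ℓ → ℕ) → ℝ) (s : ℕ) : ℝ :=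
  (∑ v : Fin (s + ℓ) → Fin b, (F (wn ℓ (ex v) 0) - mn b F) * (F (wn ℓ (ex v) s) - mn b F)) / (b : ℝ) ^ (s + ℓ)

/-- the limiting variance -/
noncomputable def vr (b : ℕ) (F : (Fin ℓ → ℕ) → ℝ) : ℝ := cv b F 0 + 2 * ∑ s ∈ Ico 1 ℓ, cv b F s

theorem E_centred (hb : 0 < b) (F : (Fin ℓ → ℕ) → ℝ) : E (un b ℓ) (fun v => F (fun m => (v m : ℕ)) - mn b F) = 0 := by
  rw [E_sub, (un_prob hb ℓ).const, E_un]
  unfold mn
  ring

theorem cv_zero (hb : 0 < b) {s : ℕ} (hs : ℓ ≤ s) : cv b F s = 0 := by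
  unfold cv
  rw [← E_un, E_window2 (n := ℓ) (n' := ℓ) hb (by omega) le_rfl (fun w => F w - mn b F) (fun w => F w - mn b F), E_centred hb F]
  ring

theorem cv_pair (hb : 0 < b) {L j s : ℕ} (hL : j + s + ℓ ≤ L) :
    E (un b L) (fun u => (F (wn ℓ (ex u) j) - mn b F) * (F (wn ℓ (ex u) (j + s)) - mn b F)) = cv b F s := by
  set exN : (Fin (s + ℓ) → ℕ) → ℕ → ℕ := fun w i => if h : i < s + ℓ then w ⟨i, h⟩ else 0 with hex
  set H : (Fin (s + ℓ) → ℕ) → ℝ := fun w => (F (wn ℓ (exN w) 0) - mn b F) * (F (wn ℓ (exN w) s) - mn b F) with hH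
  have h1 : ∀ u : Fin L → Fin b, (F (wn ℓ (ex u) j) - mn b F) * (F (wn ℓ (ex u) (j + s)) - mn b F) =
      H (wn (s + ℓ) (ex u) j) := by
    intro u
    have e1 : wn ℓ (exN (wn (s + ℓ) (ex u) j)) 0 = wn ℓ (ex u) j := by
      funext m
      simp only [wn, hex, zero_add]
      rw [dif_pos (by have := m.2; omega)]
    have e2 : wn ℓ (exN (wn (s + ℓ) (ex u) j)) s = wn ℓ (ex u) (j + s) := by
      funext m
      simp only [wn, hex]
      rw [dif_pos (by have := m.2; omega)]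
      congr 1
      ring
    simp only [hH, e1, e2]
  simp only [h1]
  rw [E_window hb (by omega) H]
  unfold cv
  rw [← E_un]
  rfl

/-- the sum over the first `J` places -/
noncomputable def gs (b : ℕ) (F : (Fin ℓ → ℕ) → ℝ) (J : ℕ) (w : ℕ → ℕ) : ℝ := ∑ j ∈ range J, (F (wn ℓ w j) - mn b F)

/-- the function of the letters of the base `b ^ L` -/
noncomputable def gl (b L : ℕ) (F : (Fin ℓ → ℕ) → ℝ) (J : ℕ) (c : Fin (b ^ L)) : ℝ := gs b F J (wd b L c)

theorem gs_local {J L : ℕ} (hJ : J + ℓ ≤ L + 1) (w w' : ℕ → ℕ) (h : ∀ i < L, w i = w' i) : gs b F J w = gs b F J w' := by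
  unfold gs
  refine sum_congr rfl fun j hj => ?_
  rw [mem_range] at hj
  have h1 : wn ℓ w j = wn ℓ w' j := by
    funext m
    exact h _ (by have := m.2; omega)
  rw [h1]

/-- the sum of the covariances -/
noncomputable def Dv (b : ℕ) (F : (Fin ℓ → ℕ) → ℝ) (J : ℕ) : ℝ := ∑ j ∈ range J, ∑ j' ∈ range J, cv b F ((j - j') + (j' - j))

theorem va_gl (hb : 0 < b) {L J : ℕ} (hJ : J + ℓ ≤ L + 1) : va (gl b L F J) = Dv b F J := by
  unfold va gl
  rw [sum_wd b L (fun w => gs b F J w ^ 2) (fun w w' h => by rw [gs_local hJ w w' h])]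
  push_cast
  rw [← E_un]
  have h1 : ∀ u : Fin L → Fin b, gs b F J (ex u) ^ 2 =
      ∑ j ∈ range J, ∑ j' ∈ range J, (F (wn ℓ (ex u) j) - mn b F) * (F (wn ℓ (ex u) j') - mn b F) := by
    intro u
    rw [sq]
    unfold gs
    rw [sum_mul_sum]
  simp only [h1]
  rw [E_sum]
  unfold Dv
  refine sum_congr rfl fun j hj => ?_
  rw [E_sum]
  refine sum_congr rfl fun j' hj' => ?_
  rw [mem_range] at hj hj'
  rcases le_total j j' with h | h
  · have := cv_pair (F := F) hb (L := L) (j := j) (s := j' - j) (by omega)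
    rw [Nat.add_sub_cancel' h] at this
    rw [this, Nat.sub_eq_zero_of_le h, zero_add]
  · have := cv_pair (F := F) hb (L := L) (j := j') (s := j - j') (by omega)
    rw [Nat.add_sub_cancel' h] at this
    rw [Nat.sub_eq_zero_of_le h, add_zero, ← this]
    congr 1
    funext u
    ring

theorem gl_mean (hb : 0 < b) {L J : ℕ} (hJ : J + ℓ ≤ L + 1) : ∑ c, gl b L F J c = 0 := by
  have hb0 : (b : ℝ) ^ L ≠ 0 := by positivity
  unfold gl
  rw [sum_wd b L (fun w => gs b F J w) (fun w w' h => gs_local hJ w w' h)]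
  have h1 : E (un b L) (fun u => gs b F J (ex u)) = 0 := by
    unfold gs
    rw [E_sum]
    refine sum_eq_zero fun j hj => ?_
    rw [mem_range] at hj
    rw [E_window hb (show j + ℓ ≤ L by omega) (fun w => F w - mn b F)]
    exact E_centred hb F
  rw [E_un, div_eq_zero_iff] at h1
  exact h1.resolve_right hb0

theorem Dv_succ (hb : 0 < b) {J : ℕ} (hJ : ℓ ≤ J + 1) : Dv b F (J + 1) = Dv b F J + vr b F := by
  unfold Dv vr
  rw [sum_range_succ, sum_range_succ, Nat.sub_self, add_zero]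
  have h1 : ∀ j ∈ range J, ∑ j' ∈ range (J + 1), cv b F ((j - j') + (j' - j)) =
      ∑ j' ∈ range J, cv b F ((j - j') + (j' - j)) + cv b F (J - j) := by
    intro j hj
    rw [mem_range] at hj
    rw [sum_range_succ, Nat.sub_eq_zero_of_le hj.le, zero_add]
  rw [sum_congr rfl h1, sum_add_distrib]
  have h2 : ∑ j ∈ range J, cv b F (J - j) = ∑ s ∈ Ico 1 ℓ, cv b F s := by
    have e1 : ∑ j ∈ range J, cv b F (J - j) = ∑ j ∈ range J, cv b F (j + 1) := by
      rw [← Finset.sum_range_reflect]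
      refine sum_congr rfl fun j hj => ?_
      rw [mem_range] at hj
      congr 1
      omega
    have e2 : ∑ j ∈ range J, cv b F (j + 1) = ∑ s ∈ Ico 1 (J + 1), cv b F s := by
      rw [range_eq_Ico, sum_Ico_add' (fun s => cv b F s) 0 J 1]
    rw [e1, e2]
    refine (sum_subset (Ico_subset_Ico_right hJ) fun s hs hs' => ?_).symm
    rw [mem_Ico] at hs hs'
    exact cv_zero hb (by omega)
  have h3 : ∑ j' ∈ range J, cv b F ((J - j') + (j' - J)) = ∑ j ∈ range J, cv b F (J - j) := by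
    refine sum_congr rfl fun j hj => ?_
    rw [mem_range] at hj
    rw [Nat.sub_eq_zero_of_le hj.le, add_zero]
  rw [h3, h2]
  ring

theorem Dv_eq (hb : 0 < b) (m : ℕ) : Dv b F (ℓ + m) = Dv b F ℓ + m * vr b F := by
  induction m with
  | zero => simp
  | succ m ih =>
    rw [← add_assoc, Dv_succ hb (by omega), ih]
    push_cast
    ring

theorem va_lim (hb : 0 < b) :
    Tendsto (fun L : ℕ => va (gl b L F (L + 1 - ℓ)) / L) atTop (𝓝 (vr b F)) := by
  have h1 : Tendsto (fun L : ℕ => (Dv b F ℓ + (1 - 2 * ℓ) * vr b F) * (1 / (L : ℝ)) + vr b F) atTop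
      (𝓝 ((Dv b F ℓ + (1 - 2 * ℓ) * vr b F) * 0 + vr b F)) :=
    (tendsto_one_div_atTop_nhds_zero_nat.const_mul _).add_const _
  rw [mul_zero, zero_add] at h1
  refine h1.congr' ?_
  filter_upwards [eventually_ge_atTop (2 * ℓ + 1)] with L hL
  have hL0 : (L : ℝ) ≠ 0 := by
    have : 0 < L := by omega
    exact_mod_cast this.ne'
  rw [va_gl hb (by omega), show L + 1 - ℓ = ℓ + (L + 1 - 2 * ℓ) by omega, Dv_eq hb]
  rw [Nat.cast_sub (by omega)]
  push_cast
  field_simp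
  ring

theorem vr_nonneg (hb : 0 < b) : 0 ≤ vr b F := by
  refine ge_of_tendsto' (va_lim hb) fun L => ?_
  have : 0 ≤ va (gl b L F (L + 1 - ℓ)) := by unfold va; positivity
  positivity

/-- a bound for the centred function -/
theorem exists_bound (b : ℕ) (F : (Fin ℓ → ℕ) → ℝ) : ∃ C : ℝ, 0 < C ∧ ∀ w : Fin ℓ → ℕ, (∀ m, w m < b) → |F w - mn b F| ≤ C := by
  refine ⟨1 + ∑ v : Fin ℓ → Fin b, |F (fun m => (v m : ℕ)) - mn b F|, by positivity, fun w hw => ?_⟩
  have h1 := single_le_sum (f := fun v : Fin ℓ → Fin b => |F (fun m => (v m : ℕ)) - mn b F|) (fun _ _ => abs_nonneg _)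
    (mem_univ (fun m => ⟨w m, hw m⟩))
  simp only at h1
  linarith

theorem wd_lt (hb : 0 < b) (L c i : ℕ) : wd b L c i < b := Nat.mod_lt _ hb

theorem gl_cen (hb : 0 < b) {L J : ℕ} (hJ : J + ℓ ≤ L + 1) {C : ℝ} (hC0 : 0 < C)
    (hC : ∀ w : Fin ℓ → ℕ, (∀ m, w m < b) → |F w - mn b F| ≤ C) : Cen (gl b L F J) ((J + 1) * C) where
  b0 := Nat.pow_pos hb
  mean := gl_mean hb hJ
  F0 := by positivity
  bd := fun c => by
    unfold gl gs
    refine (abs_sum_le_sum_abs _ _).trans ?_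
    refine (sum_le_sum fun j _ => hC (wn ℓ (wd b L c) j) fun m => wd_lt hb _ _ _).trans ?_
    rw [sum_const, card_range, nsmul_eq_mul]
    nlinarith

end Pool.Agent.V5helper15.RM
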