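import Pool.Agent.V5helper15.RM.Comp

/-!
# Digits and random strings
-/

set_option autoImplicit false

namespace Pool.Agent.V5helper15.RM

open Finset Filter Topology
open Pool.Agent.H469R2.NK (e norm_e e_add e_zero conj_e)
open Pool.Agent.R485.Mult (e_sum e_intCast e_natmul)

/-- the digit number `i + 1` after the point -/
noncomputable def dg (b : ℕ) (z : ℝ) (i : ℕ) : ℤ := ⌊(b : ℝ) ^ (i + 1) * z⌋ % b

/-- the value of a word, as a fraction -/
noncomputable def al (b : ℕ) (d : ℕ → ℕ) (l : ℕ) : ℝ := ∑ i ∈ range l, (d i : ℝ) / (b : ℝ) ^ (i + 1)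

theorem al_nonneg (b : ℕ) (d : ℕ → ℕ) (l : ℕ) : 0 ≤ al b d l := sum_nonneg fun i _ => by positivity

theorem al_int (b : ℕ) (hb : 0 < b) (d : ℕ → ℕ) (l : ℕ) : ∃ A : ℤ, al b d l * (b : ℝ) ^ l = A := by
  have hb0 : (b : ℝ) ≠ 0 := by exact_mod_cast hb.ne'
  induction l with
  | zero => exact ⟨0, by simp [al]⟩
  | succ l ih =>
    obtain ⟨A, hA⟩ := ih
    refine ⟨A * b + d l, ?_⟩
    have h1 : al b d (l + 1) = al b d l + (d l : ℝ) / (b : ℝ) ^ (l + 1) := by unfold al; rw [sum_range_succ]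
    rw [h1, add_mul, div_mul_cancel₀ _ (pow_ne_zero _ hb0), pow_succ, ← mul_assoc, hA]
    push_cast
    ring

theorem al_le (b : ℕ) (hb : 0 < b) (d : ℕ → ℕ) (hd : ∀ i, d i < b) (l : ℕ) : al b d l + 1 / (b : ℝ) ^ l ≤ 1 := by
  have hb0 : (0 : ℝ) < b := by exact_mod_cast hb
  induction l with
  | zero => simp [al]
  | succ l ih =>
    have h1 : al b d (l + 1) = al b d l + (d l : ℝ) / (b : ℝ) ^ (l + 1) := by unfold al; rw [sum_range_succ]
    have h2 : (d l : ℝ) / (b : ℝ) ^ (l + 1) + 1 / (b : ℝ) ^ (l + 1) ≤ 1 / (b : ℝ) ^ l := by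
      have h3 : (d l : ℝ) + 1 ≤ b := by exact_mod_cast hd l
      rw [← add_div, div_le_div_iff₀ (by positivity) (by positivity), pow_succ]
      have : (0 : ℝ) < (b : ℝ) ^ l := by positivity
      nlinarith
    rw [h1]
    linarith

/-- a word stands at a given place if and only if the orbit is in an interval -/
theorem win (b : ℕ) (hb : 0 < b) (z : ℝ) (u : ℕ) (d : ℕ → ℕ) (hd : ∀ i, d i < b) (l : ℕ) :
    (∀ i < l, dg b z (u + i) = d i) ↔
      (al b d l ≤ Int.fract ((b : ℝ) ^ u * z) ∧ Int.fract ((b : ℝ) ^ u * z) < al b d l + 1 / (b : ℝ) ^ l) := by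
  have hb0 : (0 : ℝ) < b := by exact_mod_cast hb
  set r := Int.fract ((b : ℝ) ^ u * z) with hr
  have hr0 : 0 ≤ r := Int.fract_nonneg _
  have hr1 : r < 1 := Int.fract_lt_one _
  induction l with
  | zero =>
    simp only [Nat.not_lt_zero, false_imp_iff, implies_true, true_iff]
    simp [al, hr0, hr1]
  | succ l ih =>
    have h1 : (∀ i < l + 1, dg b z (u + i) = d i) ↔ (∀ i < l, dg b z (u + i) = d i) ∧ dg b z (u + l) = d l := by
      constructor
      · intro h; exact ⟨fun i hi => h i (by omega), h l (by omega)⟩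
      · rintro ⟨h, h'⟩ i hi
        rcases Nat.lt_or_ge i l with h2 | h2
        · exact h i h2
        · have : i = l := by omega
          rw [this]; exact h'
    refine h1.trans ((and_congr_left' ih).trans ?_)
    obtain ⟨A, hA⟩ := al_int b hb d l
    have hal : al b d (l + 1) = al b d l + (d l : ℝ) / (b : ℝ) ^ (l + 1) := by unfold al; rw [sum_range_succ]
    have hpl : (0 : ℝ) < (b : ℝ) ^ l := by positivity
    have hpl1 : (0 : ℝ) < (b : ℝ) ^ (l + 1) := by positivity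
    -- the digit in terms of r
    have h2 : dg b z (u + l) = ⌊(b : ℝ) ^ (l + 1) * r⌋ % b := by
      unfold dg
      have e1 : (b : ℝ) ^ (u + l + 1) * z = (b : ℝ) ^ (l + 1) * r + (((b : ℤ) ^ (l + 1) * ⌊(b : ℝ) ^ u * z⌋ : ℤ) : ℝ) := by
        have e2 : (b : ℝ) ^ u * z = r + ⌊(b : ℝ) ^ u * z⌋ := (Int.fract_add_floor _).symm
        have e3 : (b : ℝ) ^ (u + l + 1) * z = (b : ℝ) ^ (l + 1) * ((b : ℝ) ^ u * z) := by
          rw [show u + l + 1 = (l + 1) + u by ring, pow_add]; ring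
        rw [e3]
        conv_lhs => rw [e2]
        push_cast
        ring
      have e4 : (b : ℤ) ^ (l + 1) * ⌊(b : ℝ) ^ u * z⌋ = b * ((b : ℤ) ^ l * ⌊(b : ℝ) ^ u * z⌋) := by ring
      rw [e1, Int.floor_add_intCast, e4, Int.add_mul_emod_self_left]
    have h3 : (d l : ℝ) + 1 ≤ b := by exact_mod_cast hd l
    have hdl : (0 : ℝ) ≤ d l := Nat.cast_nonneg _
    constructor
    · rintro ⟨⟨h4, h5⟩, h6⟩
      rw [h2] at h6
      have h7 : (b : ℝ) * A ≤ (b : ℝ) ^ (l + 1) * r := by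
        rw [← hA, pow_succ]
        have := mul_le_mul_of_nonneg_left h4 hpl1.le
        rw [pow_succ] at this
        linarith
      have h8 : (b : ℝ) ^ (l + 1) * r < b * A + b := by
        have h9 : (b : ℝ) ^ (l + 1) * r < (b : ℝ) ^ (l + 1) * (al b d l + 1 / (b : ℝ) ^ l) := by gcongr
        refine h9.trans_eq ?_
        rw [← hA, pow_succ]
        field_simp
      set e1 : ℤ := ⌊(b : ℝ) ^ (l + 1) * r⌋ - b * A with he1
      have h10 : 0 ≤ e1 := by
        rw [he1, sub_nonneg]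
        exact Int.le_floor.2 (by push_cast; exact h7)
      have h11 : e1 < b := by
        rw [he1, sub_lt_iff_lt_add]
        exact Int.floor_lt.2 (by push_cast; linarith)
      have h12 : ⌊(b : ℝ) ^ (l + 1) * r⌋ = e1 + b * A := by rw [he1]; ring
      rw [h12, Int.add_mul_emod_self_left, Int.emod_eq_of_lt h10 h11] at h6
      have h13 : ⌊(b : ℝ) ^ (l + 1) * r⌋ = d l + b * A := by rw [h12, h6]
      rw [Int.floor_eq_iff] at h13
      push_cast at h13
      obtain ⟨h14, h15⟩ := h13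
      have e2 : (b : ℝ) * A = (b : ℝ) ^ (l + 1) * al b d l := by rw [← hA, pow_succ]; ring
      rw [e2] at h14 h15
      rw [hal]
      constructor
      · rw [← sub_nonneg]
        have : 0 ≤ (b : ℝ) ^ (l + 1) * (r - (al b d l + (d l : ℝ) / (b : ℝ) ^ (l + 1))) := by
          have e3 : (b : ℝ) ^ (l + 1) * (r - (al b d l + (d l : ℝ) / (b : ℝ) ^ (l + 1))) =
              (b : ℝ) ^ (l + 1) * r - (d l + (b : ℝ) ^ (l + 1) * al b d l) := by field_simp; ring
          rw [e3]; linarith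
        exact nonneg_of_mul_nonneg_right this hpl1
      · rw [← sub_pos]
        have : 0 < (b : ℝ) ^ (l + 1) * (al b d l + (d l : ℝ) / (b : ℝ) ^ (l + 1) + 1 / (b : ℝ) ^ (l + 1) - r) := by
          have e3 : (b : ℝ) ^ (l + 1) * (al b d l + (d l : ℝ) / (b : ℝ) ^ (l + 1) + 1 / (b : ℝ) ^ (l + 1) - r) =
              (d l + (b : ℝ) ^ (l + 1) * al b d l + 1) - (b : ℝ) ^ (l + 1) * r := by field_simp; ring
          rw [e3]; linarith
        exact (pos_iff_pos_of_mul_pos this).1 hpl1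
    · rw [hal]
      rintro ⟨h4, h5⟩
      have h6 : 0 ≤ (d l : ℝ) / (b : ℝ) ^ (l + 1) := by positivity
      have h7 : (d l : ℝ) / (b : ℝ) ^ (l + 1) + 1 / (b : ℝ) ^ (l + 1) ≤ 1 / (b : ℝ) ^ l := by
        rw [← add_div, div_le_div_iff₀ (by positivity) (by positivity), pow_succ]
        nlinarith
      refine ⟨⟨by linarith, by linarith⟩, ?_⟩
      rw [h2]
      have e2 : (b : ℝ) * A = (b : ℝ) ^ (l + 1) * al b d l := by rw [← hA, pow_succ]; ring
      have h13 : ⌊(b : ℝ) ^ (l + 1) * r⌋ = d l + b * A := by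
        rw [Int.floor_eq_iff]
        push_cast
        rw [e2]
        constructor
        · have := mul_le_mul_of_nonneg_left h4 hpl1.le
          have e3 : (b : ℝ) ^ (l + 1) * (al b d l + (d l : ℝ) / (b : ℝ) ^ (l + 1)) = d l + (b : ℝ) ^ (l + 1) * al b d l := by
            field_simp; ring
          linarith
        · have := mul_lt_mul_of_pos_left h5 hpl1
          have e3 : (b : ℝ) ^ (l + 1) * (al b d l + (d l : ℝ) / (b : ℝ) ^ (l + 1) + 1 / (b : ℝ) ^ (l + 1)) =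
              d l + (b : ℝ) ^ (l + 1) * al b d l + 1 := by
            field_simp; ring
          linarith
      rw [h13, Int.add_mul_emod_self_left, Int.emod_eq_of_lt (by positivity) (by exact_mod_cast hd l)]

/-- the point with the given digits -/
noncomputable def pt {b N : ℕ} (x : Fin N → Fin b) : ℝ := ∑ i : Fin N, ((x i : ℕ) : ℝ) / (b : ℝ) ^ ((i : ℕ) + 1)

theorem dg_pt {b N : ℕ} (hb : 0 < b) (x : Fin N → Fin b) (i : Fin N) : dg b (pt x) i = (x i : ℕ) := by
  have hb0 : (0 : ℝ) < b := by exact_mod_cast hb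
  set d : ℕ → ℕ := fun j => if h : j < N then (x ⟨j, h⟩ : ℕ) else 0 with hd
  have hdb : ∀ j, d j < b := by
    intro j
    simp only [hd]
    split_ifs with h
    · exact (x ⟨j, h⟩).2
    · exact hb
  have h1 : pt x = al b d N := by
    unfold pt al
    rw [← Fin.sum_univ_eq_sum_range (fun j => (d j : ℝ) / (b : ℝ) ^ (j + 1)) N]
    refine sum_congr rfl fun j _ => ?_
    simp only [hd, j.2, dif_pos]
  have h2 := al_nonneg b d N
  have h3 := al_le b hb d hdb N
  have h4 : 0 < 1 / (b : ℝ) ^ N := by positivity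
  have h5 := (win b hb (pt x) 0 d hdb N).2 (by
    rw [pow_zero, one_mul, h1, Int.fract_eq_self.2 ⟨h2, by linarith⟩]
    exact ⟨le_rfl, by linarith⟩) i i.2
  rw [zero_add] at h5
  rw [h5]
  simp only [hd, i.2, dif_pos]

/-- the Fourier coefficients of the point with random digits -/
theorem pt_fourier {b N : ℕ} (hb : 0 < b) (Λ : ℤ) (h0 : Λ ≠ 0) (hΛ : |Λ| < (b : ℤ) ^ N) :
    Ec (un b N) (fun x => e ((Λ : ℝ) * pt x)) = 0 := by
  classical
  have hb0 : (b : ℝ) ≠ 0 := by exact_mod_cast hb.ne'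
  have hex : ∃ i, ¬ (b : ℤ) ^ (i + 1) ∣ Λ := by
    by_contra hcon
    push Not at hcon
    have hN : N ≠ 0 := by
      rintro rfl
      rw [pow_zero] at hΛ
      have := Int.one_le_abs h0
      omega
    obtain ⟨M, rfl⟩ : ∃ M, N = M + 1 := ⟨N - 1, by omega⟩
    have h1 := Int.le_of_dvd (abs_pos.2 h0) ((dvd_abs _ _).2 (hcon M))
    omega
  set i0 := Nat.find hex with hi0
  have h1 : ¬ (b : ℤ) ^ (i0 + 1) ∣ Λ := Nat.find_spec hex
  have h2 : (b : ℤ) ^ i0 ∣ Λ := by
    rcases Nat.eq_zero_or_pos i0 with h | h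
    · rw [h, pow_zero]; exact one_dvd _
    · have := Nat.find_min hex (m := i0 - 1) (by omega)
      rw [not_not, Nat.sub_add_cancel h] at this
      exact this
  have h3 : i0 < N := by
    by_contra hcon
    push Not at hcon
    have h4 : (b : ℤ) ^ N ∣ Λ := (pow_dvd_pow _ hcon).trans h2
    have := Int.le_of_dvd (abs_pos.2 h0) ((dvd_abs _ _).2 h4)
    omega
  have h4 : ∀ x : Fin N → Fin b, e ((Λ : ℝ) * pt x) =
      ∏ i, (fun (i : Fin N) (c : Fin b) => e ((Λ : ℝ) * (((c : ℕ) : ℝ) / (b : ℝ) ^ ((i : ℕ) + 1)))) i (x i) := by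
    intro x
    unfold pt
    rw [mul_sum, e_sum]
  rw [show (fun x : Fin N → Fin b => e ((Λ : ℝ) * pt x)) = _ from funext h4,
    un_prod N (fun (i : Fin N) (c : Fin b) => e ((Λ : ℝ) * (((c : ℕ) : ℝ) / (b : ℝ) ^ ((i : ℕ) + 1))))]
  refine prod_eq_zero (mem_univ (⟨i0, h3⟩ : Fin N)) ?_
  -- a geometric sum
  set ζ : ℂ := e ((Λ : ℝ) / (b : ℝ) ^ (i0 + 1)) with hζ
  have h5 : ∀ c : ℕ, e ((Λ : ℝ) * ((c : ℝ) / (b : ℝ) ^ (i0 + 1))) = ζ ^ c := by
    intro c
    rw [hζ, ← e_natmul]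
    congr 1
    ring
  have h6 : ζ ≠ 1 := by
    intro h7
    apply h1
    rw [hζ] at h7
    unfold Pool.Agent.H469R2.NK.e at h7
    rw [Complex.exp_eq_one_iff] at h7
    obtain ⟨n, hn⟩ := h7
    have hpi : (2 * Real.pi * Complex.I : ℂ) ≠ 0 := by
      simp [Real.pi_ne_zero, Complex.I_ne_zero]
    have h8 : (((Λ : ℝ) / (b : ℝ) ^ (i0 + 1) : ℝ) : ℂ) = n := by
      have : (((Λ : ℝ) / (b : ℝ) ^ (i0 + 1) : ℝ) : ℂ) * (2 * Real.pi * Complex.I) = n * (2 * Real.pi * Complex.I) := by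
        rw [← hn]; push_cast; ring
      exact mul_right_cancel₀ hpi this
    have h9 : (Λ : ℝ) / (b : ℝ) ^ (i0 + 1) = n := by exact_mod_cast h8
    rw [div_eq_iff (pow_ne_zero _ hb0)] at h9
    refine ⟨n, ?_⟩
    have : (Λ : ℝ) = ((n * (b : ℤ) ^ (i0 + 1) : ℤ) : ℝ) := by rw [h9]; push_cast; ring
    rw [mul_comm]
    exact_mod_cast this
  have h7 : ζ ^ b = 1 := by
    obtain ⟨n, hn⟩ := h2
    rw [← h5, hn]
    have : (((b : ℤ) ^ i0 * n : ℤ) : ℝ) * ((b : ℝ) / (b : ℝ) ^ (i0 + 1)) = (n : ℝ) := by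
      push_cast
      rw [pow_succ]
      field_simp
    rw [this, e_intCast]
  have h8 : ∑ c : Fin b, e ((Λ : ℝ) * (((c : ℕ) : ℝ) / (b : ℝ) ^ (i0 + 1))) = 0 := by
    simp only [h5]
    rw [Fin.sum_univ_eq_sum_range (fun c => ζ ^ c) b, geom_sum_eq h6, h7, sub_self, zero_div]
  dsimp only
  rw [h8, zero_div]

theorem pt_equi {b N k H N' : ℕ} (hb : 0 < b) (hN' : k * H * b ^ N < b ^ N') :
    Equi b N k H 0 (un b N') (pt (b := b) (N := N')) := by
  intro κ hκ h hh h0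
  have hb1 : (1 : ℤ) ≤ b := by exact_mod_cast hb
  have h1 : |∑ j, h j * (b : ℤ) ^ κ j| < (b : ℤ) ^ N' := by
    have h2 : |∑ j, h j * (b : ℤ) ^ κ j| ≤ (k * H * b ^ N : ℕ) := by
      refine (abs_sum_le_sum_abs _ _).trans ?_
      have h3 : ∀ j ∈ (univ : Finset (Fin k)), |h j * (b : ℤ) ^ κ j| ≤ (H * b ^ N : ℕ) := by
        intro j _
        rw [abs_mul, abs_of_nonneg (by positivity : (0 : ℤ) ≤ (b : ℤ) ^ κ j)]
        push_cast
        exact mul_le_mul (hh j) (pow_le_pow_right₀ hb1 (hκ j)) (by positivity) (by positivity)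
      refine (sum_le_sum h3).trans (le_of_eq ?_)
      rw [sum_const, card_univ, Fintype.card_fin, nsmul_eq_mul]
      push_cast
      ring
    exact lt_of_le_of_lt h2 (by exact_mod_cast hN')
  have h2 := pt_fourier hb _ h0 h1
  have h3 : ((∑ j, h j * (b : ℤ) ^ κ j : ℤ) : ℝ) = ∑ j, (h j : ℝ) * (b : ℝ) ^ κ j := by push_cast; rfl
  rw [h3] at h2
  rw [h2, norm_zero]

variable {Ω : Type*} [Fintype Ω] {p z : Ω → ℝ} {b N k H : ℕ} {δ : ℝ}

/-- **Windows of digits.** -/
theorem Equi.windows (hE : Equi b N k H δ p z) (hp : Prob p) (hb : 0 < b) (hδ : 0 ≤ δ) (hH : 1 ≤ H)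
    {t : ℝ} (ht0 : 0 < t) (ht1 : t ≤ 1) (htH : 2 ≤ t * H)
    (u l : Fin k → ℕ) (hu : ∀ j, u j ≤ N) (d : Fin k → ℕ → ℕ) (hd : ∀ j i, d j i < b) {N' : ℕ}
    (hN' : k * H * b ^ N < b ^ N') (hl : ∀ j, u j + l j ≤ N') :
    |E p (fun ω => if ∀ j, ∀ i < l j, dg b (z ω) (u j + i) = d j i then 1 else 0) -
      E (un b N') (fun x => if ∀ j, ∀ i (hi : i < l j), (x ⟨u j + i, lt_of_lt_of_le (Nat.add_lt_add_left hi _) (hl j)⟩ : ℕ) = d j i
        then 1 else 0)| ≤
      2 * δ * (4 / t) ^ k + 5 ^ k * k * (4 / (t * H) + 2 * (2 * t + (6 / t * δ + 4 / (t * H)))) := by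
  classical
  have hb0 : (0 : ℝ) < b := by exact_mod_cast hb
  have hE' : Equi b N k H δ (un b N') (pt (b := b) (N := N')) := fun κ hκ h hh h0 =>
    (pt_equi hb hN' κ hκ h hh h0).trans hδ
  have h1 := hE.main hE' hp (un_prob hb N') hb hδ hH ht0 ht1 htH u hu (fun j => al b (d j) (l j))
    (fun j => al b (d j) (l j) + 1 / (b : ℝ) ^ l j) (fun j => al_nonneg _ _ _) (fun j => by
      have : 0 < 1 / (b : ℝ) ^ l j := by positivity
      linarith) (fun j => al_le b hb (d j) (hd j) (l j))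
  have h2 : ∀ w : ℝ, ∏ j, ind (al b (d j) (l j)) (al b (d j) (l j) + 1 / (b : ℝ) ^ l j) ((b : ℝ) ^ u j * w) =
      if ∀ j, ∀ i < l j, dg b w (u j + i) = d j i then 1 else 0 := by
    intro w
    by_cases h : ∀ j, ∀ i < l j, dg b w (u j + i) = d j i
    · rw [if_pos h]
      refine prod_eq_one fun j _ => ?_
      unfold ind
      rw [if_pos ((win b hb w (u j) (d j) (hd j) (l j)).1 (h j))]
    · rw [if_neg h]
      rw [not_forall] at h
      obtain ⟨j, hj⟩ := h
      refine prod_eq_zero (mem_univ j) ?_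
      unfold ind
      rw [if_neg (fun h' => hj ((win b hb w (u j) (d j) (hd j) (l j)).2 h'))]
  simp only [h2] at h1
  have h3 : ∀ x : Fin N' → Fin b, (if ∀ j, ∀ i < l j, dg b (pt x) (u j + i) = d j i then (1 : ℝ) else 0) =
      if ∀ j, ∀ i (hi : i < l j), (x ⟨u j + i, lt_of_lt_of_le (Nat.add_lt_add_left hi _) (hl j)⟩ : ℕ) = d j i then 1 else 0 := by
    intro x
    refine if_congr ?_ rfl rfl
    refine forall_congr' fun j => forall_congr' fun i => forall_congr' fun hi => ?_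
    have := dg_pt hb x ⟨u j + i, lt_of_lt_of_le (Nat.add_lt_add_left hi _) (hl j)⟩
    simp only at this
    rw [this]
    exact_mod_cast Iff.rfl
  simp only [h3] at h1
  exact h1

end Pool.Agent.V5helper15.RM
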